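import Pool.Agent.PDH.Prin
import Pool.Agent.PDG.Rep

/-!
# Blueprint PDH, module AcU (helper41): crossed homomorphisms to the ultraproduct are principal

PROOF.  For almost all `n` (`n ≥ n₀` by `PDG.ev_ge`, and `hc`) apply `prin` to `θ = Y.θ n` (`PDG.OreEmb` and
`PDH.OreEmb` agree for `k = ℚ`: `⟨h.inj, h.fr⟩`), `q = (mk' (N n)).comp π`, and the function `g ↦ y g n`
(`Y.a n g = Y.θ n (single (mk' g) 1)`): `y g n = (Y.a n (π g) - 1) * ((Y.a n (π t) - 1)⁻¹ * y t n)` for all `g`.  Take classes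
(`mkU_inv`).
-/

set_option autoImplicit false

namespace Pool.Agent.PDH

open Pool.Agent.HFT Pool.Agent.PDG

variable {S : Type} [Group S] {N : ℕ → Subgroup S} [∀ n, (N n).Normal]

theorem acU (Y : PDG.Sys N) {G : Type} [Group G] (hfg : Group.FG G) (π : G →* S) (t : G) (n₀ : ℕ)
    (ht : ∀ n, n₀ ≤ n → π t ∉ N n)
    (hE : ∀ n, n₀ ≤ n → EK ℚ ((QuotientGroup.mk' (N n)).comp π) t) (y : G → ∀ n, Y.D n)
    (hyD : ∀ g n, y g n ∈ PDG.DB (Y.θ n) ⊤)
    (hc : ∀ᶠ n in (uf : Filter ℕ), ∀ g g', y (g * g') n = y g n + Y.a n (π g) * y g' n) (g : G) :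
    mkU uf Y.D (y g) = (Y.A (π g) - 1) * ((Y.A (π t) - 1)⁻¹ * mkU uf Y.D (y t)) := by
  have key : ∀ᶠ n in (uf : Filter ℕ),
      y g n = (Y.a n (π g) - 1) * ((Y.a n (π t) - 1)⁻¹ * y t n) := by
    filter_upwards [hc, PDG.ev_ge n₀] with n hcn hn
    have hO : PDH.OreEmb (Y.θ n) := ⟨(Y.ore n).inj, (Y.ore n).fr⟩
    exact prin hfg (Y.θ n) hO ((QuotientGroup.mk' (N n)).comp π) t
      (fun h => ht n hn ((QuotientGroup.eq_one_iff _).1 h)) (hE n hn) (fun g => y g n)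
      (fun g => hyD g n) (fun g h => hcn g h) g
  have h1 : mkU uf Y.D (y g) = mkU uf Y.D
      (((fun n => Y.a n (π g)) - 1) * (((fun n => Y.a n (π t)) - 1)⁻¹ * y t)) :=
    mkU_eq_iff.2 key
  rw [h1, map_mul, map_mul, mkU_inv, map_sub, map_sub, map_one, ← Y.A_apply, ← Y.A_apply]

end Pool.Agent.PDH
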