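import Pool.Agent.PDH.CH
import Pool.Agent.PDF.Beta

/-!
# Blueprint PDH, module BetaE (helper41): elements of the kernel and cycles

`π : G → H` surjective with kernel `K`.  For `κ ∈ K` the image `z(κ)` of the row `x κ` over `ℤ[H]` is a cycle.
PROOF of `beta_elem`: this is the proof of `PDF.beta` (file `PDF/Beta.lean`) for the single element `κ`: there
`x` is any row with `x ᵥ* d1 = (κ - 1) • cs` (`cs = u`), and the only use of the hypothesis is the existence of `y` with
`y ᵥ* d̄2 = z(κ)`.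
PROOF of `zk_mul`: `x (κ κ') - x κ - [κ] • x κ'` is fixed by `e1` and killed by `d1`, so it is `y ᵥ* d2`
(`Half.ex1`); over `ℤ[H]` the element `[κ]` becomes `1` (see `hmul` in `PDF/Alpha.lean`).
PROOF of `zk_pow`: by `zk_mul` the map `κ ↦ z(κ)` is a homomorphism from `K` to the additive group of rows modulo the
rows `y ᵥ* d̄2` (an additive subgroup); so the `κ ∈ K` such that `z(κ)` is a boundary form a subgroup that contains
all commutators of elements of `K`, hence `⁅K, K⁆`, and `z(κ ^ n) - n • z(κ)` is a boundary (induction on `n`;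
`z(1)` is a boundary).
-/

set_option autoImplicit false

namespace Pool.Agent.PDH

open Pool.Agent.PDF Matrix

variable {G H : Type} [Group G] [Group H] {n0 n1 n2 : Type} [Fintype n0] [Fintype n1] [Fintype n2]
  {e0 : Matrix n0 n0 (MonoidAlgebra ℤ G)} {e1 : Matrix n1 n1 (MonoidAlgebra ℤ G)}
  {d1 : Matrix n1 n0 (MonoidAlgebra ℤ G)} {d2 : Matrix n2 n1 (MonoidAlgebra ℤ G)} {m : n0 → ℤ}
  {u : n0 → MonoidAlgebra ℤ G} {x : G → n1 → MonoidAlgebra ℤ G}
  {p : n0 → n1 → MonoidAlgebra ℤ G}

private noncomputable def lamE {G n : Type} [Group G] [Fintype n] (m : n → ℤ)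
    (v : n → MonoidAlgebra ℤ G) : MonoidAlgebra ℤ G := ∑ j, m j • v j

private theorem lamE_add {G n : Type} [Group G] [Fintype n] (m : n → ℤ)
    (v w : n → MonoidAlgebra ℤ G) : lamE m (v + w) = lamE m v + lamE m w := by
  simp only [lamE, Pi.add_apply, smul_add, Finset.sum_add_distrib]

private theorem lamE_smul {G n : Type} [Group G] [Fintype n] (m : n → ℤ)
    (b : MonoidAlgebra ℤ G) (v : n → MonoidAlgebra ℤ G) :
    lamE m (b • v) = b * lamE m v := by
  simp only [lamE, Pi.smul_apply, smul_eq_mul, Finset.mul_sum]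
  exact Finset.sum_congr rfl fun j _ => (mul_smul_comm _ _ _).symm

private theorem aug_lamE {G n : Type} [Group G] [Fintype n] (m : n → ℤ)
    (v : n → MonoidAlgebra ℤ G) : aug (lamE m v) = eps m v := by
  simp only [lamE, eps, map_sum]
  exact Finset.sum_congr rfl fun j _ => by rw [map_zsmul, smul_eq_mul, mul_comm]

private theorem lamE_sum {G n ι : Type} [Group G] [Fintype n] (m : n → ℤ) (s : Finset ι)
    (v : ι → n → MonoidAlgebra ℤ G) : lamE m (∑ i ∈ s, v i) = ∑ i ∈ s, lamE m (v i) := by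
  classical
  induction s using Finset.induction_on with
  | empty => simp [lamE]
  | insert a s ha ih => rw [Finset.sum_insert ha, Finset.sum_insert ha, lamE_add, ih]

private theorem vecMul_rowsE {A n m : Type} [Ring A] [Fintype n] (v : n → A)
    (M : Matrix n m A) : Matrix.vecMul v M = ∑ i, v i • M i := by
  funext j
  simp [Matrix.vecMul, dotProduct, Finset.sum_apply]

private theorem mp_surjE {G H : Type} [Group G] [Group H] (π : G →* H)
    (hπ : Function.Surjective π) : Function.Surjective (mp π) := by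
  intro x
  induction x using MonoidAlgebra.induction_linear with
  | zero => exact ⟨0, map_zero _⟩
  | add x y hx hy =>
    obtain ⟨x', rfl⟩ := hx
    obtain ⟨y', rfl⟩ := hy
    exact ⟨x' + y', map_add _ _ _⟩
  | single g a =>
    obtain ⟨g', rfl⟩ := hπ g
    exact ⟨MonoidAlgebra.single g' a, mp_single π g' a⟩

private theorem vecMul_mpE {G H n k : Type} [Group G] [Group H] [Fintype n] (π : G →* H)
    (v : n → MonoidAlgebra ℤ G) (M : Matrix n k (MonoidAlgebra ℤ G)) :
    Matrix.vecMul (fun j => mp π (v j)) (M.map (mp π)) =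
      fun j => mp π (Matrix.vecMul v M j) := by
  funext j
  simp [Matrix.vecMul, dotProduct, map_sum]

theorem beta_elem (π : G →* H) (hπ : Function.Surjective π) (h : Half e0 e1 d1 d2 m)
    (hd : ChD e0 e1 d1 m u x p) (κ : G) (hκ : κ ∈ π.ker)
    (hy : ∃ y : n2 → MonoidAlgebra ℤ H, y ᵥ* (d2.map (mp π)) = fun j => mp π (x κ j)) :
    κ ∈ ⁅π.ker, π.ker⁆ := by
  classical
  choose t ht using hπ
  have hmem : ∀ g : G, g * (t (π g))⁻¹ ∈ π.ker := by
    intro g
    rw [MonoidHom.mem_ker, map_mul, map_inv, ht, mul_inv_cancel]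
  set cl : π.ker → Additive (Abelianization π.ker) :=
    fun κ => Additive.ofMul (Abelianization.of κ) with hcl
  set μf : G → Additive (Abelianization π.ker) := fun g => cl ⟨g * (t (π g))⁻¹, hmem g⟩ with hμf
  set μ := gext μf with hμ
  have hμκ : ∀ (κ : π.ker) (g : G), μf ((κ : G) * g) = cl κ + μf g := by
    intro κ g
    have e : (⟨(κ : G) * g * (t (π ((κ : G) * g)))⁻¹, hmem _⟩ : π.ker) =
        κ * ⟨g * (t (π g))⁻¹, hmem g⟩ := by
      apply Subtype.ext
      have h1 : π ((κ : G) * g) = π g := by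
        rw [map_mul, (MonoidHom.mem_ker).1 κ.2, one_mul]
      change (κ : G) * g * (t (π ((κ : G) * g)))⁻¹ = (κ : G) * (g * (t (π g))⁻¹)
      rw [h1, mul_assoc]
    change cl _ = cl κ + cl _
    rw [e]
    simp only [hcl, map_mul, ofMul_mul]
  have hμ1 : ∀ (κ : π.ker) (u : MonoidAlgebra ℤ G),
      μ (MonoidAlgebra.single (κ : G) 1 * u) = aug u • cl κ + μ u := by
    intro κ u
    induction u using MonoidAlgebra.induction_linear with
    | zero => simp
    | add x y hx hy => rw [mul_add, map_add, hx, hy, map_add, map_add, add_smul]; abel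
    | single g a =>
      rw [MonoidAlgebra.single_mul_single, one_mul, aug_single]
      simp only [hμ, gext_single, hμκ, smul_add]
  have hμ2 : ∀ (u : MonoidAlgebra ℤ G), aug u = 0 → ∀ a : MonoidAlgebra ℤ G,
      μ (a * u) = gext (fun y : H => μ (MonoidAlgebra.single (t y) 1 * u)) (mp π a) := by
    intro u hu a
    induction a using MonoidAlgebra.induction_linear with
    | zero => simp
    | add x y hx hy => rw [add_mul, map_add, hx, hy, map_add, map_add]
    | single g b =>
      rw [mp_single, gext_single]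
      have e1 : (MonoidAlgebra.single g b : MonoidAlgebra ℤ G) =
          b • (MonoidAlgebra.single (g * (t (π g))⁻¹) 1 * MonoidAlgebra.single (t (π g)) 1) := by
        rw [MonoidAlgebra.single_mul_single, inv_mul_cancel_right, mul_one,
          MonoidAlgebra.smul_single, smul_eq_mul, mul_one]
      rw [e1, smul_mul_assoc, map_zsmul, mul_assoc]
      congr 1
      have h2 := hμ1 ⟨g * (t (π g))⁻¹, hmem g⟩ (MonoidAlgebra.single (t (π g)) 1 * u)
      have h3 : aug ((MonoidAlgebra.single (t (π g)) 1 : MonoidAlgebra ℤ G) * u) = 0 := by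
        rw [map_mul, hu, mul_zero]
      rw [h3, zero_smul, zero_add] at h2
      exact h2
  obtain ⟨y, hy⟩ := hy
  choose y' hy' using fun j => mp_surjE π (fun b => ⟨t b, ht b⟩) (y j)
  have hyy : y = fun j => mp π (y' j) := by
    funext j
    exact (hy' j).symm
  set w := x κ - Matrix.vecMul y' d2 with hw
  have hw0 : ∀ j, mp π (w j) = 0 := by
    intro j
    have h1 : mp π (Matrix.vecMul y' d2 j) = mp π (x κ j) := by
      have h0 := congrFun hy j
      rw [hyy, vecMul_mpE] at h0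
      exact h0
    rw [hw, Pi.sub_apply, map_sub, h1, sub_self]
  have hwd : Matrix.vecMul w d1 = Matrix.vecMul (x κ) d1 := by
    have h0 : Matrix.vecMul (Matrix.vecMul y' d2) d1 = 0 := by
      rw [Matrix.vecMul_vecMul, h.d2d1, Matrix.vecMul_zero]
    rw [hw, Matrix.sub_vecMul, h0, sub_zero]
  have h1 : μ (lamE m (Matrix.vecMul w d1)) = 0 := by
    rw [vecMul_rowsE, lamE_sum, map_sum]
    apply Finset.sum_eq_zero
    intro i _
    rw [lamE_smul, hμ2 _ (by rw [aug_lamE, h.md1 i]), hw0, map_zero]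
  rw [hwd, hd.x2, lamE_smul, sub_mul, one_mul, map_sub, hμ1 ⟨κ, hκ⟩, aug_lamE, hd.u1, one_smul,
    add_sub_cancel_right] at h1
  have h2 : Abelianization.of (⟨κ, hκ⟩ : π.ker) = 1 := by
    have := congrArg Additive.toMul h1
    exact this
  have h3 : (⟨κ, hκ⟩ : π.ker) ∈ commutator π.ker := by
    rw [← Abelianization.ker_of]
    exact h2
  have h4 : κ ∈ (commutator π.ker).map π.ker.subtype := ⟨⟨κ, hκ⟩, h3, rfl⟩
  rwa [Subgroup.map_subtype_commutator] at h4

theorem zk_mul (π : G →* H) (h : Half e0 e1 d1 d2 m) (hd : ChD e0 e1 d1 m u x p) (κ κ' : G)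
    (hκ : κ ∈ π.ker) (hκ' : κ' ∈ π.ker) :
    ∃ y : n2 → MonoidAlgebra ℤ H, (fun j => mp π (x (κ * κ') j)) =
      (fun j => mp π (x κ j)) + (fun j => mp π (x κ' j)) + y ᵥ* (d2.map (mp π)) := by
  obtain ⟨y, hy⟩ := h.ex1 (x (κ * κ') - (MonoidAlgebra.single κ (1 : ℤ)) • x κ' - x κ)
    (by rw [Matrix.sub_vecMul, Matrix.sub_vecMul, Matrix.smul_vecMul, hd.x1, hd.x1, hd.x1])
    (by
      rw [Matrix.sub_vecMul, Matrix.sub_vecMul, Matrix.smul_vecMul, hd.x2, hd.x2, hd.x2, smul_smul,
        ← sub_smul, ← sub_smul, mul_sub, MonoidAlgebra.single_mul_single]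
      simp)
  refine ⟨fun j => mp π (y j), ?_⟩
  funext j
  rw [Pi.add_apply, Pi.add_apply, ← mp_vecMul, hy, Pi.sub_apply, Pi.sub_apply, Pi.smul_apply,
    smul_eq_mul, map_sub, map_sub, map_mul, mp_single, (MonoidHom.mem_ker).1 hκ,
    ← MonoidAlgebra.one_def, one_mul]
  abel

theorem zk_pow (π : G →* H) (h : Half e0 e1 d1 d2 m) (hd : ChD e0 e1 d1 m u x p) (κ : G)
    (hκ : κ ∈ π.ker) (n : ℕ) (hn : κ ^ n ∈ ⁅π.ker, π.ker⁆) :
    ∃ y : n2 → MonoidAlgebra ℤ H, (n : ℤ) • (fun j => mp π (x κ j)) = y ᵥ* (d2.map (mp π)) := by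
  classical
  -- the subgroup of boundaries
  let Bd : AddSubgroup (n1 → MonoidAlgebra ℤ H) :=
    { carrier := {c | ∃ y : n2 → MonoidAlgebra ℤ H, c = y ᵥ* (d2.map (mp π))}
      add_mem' := by
        rintro a b ⟨y, hy⟩ ⟨y', hy'⟩
        exact ⟨y + y', by rw [Matrix.add_vecMul, hy, hy']⟩
      zero_mem' := ⟨0, by rw [Matrix.zero_vecMul]⟩
      neg_mem' := by
        rintro a ⟨y, hy⟩
        exact ⟨-y, by rw [Matrix.neg_vecMul, hy]⟩ }
  set z : G → n1 → MonoidAlgebra ℤ H := fun g j => mp π (x g j) with hz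
  have hmul : ∀ a ∈ π.ker, ∀ b ∈ π.ker, z (a * b) - z a - z b ∈ Bd := by
    intro a ha b hb
    obtain ⟨y, hy⟩ := zk_mul π h hd a b ha hb
    refine ⟨y, ?_⟩
    have h1 : z (a * b) = z a + z b + y ᵥ* (d2.map (mp π)) := hy
    rw [h1]
    abel
  have hone : z 1 ∈ Bd := by
    have h1 := hmul 1 (one_mem _) 1 (one_mem _)
    rw [mul_one] at h1
    have h2 : z 1 - z 1 - z 1 = -z 1 := by abel
    rw [h2] at h1
    simpa using neg_mem h1
  have hinv : ∀ a ∈ π.ker, z a + z a⁻¹ ∈ Bd := by
    intro a ha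
    have h1 := hmul a ha a⁻¹ (inv_mem ha)
    rw [mul_inv_cancel] at h1
    have h2 : z a + z a⁻¹ = z 1 - (z 1 - z a - z a⁻¹) := by abel
    rw [h2]
    exact sub_mem hone h1
  let Kg : Subgroup G :=
    { carrier := {a | a ∈ π.ker ∧ z a ∈ Bd}
      mul_mem' := by
        rintro a b ⟨ha, ha'⟩ ⟨hb, hb'⟩
        refine ⟨mul_mem ha hb, ?_⟩
        have h1 := hmul a ha b hb
        have h2 : z (a * b) = (z (a * b) - z a - z b) + z a + z b := by abel
        rw [h2]
        exact add_mem (add_mem h1 ha') hb'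
      one_mem' := ⟨one_mem _, hone⟩
      inv_mem' := by
        rintro a ⟨ha, ha'⟩
        refine ⟨inv_mem ha, ?_⟩
        have h1 := sub_mem (hinv a ha) ha'
        simpa using h1 }
  have hK : ⁅π.ker, π.ker⁆ ≤ Kg := by
    rw [Subgroup.commutator_le]
    intro a ha b hb
    rw [commutatorElement_def]
    have m1 := mul_mem ha hb
    have m2 := mul_mem m1 (inv_mem ha)
    refine ⟨mul_mem m2 (inv_mem hb), ?_⟩
    have h1 := hmul _ m2 _ (inv_mem hb)
    have h2 := hmul _ m1 _ (inv_mem ha)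
    have h3 := hmul _ ha _ hb
    have h4 := hinv a ha
    have h5 := hinv b hb
    have h6 := add_mem (add_mem (add_mem (add_mem h1 h2) h3) h4) h5
    have h7 : z (a * b * a⁻¹ * b⁻¹) - z (a * b * a⁻¹) - z b⁻¹ +
        (z (a * b * a⁻¹) - z (a * b) - z a⁻¹) + (z (a * b) - z a - z b) + (z a + z a⁻¹) +
        (z b + z b⁻¹) = z (a * b * a⁻¹ * b⁻¹) := by abel
    rw [h7] at h6
    exact h6
  have hpow : ∀ k : ℕ, z (κ ^ k) - (k : ℤ) • z κ ∈ Bd := by
    intro k
    induction k with
    | zero => simpa using hone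
    | succ k ih =>
      have h1 := hmul _ (pow_mem hκ k) κ hκ
      rw [← pow_succ] at h1
      have h2 : z (κ ^ (k + 1)) - ((k + 1 : ℕ) : ℤ) • z κ =
          (z (κ ^ (k + 1)) - z (κ ^ k) - z κ) + (z (κ ^ k) - (k : ℤ) • z κ) := by
        push_cast
        rw [add_smul, one_smul]
        abel
      rw [h2]
      exact add_mem h1 ih
  have h1 := sub_mem (hK hn).2 (hpow n)
  have h2 : z (κ ^ n) - (z (κ ^ n) - (n : ℤ) • z κ) = (n : ℤ) • z κ := by abel
  rw [h2] at h1
  exact h1

end Pool.Agent.PDH
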