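import Pool.Agent.PDH.Defs
import Pool.Agent.PDF.Alpha

/-!
# Blueprint PDH, module CH (helper41): cocycles and crossed homomorphisms

`ChD e0 e1 d1 m u x p`: `u e0 = u`, `eps m u = 1`; `x g` is a row with `x g e1 = x g`, `x g d1 = ([g] - 1) • u`; `p j` is a
row with `p j e1 = p j`, `p j d1 = e0 j - m j • u`.  (Compare `PDG/Ext.lean`, where the same elements occur.)
PROOF of `exists_chd`: `Base.one` gives `u`; `Base.lift` (`PDF.Alpha`) gives `x g` and `p j`: `eps m (([g] - 1) • u) = 0`,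
`eps m (e0 j - m j • u) = m j - m j = 0` (`Base.me0`, `eps_sub`, `eps_smul`, `eps_zsmul`), `e0 j ᵥ* e0 = e0 j`.
PROOF of `ch_crs`: `x (g h) - x g - [g] • x h` is fixed by `e1` and killed by `d1`
(`(g h - 1) u - (g - 1) u - g (h - 1) u = 0`), so it is `y ᵥ* d2` (`Half.ex1`), and
`∑ j, ρ ((y ᵥ* d2) j) * ζ j = ∑ l, ρ (y l) * (∑ j, ρ (d2 l j) * ζ j) = 0`.
PROOF of `ch_formula`.  For a row `c` let `w = c ᵥ* d1`, `b c = ∑ j, m j • w j ∈ ℤ[G]`; `aug (b c) = eps m w = 0`
(`Base.md1`, `eps_vecMul`).  Let `X : ℤ[G] →+ rows` be the additive extension `gext x` of `x`; `X a ᵥ* e1 = X a`,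
`X a ᵥ* d1 = (a - single 1 (aug a)) • u` (see `hXe1`, `hXd1` in `PDG/Ext.lean`).  For `c = e1 i`: `w = (e1 * d1) i = d1 i`, and
`c - X (b c) - ∑ j, w j • p j` is fixed by `e1` and killed by `d1`
(`c ᵥ* d1 = w = w ᵥ* e0 = ∑ j, w j • e0 j`; `(∑ j, w j • p j) ᵥ* d1 = w - (b c) • u`; `X (b c) ᵥ* d1 = (b c) • u`), so it is
`y ᵥ* d2` and its product with `ζ` (after `ρ`) vanishes.  Its product with `ζ` is
`ζ i - gext f (b) - ∑ j, ρ (w j) * ∑ l, ρ (p j l) * ζ l` where `f g = ∑ j, ρ (x g j) * ζ j`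
(`∑ j, ρ (e1 i j) * ζ j = ζ i` by `h1`; `∑ j, ρ (X a j) * ζ j = gext f a` by additivity).
PROOF of `ch_cob`: in `ch_formula` `f g = (ρ [g] - 1) * l`, so `gext f a = (ρ a - ρ (single 1 (aug a))) * l`, which for
`a = ∑ j, m j • d1 i j` (`aug a = eps m (d1 i) = 0`) is `∑ j, ρ (d1 i j) * (m j • l)`.
PROOF of `ch_ext`.  For rows `c` let `Φ c = gext f (b c) + ∑ j, ρ (w j) * μ j`, with `w = c ᵥ* d1`, `b c = ∑ j, m j • w j`.
`Φ` is additive, and `Φ ([h] • c) = ρ [h] * Φ c`: for `a` with `aug a = 0`,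
`gext f ([h] a) = ρ [h] * gext f a + aug a • f h = ρ [h] * gext f a` (for all `a` by
`MonoidAlgebra.induction_linear`).  So `Φ (a • c) = ρ a * Φ c` for all `a ∈ ℤ[G]`, and
`Φ c = ∑ i, ρ (c i) * Φ (Pi.single i 1) = ∑ i, ρ (c i) * ζ i` where `ζ i = Φ (Pi.single i 1)` is the column in the statement
(`(Pi.single i 1) ᵥ* d1 = d1 i`).  For `c = d2 l`: `w = (d2 * d1) l = 0`, `Φ c = 0`.  For `c = e1 i`: `w = d1 i`, `Φ c = ζ i`.
-/

set_option autoImplicit false

namespace Pool.Agent.PDH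

open Pool.Agent.PDF Matrix

variable {G : Type} [Group G] {n0 n1 n2 : Type} [Fintype n0] [Fintype n1] [Fintype n2]
  {e0 : Matrix n0 n0 (MonoidAlgebra ℤ G)} {e1 : Matrix n1 n1 (MonoidAlgebra ℤ G)}
  {d1 : Matrix n1 n0 (MonoidAlgebra ℤ G)} {d2 : Matrix n2 n1 (MonoidAlgebra ℤ G)} {m : n0 → ℤ}
  {u : n0 → MonoidAlgebra ℤ G} {x : G → n1 → MonoidAlgebra ℤ G}
  {p : n0 → n1 → MonoidAlgebra ℤ G}

/-- the value of a row on a column -/
private noncomputable def chPr {R : Type} [Ring R] (ρ : MonoidAlgebra ℤ G →+* R) (ζ : n1 → R) :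
    (n1 → MonoidAlgebra ℤ G) →+ R where
  toFun c := ∑ j, ρ (c j) * ζ j
  map_zero' := by simp
  map_add' := by
    intro c c'
    simp [add_mul, Finset.sum_add_distrib]

private theorem chPr_apply {R : Type} [Ring R] (ρ : MonoidAlgebra ℤ G →+* R) (ζ : n1 → R)
    (c : n1 → MonoidAlgebra ℤ G) : chPr ρ ζ c = ∑ j, ρ (c j) * ζ j := rfl

private theorem chPr_smul {R : Type} [Ring R] (ρ : MonoidAlgebra ℤ G →+* R) (ζ : n1 → R)
    (a : MonoidAlgebra ℤ G) (c : n1 → MonoidAlgebra ℤ G) :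
    chPr ρ ζ (a • c) = ρ a * chPr ρ ζ c := by
  simp only [chPr_apply, Pi.smul_apply, smul_eq_mul, map_mul, mul_assoc, Finset.mul_sum]

private theorem chPr_vecMul {R : Type} [Ring R] (ρ : MonoidAlgebra ℤ G →+* R) (ζ : n1 → R)
    (h2 : ∀ l, ∑ j, ρ (d2 l j) * ζ j = 0) (y : n2 → MonoidAlgebra ℤ G) :
    chPr ρ ζ (y ᵥ* d2) = 0 := by
  have h1 : y ᵥ* d2 = ∑ l, y l • d2 l := by
    funext j
    simp [Matrix.vecMul, dotProduct, Finset.sum_apply]
  rw [h1, map_sum]
  refine Finset.sum_eq_zero fun l _ => ?_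
  rw [chPr_smul, chPr_apply, h2, mul_zero]

private theorem row_e (A : Matrix n0 n0 (MonoidAlgebra ℤ G)) (h : A * A = A) (j : n0) :
    (A j) ᵥ* A = A j := by
  have := congrFun h j
  funext i
  exact congrFun this i

private theorem chPr_half (h : Half e0 e1 d1 d2 m) {R : Type} [Ring R]
    (ρ : MonoidAlgebra ℤ G →+* R) (ζ : n1 → R) (h2 : ∀ l, ∑ j, ρ (d2 l j) * ζ j = 0)
    (c : n1 → MonoidAlgebra ℤ G) (hc1 : c ᵥ* e1 = c) (hc2 : c ᵥ* d1 = 0) :
    chPr ρ ζ c = 0 := by
  obtain ⟨y, rfl⟩ := h.ex1 c hc1 hc2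
  exact chPr_vecMul ρ ζ h2 y

theorem exists_chd (h : Base e0 e1 d1 m) : ∃ u x p, ChD e0 e1 d1 m u x p := by
  obtain ⟨u, hu0, hu1⟩ := h.one
  have hx : ∀ g : G, ∃ x : n1 → MonoidAlgebra ℤ G, x ᵥ* e1 = x ∧
      x ᵥ* d1 = (MonoidAlgebra.single g (1 : ℤ) - 1) • u := by
    intro g
    apply h.lift
    · rw [Matrix.smul_vecMul, hu0]
    · rw [eps_smul, map_sub, aug_single, map_one, sub_self, zero_mul]
  choose x hx1 hx2 using hx
  have hp : ∀ j : n0, ∃ p : n1 → MonoidAlgebra ℤ G, p ᵥ* e1 = p ∧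
      p ᵥ* d1 = e0 j - m j • u := by
    intro j
    apply h.lift
    · rw [Matrix.sub_vecMul, Matrix.smul_vecMul, hu0, row_e e0 h.e0e0]
    · rw [eps_sub, h.me0, eps_zsmul, hu1, mul_one, sub_self]
  choose p hp1 hp2 using hp
  exact ⟨u, x, p, hu0, hu1, hx1, hx2, hp1, hp2⟩

theorem ch_crs (h : Half e0 e1 d1 d2 m) (hd : ChD e0 e1 d1 m u x p) {R : Type} [Ring R]
    (ρ : MonoidAlgebra ℤ G →+* R) (ζ : n1 → R) (h2 : ∀ l, ∑ j, ρ (d2 l j) * ζ j = 0) (g g' : G) :
    ∑ j, ρ (x (g * g') j) * ζ j =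
      ∑ j, ρ (x g j) * ζ j + ρ (MonoidAlgebra.single g 1) * ∑ j, ρ (x g' j) * ζ j := by
  have h1 := chPr_half h ρ ζ h2
    (x (g * g') - x g - (MonoidAlgebra.single g 1 : MonoidAlgebra ℤ G) • x g')
    (by rw [Matrix.sub_vecMul, Matrix.sub_vecMul, Matrix.smul_vecMul, hd.x1, hd.x1, hd.x1])
    (by
      rw [Matrix.sub_vecMul, Matrix.sub_vecMul, Matrix.smul_vecMul, hd.x2, hd.x2, hd.x2,
        smul_smul, ← sub_smul, ← sub_smul]
      have : (MonoidAlgebra.single (g * g') 1 : MonoidAlgebra ℤ G) - 1 -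
          (MonoidAlgebra.single g 1 - 1) -
          MonoidAlgebra.single g 1 * (MonoidAlgebra.single g' 1 - 1) = 0 := by
        rw [mul_sub, MonoidAlgebra.single_mul_single, mul_one, mul_one]
        abel
      rw [this, zero_smul])
  rw [map_sub, map_sub, chPr_smul, sub_sub, sub_eq_zero] at h1
  exact h1

theorem ch_formula (h : Half e0 e1 d1 d2 m) (hd : ChD e0 e1 d1 m u x p) {R : Type} [Ring R]
    (ρ : MonoidAlgebra ℤ G →+* R) (ζ : n1 → R) (h1 : ∀ i, ∑ j, ρ (e1 i j) * ζ j = ζ i)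
    (h2 : ∀ l, ∑ j, ρ (d2 l j) * ζ j = 0) (i : n1) :
    ζ i = gext (fun g => ∑ j, ρ (x g j) * ζ j) (∑ j, m j • d1 i j) +
      ∑ j, ρ (d1 i j) * ∑ l, ρ (p j l) * ζ l := by
  classical
  let X : MonoidAlgebra ℤ G →+ (n1 → MonoidAlgebra ℤ G) := gext x
  have hXs : ∀ g n, X (MonoidAlgebra.single g n) = n • x g := gext_single x
  have hXe1 : ∀ a, X a ᵥ* e1 = X a := by
    intro a
    induction a using MonoidAlgebra.induction_linear with
    | zero => rw [map_zero, Matrix.zero_vecMul]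
    | add a b ha hb => rw [map_add, Matrix.add_vecMul, ha, hb]
    | single g n => rw [hXs, Matrix.smul_vecMul, hd.x1]
  have hXd1 : ∀ a, X a ᵥ* d1 = (a - MonoidAlgebra.single 1 (aug a)) • u := by
    intro a
    induction a using MonoidAlgebra.induction_linear with
    | zero => rw [map_zero, Matrix.zero_vecMul, map_zero, MonoidAlgebra.single_zero, sub_zero,
        zero_smul]
    | add a b ha hb =>
      rw [map_add, Matrix.add_vecMul, ha, hb, map_add, MonoidAlgebra.single_add, ← add_smul]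
      congr 1
      abel
    | single g n =>
      rw [hXs, Matrix.smul_vecMul, hd.x2, aug_single, ← smul_assoc]
      congr 1
      rw [smul_sub, MonoidAlgebra.one_def]
      simp
  have hXp : ∀ a, chPr ρ ζ (X a) = gext (fun g => ∑ j, ρ (x g j) * ζ j) a := by
    intro a
    induction a using MonoidAlgebra.induction_linear with
    | zero => rw [map_zero, map_zero, map_zero]
    | add a b ha hb => rw [map_add, map_add, map_add, ha, hb]
    | single g n => rw [hXs, gext_single, map_zsmul, chPr_apply]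
  set b : MonoidAlgebra ℤ G := ∑ j, m j • d1 i j with hb
  have hb_aug : aug b = 0 := by
    have h3 : aug b = eps m (d1 i) := by
      rw [hb]
      simp only [eps, map_sum, map_zsmul, smul_eq_mul]
      exact Finset.sum_congr rfl fun j _ => mul_comm _ _
    rw [h3, h.md1]
  have hw : e1 i ᵥ* d1 = d1 i := by
    have h3 := congrFun h.e1d1 i
    funext j
    exact congrFun h3 j
  have hwe : d1 i = ∑ j, d1 i j • e0 j := by
    have h3 := congrFun h.d1e0 i
    funext j
    have h4 := congrFun h3 j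
    rw [Finset.sum_apply]
    exact h4.symm
  have h0 := chPr_half h ρ ζ h2 (e1 i - X b - ∑ j, d1 i j • p j)
    (by
      rw [Matrix.sub_vecMul, Matrix.sub_vecMul, hXe1, row_e e1 h.e1e1, Matrix.sum_vecMul]
      congr 1
      refine Finset.sum_congr rfl fun j _ => ?_
      rw [Matrix.smul_vecMul, hd.p1])
    (by
      rw [Matrix.sub_vecMul, Matrix.sub_vecMul, hXd1, hb_aug, MonoidAlgebra.single_zero,
        sub_zero, hw, Matrix.sum_vecMul]
      have h3 : ∑ j, (d1 i j • p j) ᵥ* d1 = d1 i - b • u := by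
        have h4 : ∀ j, (d1 i j • p j) ᵥ* d1 = d1 i j • e0 j - (m j • d1 i j) • u := by
          intro j
          rw [Matrix.smul_vecMul, hd.p2, smul_sub, smul_assoc (m j) (d1 i j) u, smul_comm]
        simp only [h4]
        rw [Finset.sum_sub_distrib, ← hwe, ← Finset.sum_smul]
      rw [h3]
      abel)
  have h5 : chPr ρ ζ (∑ j, d1 i j • p j) = ∑ j, ρ (d1 i j) * ∑ l, ρ (p j l) * ζ l := by
    rw [map_sum]
    refine Finset.sum_congr rfl fun j _ => ?_
    rw [chPr_smul, chPr_apply]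
  rw [map_sub, map_sub, hXp, h5, sub_sub, sub_eq_zero, chPr_apply, h1] at h0
  exact h0

theorem ch_cob (h : Half e0 e1 d1 d2 m) (hd : ChD e0 e1 d1 m u x p) {R : Type} [Ring R]
    (ρ : MonoidAlgebra ℤ G →+* R) (ζ : n1 → R) (h1 : ∀ i, ∑ j, ρ (e1 i j) * ζ j = ζ i)
    (h2 : ∀ l, ∑ j, ρ (d2 l j) * ζ j = 0) (l : R)
    (hl : ∀ g, ∑ j, ρ (x g j) * ζ j = (ρ (MonoidAlgebra.single g 1) - 1) * l) (i : n1) :
    ζ i = ∑ j, ρ (d1 i j) * (m j • l + ∑ i', ρ (p j i') * ζ i') := by
  have h3 := ch_formula h hd ρ ζ h1 h2 i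
  have h4 : ∀ a : MonoidAlgebra ℤ G, gext (fun g => ∑ j, ρ (x g j) * ζ j) a =
      (ρ a - ρ (MonoidAlgebra.single 1 (aug a))) * l := by
    intro a
    induction a using MonoidAlgebra.induction_linear with
    | zero => simp
    | add a b ha hb =>
      rw [map_add, ha, hb, map_add, map_add, MonoidAlgebra.single_add, map_add, ← add_mul]
      congr 1
      abel
    | single g n =>
      rw [gext_single, hl, aug_single]
      have h5 : (MonoidAlgebra.single g n : MonoidAlgebra ℤ G) =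
          n • MonoidAlgebra.single g 1 := by simp
      have h6 : (MonoidAlgebra.single (1 : G) n : MonoidAlgebra ℤ G) = n • 1 := by
        rw [MonoidAlgebra.one_def]
        simp
      rw [h5, h6, map_zsmul, map_zsmul, map_one, ← smul_sub, smul_mul_assoc]
  have hb_aug : aug (∑ j, m j • d1 i j) = 0 := by
    have h3 : aug (∑ j, m j • d1 i j) = eps m (d1 i) := by
      simp only [eps, map_sum, map_zsmul, smul_eq_mul]
      exact Finset.sum_congr rfl fun j _ => mul_comm _ _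
    rw [h3, h.md1]
  rw [h4, hb_aug, MonoidAlgebra.single_zero, map_zero, sub_zero, map_sum, Finset.sum_mul] at h3
  rw [h3, ← Finset.sum_add_distrib]
  refine Finset.sum_congr rfl fun j _ => ?_
  rw [mul_add, map_zsmul, smul_mul_assoc, mul_smul_comm]

theorem ch_ext (h : Half e0 e1 d1 d2 m) {R : Type} [Ring R]
    (ρ : MonoidAlgebra ℤ G →+* R) (f : G → R)
    (hf : ∀ g g', f (g * g') = f g + ρ (MonoidAlgebra.single g 1) * f g') (μ : n0 → R) :
    (∀ i, ∑ j, ρ (e1 i j) * (gext f (∑ j', m j' • d1 j j') + ∑ j', ρ (d1 j j') * μ j') =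
      gext f (∑ j', m j' • d1 i j') + ∑ j', ρ (d1 i j') * μ j') ∧
    ∀ l, ∑ j, ρ (d2 l j) * (gext f (∑ j', m j' • d1 j j') + ∑ j', ρ (d1 j j') * μ j') = 0 := by
  classical
  let b : (n0 → MonoidAlgebra ℤ G) →+ MonoidAlgebra ℤ G :=
    { toFun := fun w => ∑ j, m j • w j
      map_zero' := by simp
      map_add' := by
        intro w w'
        simp [smul_add, Finset.sum_add_distrib] }
  have hb : ∀ w, b w = ∑ j, m j • w j := fun w => rfl
  have hb_smul : ∀ a w, b (a • w) = a * b w := by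
    intro a w
    simp only [hb, Pi.smul_apply, smul_eq_mul, Finset.mul_sum, mul_smul_comm]
  have hb_aug : ∀ v : n1 → MonoidAlgebra ℤ G, aug (b (v ᵥ* d1)) = 0 := by
    intro v
    have h1 : aug (b (v ᵥ* d1)) = eps m (v ᵥ* d1) := by
      simp only [hb, eps, map_sum, map_zsmul, smul_eq_mul]
      exact Finset.sum_congr rfl fun j _ => mul_comm _ _
    rw [h1, eps_vecMul]
    exact Finset.sum_eq_zero fun i _ => by rw [h.md1, mul_zero]
  have hgm : ∀ (g : G) (a : MonoidAlgebra ℤ G), gext f (MonoidAlgebra.single g 1 * a) =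
      ρ (MonoidAlgebra.single g 1) * gext f a + aug a • f g := by
    intro g a
    induction a using MonoidAlgebra.induction_linear with
    | zero => simp
    | add a b ha hb =>
      rw [mul_add, map_add, ha, hb, map_add, map_add, mul_add, add_smul]
      abel
    | single j n =>
      rw [MonoidAlgebra.single_mul_single, one_mul, gext_single, gext_single, hf, aug_single,
        smul_add, mul_smul_comm]
      abel
  let Φ : (n1 → MonoidAlgebra ℤ G) →+ R :=
    { toFun := fun c => gext f (b (c ᵥ* d1)) + ∑ j, ρ ((c ᵥ* d1) j) * μ j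
      map_zero' := by simp
      map_add' := by
        intro c c'
        rw [Matrix.add_vecMul, map_add, map_add]
        simp only [Pi.add_apply, map_add, add_mul, Finset.sum_add_distrib]
        abel }
  have hΦ : ∀ c, Φ c = gext f (b (c ᵥ* d1)) + ∑ j, ρ ((c ᵥ* d1) j) * μ j := fun c => rfl
  have hΦg : ∀ (g : G) (c : n1 → MonoidAlgebra ℤ G),
      Φ ((MonoidAlgebra.single g 1 : MonoidAlgebra ℤ G) • c) =
        ρ (MonoidAlgebra.single g 1) * Φ c := by
    intro g c
    rw [hΦ, hΦ, Matrix.smul_vecMul, hb_smul, hgm, hb_aug, zero_smul, add_zero, mul_add,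
      Finset.mul_sum]
    congr 1
    refine Finset.sum_congr rfl fun j _ => ?_
    rw [Pi.smul_apply, smul_eq_mul, map_mul, mul_assoc]
  have hΦs : ∀ (a : MonoidAlgebra ℤ G) (c : n1 → MonoidAlgebra ℤ G),
      Φ (a • c) = ρ a * Φ c := by
    intro a c
    induction a using MonoidAlgebra.induction_linear with
    | zero => rw [zero_smul, map_zero, map_zero, zero_mul]
    | add a a' ha ha' => rw [add_smul, map_add, ha, ha', map_add, add_mul]
    | single g n =>
      have h5 : (MonoidAlgebra.single g n : MonoidAlgebra ℤ G) =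
          n • MonoidAlgebra.single g 1 := by simp
      rw [h5, smul_assoc, map_zsmul, hΦg, map_zsmul, smul_mul_assoc]
  have hcol : ∀ j, Φ (Pi.single j 1) =
      gext f (∑ j', m j' • d1 j j') + ∑ j', ρ (d1 j j') * μ j' := by
    intro j
    have h1 : (Pi.single j (1 : MonoidAlgebra ℤ G) : n1 → MonoidAlgebra ℤ G) ᵥ* d1 = d1 j := by
      rw [Matrix.single_vecMul]
      simp
      rfl
    rw [hΦ, h1]
    rfl
  have hΦc : ∀ c : n1 → MonoidAlgebra ℤ G, Φ c =
      ∑ j, ρ (c j) * (gext f (∑ j', m j' • d1 j j') + ∑ j', ρ (d1 j j') * μ j') := by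
    intro c
    have hc : c = ∑ i : n1, c i • (Pi.single i (1 : MonoidAlgebra ℤ G) : n1 → MonoidAlgebra ℤ G) := by
      funext j
      simp [Finset.sum_apply, Pi.single_apply]
    conv_lhs => rw [hc]
    rw [map_sum]
    refine Finset.sum_congr rfl fun j _ => ?_
    rw [hΦs, hcol]
  refine ⟨fun i => ?_, fun l => ?_⟩
  · rw [← hΦc, hΦ]
    have hw : e1 i ᵥ* d1 = d1 i := by
      have h3 := congrFun h.e1d1 i
      funext j
      exact congrFun h3 j
    rw [hw]
    rfl
  · rw [← hΦc, hΦ]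
    have hw : d2 l ᵥ* d1 = 0 := by
      have h3 := congrFun h.d2d1 l
      funext j
      exact congrFun h3 j
    rw [hw, map_zero, map_zero]
    simp

end Pool.Agent.PDH
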