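import Pool.Agent.PDG.Defs

/-!
# Blueprint PDH, module Chi (helper41): characters onto the integers

PROOF of `exists_chi`.  `Q = S ⧸ M` is a finitely generated group, commutative (`commutator S ≤ M`), nontrivial and
torsion free.  `Additive Q` is a finitely generated torsion free `ℤ`-module, hence free of finite rank
(`Module.free_of_finite_type_torsion_free'`), of positive rank; take a coordinate of a basis
(`Module.Free.chooseBasis`), a surjection of `Additive Q` onto `ℤ`, and compose it with `mk' M`.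
PROOF of `exists_chi_ser`.  Let `k` be the least index with `N k ≠ ⊤` (it exists as `N n ≠ ⊤`, and `k ≤ n`, `k ≠ 0`);
`N (k-1) = ⊤`, so `comm (k-1)` says `commutator S ≤ N k`, and `tf (k-1)` gives the torsion freeness.  `N n ≤ N k`.
-/

set_option autoImplicit false

namespace Pool.Agent.PDH

theorem exists_chi {S : Type} [Group S] (hfg : Group.FG S) (M : Subgroup S) [M.Normal]
    (hM : M ≠ ⊤) (hc : commutator S ≤ M)
    (ht : ∀ (g : S) (k : ℕ), k ≠ 0 → g ^ k ∈ M → g ∈ M) :
    ∃ χ : S →* Multiplicative ℤ, Function.Surjective χ ∧ M ≤ χ.ker := by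
  classical
  have hcomm : ∀ x y : S ⧸ M, x * y = y * x := by
    intro x y
    induction x using QuotientGroup.induction_on with
    | H a =>
    induction y using QuotientGroup.induction_on with
    | H b =>
    rw [← QuotientGroup.mk_mul, ← QuotientGroup.mk_mul, QuotientGroup.eq]
    apply hc
    have h := Subgroup.commutator_mem_commutator (Subgroup.mem_top (b⁻¹ : S))
      (Subgroup.mem_top (a⁻¹ : S))
    rw [commutatorElement_def] at h
    have e : (a * b)⁻¹ * (b * a) = b⁻¹ * a⁻¹ * b⁻¹⁻¹ * a⁻¹⁻¹ := by group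
    rw [e, commutator_def]
    exact h
  let cg : CommGroup (S ⧸ M) :=
    { (inferInstance : Group (S ⧸ M)) with mul_comm := hcomm }
  have hfgQ : Group.FG (S ⧸ M) := QuotientGroup.fg M
  have hfgA : AddGroup.FG (Additive (S ⧸ M)) := GroupFG.iff_add_fg.1 hfgQ
  have : Module.Finite ℤ (Additive (S ⧸ M)) := Module.Finite.iff_addGroup_fg.2 hfgA
  have htf : IsAddTorsionFree (Additive (S ⧸ M)) := by
    refine ⟨fun k hk x y hxy => ?_⟩
    have h1 : k • (x - y) = 0 := by
      have h0 : k • x = k • y := hxy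
      rw [smul_sub, h0, sub_self]
    have h2 : (Additive.toMul (x - y)) ^ k = 1 := h1
    have h3 : Additive.toMul (x - y) = 1 := by
      generalize Additive.toMul (x - y) = q at h2 ⊢
      induction q using QuotientGroup.induction_on with
      | H a =>
      rw [← QuotientGroup.mk_pow, QuotientGroup.eq_one_iff] at h2
      rw [QuotientGroup.eq_one_iff]
      exact ht a k hk h2
    exact sub_eq_zero.1 h3
  have : Nontrivial (Additive (S ⧸ M)) := by
    have h1 : ∃ a : S, a ∉ M := by
      by_contra hcon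
      push Not at hcon
      exact hM ((Subgroup.eq_top_iff' M).2 hcon)
    obtain ⟨a, ha⟩ := h1
    refine ⟨Additive.ofMul (a : S ⧸ M), 0, ?_⟩
    intro h
    apply ha
    exact (QuotientGroup.eq_one_iff a).1 h
  have : Module.Free ℤ (Additive (S ⧸ M)) := Module.free_of_finite_type_torsion_free'
  let b := Module.Free.chooseBasis ℤ (Additive (S ⧸ M))
  have : Nonempty (Module.Free.ChooseBasisIndex ℤ (Additive (S ⧸ M))) := b.index_nonempty
  let i : Module.Free.ChooseBasisIndex ℤ (Additive (S ⧸ M)) := Classical.arbitrary _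
  refine ⟨{ toFun := fun s => Multiplicative.ofAdd (b.coord i (Additive.ofMul (s : S ⧸ M)))
            map_one' := ?_
            map_mul' := ?_ }, ?_, ?_⟩
  · rw [QuotientGroup.mk_one, ofMul_one, map_zero, ofAdd_zero]
  · intro x y
    rw [QuotientGroup.mk_mul, ofMul_mul, map_add, ofAdd_add]
  · intro m
    obtain ⟨s, hs⟩ := QuotientGroup.mk_surjective (Additive.toMul ((Multiplicative.toAdd m) • b i))
    refine ⟨s, ?_⟩
    show Multiplicative.ofAdd (b.coord i (Additive.ofMul (s : S ⧸ M))) = m
    rw [hs, ofMul_toMul, map_smul]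
    simp
  · intro s hs
    rw [MonoidHom.mem_ker]
    show Multiplicative.ofAdd (b.coord i (Additive.ofMul (s : S ⧸ M))) = 1
    rw [(QuotientGroup.eq_one_iff s).2 hs, ofMul_one, map_zero, ofAdd_zero]

theorem exists_chi_ser {S : Type} [Group S] (hfg : Group.FG S) (N : ℕ → Subgroup S)
    [∀ n, (N n).Normal] (hN : PDG.Ser N) (n : ℕ) (hn : N n ≠ ⊤) :
    ∃ χ : S →* Multiplicative ℤ, Function.Surjective χ ∧ N n ≤ χ.ker := by
  classical
  have hex : ∃ k, N k ≠ ⊤ := ⟨n, hn⟩
  set k := Nat.find hex with hk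
  have hk1 : N k ≠ ⊤ := Nat.find_spec hex
  have hk0 : k ≠ 0 := by
    intro h
    apply hk1
    rw [h]; exact hN.top
  obtain ⟨j, hj⟩ := Nat.exists_eq_succ_of_ne_zero hk0
  have hjt : N j = ⊤ := by
    by_contra hcon
    exact Nat.find_min hex (m := j) (by omega) hcon
  have hkn : k ≤ n := Nat.find_min' hex hn
  have hanti : Antitone N := antitone_nat_of_succ_le hN.anti
  have hc : commutator S ≤ N k := by
    have := hN.comm j
    rw [hjt] at this
    rw [hj, commutator_def]
    exact this
  have ht : ∀ (g : S) (m : ℕ), m ≠ 0 → g ^ m ∈ N k → g ∈ N k := by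
    intro g m hm hg
    rw [hj] at hg ⊢
    exact hN.tf j g m hm (by rw [hjt]; exact Subgroup.mem_top _) hg
  obtain ⟨χ, h1, h2⟩ := exists_chi hfg (N k) hk1 hc ht
  exact ⟨χ, h1, (hanti hkn).trans h2⟩

end Pool.Agent.PDH
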