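import Pool.Agent.PDH.PL
import Pool.Agent.PDH.AcU
import Pool.Agent.PDH.CH
import Pool.Agent.PDG.Main

/-!
# Blueprint PDH, module CoreCol (helper41)

THEOREM.  Let `Half e0 e1 d1 d2 m` describe the beginning of a projective resolution for `G`, `π : G → S` onto, `S` with a
series `N`, and suppose that crossed homomorphisms from `G` to `ℚ[S / N n]` which vanish at `t` are zero.  If a
column `ξ` over `ℤ[S]` is a coboundary modulo every `N n`, then it is a coboundary.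

PROOF.  Let `H` be the class of the solutions `η n` of `d2 η = ξ` modulo `N n` in the ultraproduct, `η'` its image under a
left linear projection on the division ring `K = GU ⊤`.  `ζ = H - η'` is a cocycle, so `ζ = d1 λ`, where
`λ j = m j l + p j ζ` and `x g ζ = (g - 1) l` (`acU`, `ch_cob`).  `(g - 1) l` is congruent to `- x g η' ∈ K` modulo internal
integral elements, so by `pl` `l ≡ l' ∈ K`.  With `λ' j = m j l' - p j η'` the column `η' + d1 λ'` is internal, integral and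
has its entries in `K`, so it comes from `ℤ[S]` (`tpp`), and `d2 (η' + d1 λ') = ξ`.
-/

set_option autoImplicit false

namespace Pool.Agent.PDH

open Pool.Agent.HFT Pool.Agent.PDG Pool.Agent.PDF Matrix

section int

variable {S : Type} [Group S] {N : ℕ → Subgroup S} [∀ n, (N n).Normal] (Y : PDG.Sys N)

theorem Int_zero : Y.Int 0 := ⟨fun _ => 0, by
  have : (fun n => Y.z n 0) = (0 : ∀ n, Y.D n) := by
    funext n
    simp
  rw [this, map_zero]⟩

theorem Int_add {x y : Y.U} (hx : Y.Int x) (hy : Y.Int y) : Y.Int (x + y) := by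
  obtain ⟨u, rfl⟩ := hx
  obtain ⟨v, rfl⟩ := hy
  refine ⟨fun n => u n + v n, ?_⟩
  rw [← map_add]
  congr 1
  funext n
  simp

theorem Int_neg {x : Y.U} (hx : Y.Int x) : Y.Int (-x) := by
  obtain ⟨u, rfl⟩ := hx
  refine ⟨fun n => -u n, ?_⟩
  rw [← map_neg]
  congr 1
  funext n
  simp

theorem Int_sub {x y : Y.U} (hx : Y.Int x) (hy : Y.Int y) : Y.Int (x - y) := by
  rw [sub_eq_add_neg]
  exact Int_add Y hx (Int_neg Y hy)

theorem Int_sum {ι : Type} (s : Finset ι) (f : ι → Y.U) (h : ∀ i ∈ s, Y.Int (f i)) :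
    Y.Int (∑ i ∈ s, f i) := by
  classical
  induction s using Finset.induction_on with
  | empty => rw [Finset.sum_empty]; exact Int_zero Y
  | insert a s ha ih =>
    rw [Finset.sum_insert ha]
    exact Int_add Y (h a (Finset.mem_insert_self a s))
      (ih fun i hi => h i (Finset.mem_insert_of_mem hi))

theorem Int_Z (x : MonoidAlgebra ℤ S) : Y.Int (Y.Z x) :=
  ⟨fun n => mp (QuotientGroup.mk' (N n)) x, Y.Z_apply x⟩

theorem Int_zsmul (m : ℤ) {x : Y.U} (hx : Y.Int x) : Y.Int (m • x) := by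
  have h : m • x = Y.Z (MonoidAlgebra.single 1 m) * x := by
    have h1 : (MonoidAlgebra.single (1 : S) m : MonoidAlgebra ℤ S) = m • 1 := by
      rw [MonoidAlgebra.one_def]
      simp
    rw [h1, map_zsmul, map_one, smul_mul_assoc, one_mul]
  rw [h]
  exact Int_mul Y (Int_Z Y _) hx

theorem Z_A (g : S) : Y.Z (MonoidAlgebra.single g 1) = Y.A g := by
  rw [Z_single, Int.cast_one, map_one, mul_one]

end int

variable {S : Type} [Group S] {N : ℕ → Subgroup S} [∀ n, (N n).Normal]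

theorem core_col {G : Type} [Group G] (hfg : Group.FG G) (π : G →* S)
    (hπ : Function.Surjective π) (hN : PDG.Ser N) (χ : S →* Multiplicative ℤ) (τ : S)
    (hτ : χ τ = Multiplicative.ofAdd 1) (n₁ : ℕ) (hn₁ : N n₁ ≤ χ.ker) (h₁ : S) (hh : h₁ ∈ χ.ker)
    (hh1 : h₁ ≠ 1) (t : G) (n₀ : ℕ) (ht : ∀ n, n₀ ≤ n → π t ∉ N n)
    (hE : ∀ n, n₀ ≤ n → EK ℚ ((QuotientGroup.mk' (N n)).comp π) t)
    {n0 n1 n2 : Type} [Fintype n0] [Fintype n1] [Fintype n2]
    (e0 : Matrix n0 n0 (MonoidAlgebra ℤ G)) (e1 : Matrix n1 n1 (MonoidAlgebra ℤ G))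
    (d1 : Matrix n1 n0 (MonoidAlgebra ℤ G)) (d2 : Matrix n2 n1 (MonoidAlgebra ℤ G))
    (m : n0 → ℤ) (h : Half e0 e1 d1 d2 m) (ξ : n2 → MonoidAlgebra ℤ S)
    (hξ : ∀ n, ∃ η : n1 → MonoidAlgebra ℤ S,
      ∀ i, EqM (N n) (((d2.map (mp π)) *ᵥ η) i) (ξ i)) :
    ∃ y : n1 → MonoidAlgebra ℤ S, (d2.map (mp π)) *ᵥ y = ξ := by
  classical
  obtain ⟨Y⟩ := exists_sys N hN
  choose η₀ hη₀ using hξ
  let q : ∀ n, MonoidAlgebra ℤ S →+* MonoidAlgebra ℤ (S ⧸ N n) := fun n =>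
    mp (QuotientGroup.mk' (N n))
  let ρ : MonoidAlgebra ℤ G →+* Y.U := Y.Z.comp (mp π)
  let ρn : ∀ n, MonoidAlgebra ℤ G →+* Y.D n := fun n => (Y.z n).comp ((q n).comp (mp π))
  have hρ : ∀ a, ρ a = mkU uf Y.D fun n => ρn n a := fun a => rfl
  let η : ∀ n, n1 → MonoidAlgebra ℤ S := fun n => (e1.map (mp π)) *ᵥ η₀ n
  have hη1 : ∀ n i, ∑ j, mp π (e1 i j) * η n j = η n i := by
    intro n i
    have h1 : (e1.map (mp π)) *ᵥ ((e1.map (mp π)) *ᵥ η₀ n) = (e1.map (mp π)) *ᵥ η₀ n := by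
      rw [Matrix.mulVec_mulVec, ← Matrix.map_mul, h.e1e1]
    exact congrFun h1 i
  have hη2 : ∀ n l, q n (∑ j, mp π (d2 l j) * η n j) = q n (ξ l) := by
    intro n l
    have h1 : (d2.map (mp π)) *ᵥ ((e1.map (mp π)) *ᵥ η₀ n) = (d2.map (mp π)) *ᵥ η₀ n := by
      rw [Matrix.mulVec_mulVec, ← Matrix.map_mul, h.d2e1]
    have h2 := congrFun h1 l
    have h3 : ∑ j, mp π (d2 l j) * η n j = ((d2.map (mp π)) *ᵥ η₀ n) l := h2
    rw [h3]
    exact hη₀ n l
  let H : n1 → Y.U := fun j => mkU uf Y.D fun n => Y.z n (q n (η n j))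
  have hHi : ∀ j, Y.Int (H j) := fun j => ⟨fun n => q n (η n j), rfl⟩
  have hsum : ∀ (c : n1 → MonoidAlgebra ℤ G), ∑ j, ρ (c j) * H j =
      mkU uf Y.D fun n => Y.z n (q n (∑ j, mp π (c j) * η n j)) := by
    intro c
    simp only [H, hρ, ← map_mul, ← map_sum]
    congr 1
    funext n
    rw [Finset.sum_apply]
    simp only [Pi.mul_apply, map_sum, map_mul]
    rfl
  have hH1 : ∀ i, ∑ j, ρ (e1 i j) * H j = H i := by
    intro i
    rw [hsum]
    simp only [hη1]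
    rfl
  have hH2 : ∀ l, ∑ j, ρ (d2 l j) * H j = Y.Z (ξ l) := by
    intro l
    rw [hsum]
    simp only [hη2]
    rfl
  -- the projection
  let K : Subfield Y.U := GU Y ⊤
  let incl : K →ₗ[K] Y.U :=
    { toFun := fun x => (x : Y.U)
      map_add' := fun _ _ => rfl
      map_smul' := fun _ _ => rfl }
  obtain ⟨P, hP⟩ := LinearMap.exists_leftInverse_of_injective incl
    (LinearMap.ker_eq_bot.2 (fun a b h => Subtype.ext h))
  have hP' : ∀ x : K, P (x : Y.U) = x := fun x => by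
    have := LinearMap.congr_fun hP x
    exact this
  have hρK : ∀ a, ρ a ∈ K := fun a => Z_mem Y _
  let η' : n1 → Y.U := fun j => (P (H j) : Y.U)
  have hη'K : ∀ j, η' j ∈ K := fun j => (P (H j)).2
  have hPs : ∀ (c : n1 → MonoidAlgebra ℤ G),
      ∑ j, ρ (c j) * η' j = (P (∑ j, ρ (c j) * H j) : Y.U) := by
    intro c
    have h1 : P (∑ j, ρ (c j) * H j) = ∑ j, (⟨ρ (c j), hρK _⟩ : K) * P (H j) := by
      rw [map_sum]
      refine Finset.sum_congr rfl fun j _ => ?_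
      exact P.map_smul (⟨ρ (c j), hρK _⟩ : K) (H j)
    rw [h1]
    push_cast
    rfl
  have hη'1 : ∀ i, ∑ j, ρ (e1 i j) * η' j = η' i := by
    intro i
    rw [hPs, hH1]
  have hη'2 : ∀ l, ∑ j, ρ (d2 l j) * η' j = Y.Z (ξ l) := by
    intro l
    rw [hPs, hH2]
    have := hP' (⟨Y.Z (ξ l), Z_mem Y _⟩ : K)
    exact congrArg Subtype.val this
  -- the difference
  let ζ : n1 → Y.U := fun j => H j - η' j
  have hζ : ∀ (c : n1 → MonoidAlgebra ℤ G),
      ∑ j, ρ (c j) * ζ j = ∑ j, ρ (c j) * H j - ∑ j, ρ (c j) * η' j := by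
    intro c
    rw [← Finset.sum_sub_distrib]
    exact Finset.sum_congr rfl fun j _ => mul_sub _ _ _
  have hζ1 : ∀ i, ∑ j, ρ (e1 i j) * ζ j = ζ i := by
    intro i
    rw [hζ, hH1, hη'1]
  have hζ2 : ∀ l, ∑ j, ρ (d2 l j) * ζ j = 0 := by
    intro l
    rw [hζ, hH2, hη'2, sub_self]
  obtain ⟨u, x, p, hd⟩ := exists_chd h.toBase
  choose w hw hwD using fun j => rep Y ⊤ (η' j) (hη'K j)
  let ζn : ∀ n, n1 → Y.D n := fun n j => Y.z n (q n (η n j)) - w j n
  have hζn : ∀ j, ζ j = mkU uf Y.D fun n => ζn n j := by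
    intro j
    change mkU uf Y.D (fun n => Y.z n (q n (η n j))) - η' j = _
    rw [hw j, ← map_sub]
    rfl
  have hζs : ∀ (c : n1 → MonoidAlgebra ℤ G),
      ∑ j, ρ (c j) * ζ j = mkU uf Y.D fun n => ∑ j, ρn n (c j) * ζn n j := by
    intro c
    simp only [hζn, hρ, ← map_mul, ← map_sum]
    congr 1
    funext n
    rw [Finset.sum_apply]
    rfl
  let y : G → ∀ n, Y.D n := fun g n => ∑ j, ρn n (x g j) * ζn n j
  have htop : ∀ n, (⊤ : Subgroup S).map (QuotientGroup.mk' (N n)) = ⊤ := fun n =>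
    Subgroup.map_top_of_surjective _ (QuotientGroup.mk'_surjective (N n))
  have hzD : ∀ n (a : MonoidAlgebra ℤ (S ⧸ N n)), Y.z n a ∈ PDG.DB (Y.θ n) ⊤ := fun n a =>
    PDG.mem_DB_of_KB (Y.θ n) (PDG.mem_KB_top _)
  have hyD : ∀ g n, y g n ∈ PDG.DB (Y.θ n) ⊤ := by
    intro g n
    refine sum_mem fun j _ => mul_mem (hzD n _) (sub_mem (hzD n _) ?_)
    have := hwD j n
    rwa [htop n] at this
  have hev : ∀ᶠ n in (uf : Filter ℕ), ∀ l, ∑ j, ρn n (d2 l j) * ζn n j = 0 := by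
    rw [Filter.eventually_all]
    intro l
    have h1 := hζ2 l
    rw [hζs, ← map_zero (mkU uf Y.D), mkU_eq_iff] at h1
    exact h1
  have hc : ∀ᶠ n in (uf : Filter ℕ), ∀ g g', y (g * g') n = y g n + Y.a n (π g) * y g' n := by
    filter_upwards [hev] with n hn g g'
    have h1 := ch_crs h hd (ρn n) (ζn n) hn g g'
    have h2 : ρn n (MonoidAlgebra.single g 1) = Y.a n (π g) := by
      change Y.θ n (zq (mp (QuotientGroup.mk' (N n)) (mp π (MonoidAlgebra.single g 1)))) = _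
      rw [mp_single, mp_single, zq_single, Int.cast_one]
      rfl
    rw [h2] at h1
    exact h1
  have hac := acU Y hfg π t n₀ ht hE y hyD hc
  set l : Y.U := (Y.A (π t) - 1)⁻¹ * mkU uf Y.D (y t) with hl
  have hxz : ∀ g, ∑ j, ρ (x g j) * ζ j = (ρ (MonoidAlgebra.single g 1) - 1) * l := by
    intro g
    rw [hζs]
    have h1 := hac g
    have h2 : ρ (MonoidAlgebra.single g 1) = Y.A (π g) := by
      change Y.Z (mp π (MonoidAlgebra.single g 1)) = _
      rw [mp_single, Z_A]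
    rw [h2]
    exact h1
  -- congruence of `(g - 1) l` with elements of `K`
  have hcong : ∀ s : S, ∃ f ∈ GU Y ⊤, Y.Int ((Y.A s - 1) * l - f) := by
    intro s
    obtain ⟨g, rfl⟩ := hπ s
    refine ⟨-∑ j, ρ (x g j) * η' j, neg_mem (sum_mem fun j _ => mul_mem (hρK _) (hη'K j)), ?_⟩
    have h2 : ρ (MonoidAlgebra.single g 1) = Y.A (π g) := by
      change Y.Z (mp π (MonoidAlgebra.single g 1)) = _
      rw [mp_single, Z_A]
    have h3 : (Y.A (π g) - 1) * l - -∑ j, ρ (x g j) * η' j = ∑ j, ρ (x g j) * H j := by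
      rw [← h2, ← hxz, hζ, sub_neg_eq_add, sub_add_cancel]
    rw [h3]
    exact Int_sum Y _ _ fun j _ => Int_mul Y (Int_Z Y _) (hHi j)
  obtain ⟨fh, hfh, i1⟩ := hcong h₁
  obtain ⟨ft, hft, i2⟩ := hcong τ
  obtain ⟨l', hl'K, hl'⟩ := pl hN Y χ τ hτ n₁ hn₁ h₁ hh hh1 l fh ft hfh hft i1 i2
  -- the corrected solution
  let lam : n0 → Y.U := fun j => m j • l + ∑ i, ρ (p j i) * ζ i
  let lam' : n0 → Y.U := fun j => m j • l' - ∑ i, ρ (p j i) * η' i
  have hcob := ch_cob h hd ρ ζ hζ1 hζ2 l hxz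
  have hlam : ∀ j, Y.Int (lam j - lam' j) := by
    intro j
    have h1 : lam j - lam' j = m j • (l - l') + ∑ i, ρ (p j i) * H i := by
      change m j • l + ∑ i, ρ (p j i) * ζ i - (m j • l' - ∑ i, ρ (p j i) * η' i) = _
      rw [hζ, smul_sub]
      abel
    rw [h1]
    exact Int_add Y (Int_zsmul Y _ hl')
      (Int_sum Y _ _ fun i _ => Int_mul Y (Int_Z Y _) (hHi i))
  have hlamK : ∀ j, lam' j ∈ K := fun j =>
    sub_mem (zsmul_mem hl'K _) (sum_mem fun i _ => mul_mem (hρK _) (hη'K i))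
  let η'' : n1 → Y.U := fun i => η' i + ∑ j, ρ (d1 i j) * lam' j
  have hη''K : ∀ i, η'' i ∈ K := fun i =>
    add_mem (hη'K i) (sum_mem fun j _ => mul_mem (hρK _) (hlamK j))
  have hη''i : ∀ i, Y.Int (η'' i) := by
    intro i
    have h1 : η'' i = H i - ∑ j, ρ (d1 i j) * (lam j - lam' j) := by
      have h2 : ζ i = ∑ j, ρ (d1 i j) * lam j := hcob i
      have h3 : H i = ζ i + η' i := by
        change H i = H i - η' i + η' i
        rw [sub_add_cancel]
      change η' i + ∑ j, ρ (d1 i j) * lam' j = _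
      rw [h3, h2]
      simp only [mul_sub, Finset.sum_sub_distrib]
      abel
    rw [h1]
    exact Int_sub Y (hHi i) (Int_sum Y _ _ fun j _ => Int_mul Y (Int_Z Y _) (hlam j))
  choose yy hyy using fun i => tpp hN Y (η'' i) (hη''K i) (hη''i i)
  refine ⟨yy, ?_⟩
  funext l₂
  apply Z_injective Y hN
  have h4 : Y.Z (((d2.map (mp π)) *ᵥ yy) l₂) = ∑ i, ρ (d2 l₂ i) * η'' i := by
    simp only [Matrix.mulVec, dotProduct, map_sum, map_mul, Matrix.map_apply, hyy]
    rfl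
  have h5 : ∑ i, ρ (d2 l₂ i) * ∑ j, ρ (d1 i j) * lam' j = 0 := by
    simp only [Finset.mul_sum]
    rw [Finset.sum_comm]
    refine Finset.sum_eq_zero fun j _ => ?_
    have h6 : ∑ i, ρ (d2 l₂ i) * ρ (d1 i j) = 0 := by
      have h7 := congrFun (congrFun h.d2d1 l₂) j
      rw [Matrix.mul_apply] at h7
      simp only [← map_mul, ← map_sum]
      rw [h7]
      simp
    simp only [← mul_assoc]
    rw [← Finset.sum_mul, h6, zero_mul]
  rw [h4]
  have h8 : ∑ i, ρ (d2 l₂ i) * η'' i =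
      ∑ i, ρ (d2 l₂ i) * η' i + ∑ i, ρ (d2 l₂ i) * ∑ j, ρ (d1 i j) * lam' j := by
    rw [← Finset.sum_add_distrib]
    exact Finset.sum_congr rfl fun i _ => mul_add _ _ _
  rw [h8, h5, add_zero, hη'2]

end Pool.Agent.PDH
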