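import Pool.Agent.PDF.Extract
import Pool.Agent.PDF.Alpha

/-!
# Blueprint PDH, module FGm (helper41): PD_3-groups are finitely generated

PROOF of `fg_of_base`.  Take `u` with `u ᵥ* e0 = u`, `eps m u = 1` (`h.one`).  For a row `w` let `b w = ∑ j, m j • w j ∈ ℤ[G]`;
`aug (b w) = eps m w`.  Let `E` be the union of the supports of `b u` and of all `b (d1 i)`, and `G₀ = closure E`.  We show
`G₀ = ⊤`.  Let `P : ℤ[G] →+ (G ⧸ G₀ →₀ ℤ)` be the map on left cosets (`Finsupp.mapDomain` along `QuotientGroup.mk`).  If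
`c ∈ ℤ[G]` has its support in `G₀` then `P (a * c) = aug c • P a` for all `a` (bilinearity: `P (single g 1 * single h 1)
= P (single g 1)` for `h ∈ G₀`).  Let `g ∈ G`.  `([g] - 1) • u` is fixed by `e0` and has `eps` zero, so it is `y ᵥ* d1`
(`Base.ex0`).  Apply `b` and `P`: on the left `P (([g] - 1) * b u) = P ([g] - 1)` as `aug (b u) = 1`; on the right
`b (y ᵥ* d1) = ∑ i, y i * b (d1 i)` and `aug (b (d1 i)) = eps m (d1 i) = 0` (`Base.md1`), so `P` gives `0`.  Hence
`g G₀ = G₀`, `g ∈ G₀`.
-/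

set_option autoImplicit false

namespace Pool.Agent.PDH

open Pool.Agent.PDF Matrix

/-- the combination of the entries of a row -/
noncomputable def fgB {G n : Type*} [Group G] [Fintype n] (m : n → ℤ)
    (w : n → MonoidAlgebra ℤ G) : MonoidAlgebra ℤ G := ∑ j, m j • w j

theorem aug_fgB {G n : Type*} [Group G] [Fintype n] (m : n → ℤ) (w : n → MonoidAlgebra ℤ G) :
    aug (fgB m w) = eps m w := by
  unfold fgB eps
  rw [map_sum]
  refine Finset.sum_congr rfl fun j _ => ?_
  rw [map_zsmul, smul_eq_mul, mul_comm]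

theorem fgB_smul {G n : Type*} [Group G] [Fintype n] (m : n → ℤ) (a : MonoidAlgebra ℤ G)
    (w : n → MonoidAlgebra ℤ G) : fgB m (a • w) = a * fgB m w := by
  unfold fgB
  rw [Finset.mul_sum]
  refine Finset.sum_congr rfl fun j _ => ?_
  rw [Pi.smul_apply, smul_eq_mul, mul_smul_comm]

theorem fgB_vecMul {G n n' : Type*} [Group G] [Fintype n] [Fintype n'] (m : n → ℤ)
    (y : n' → MonoidAlgebra ℤ G) (M : Matrix n' n (MonoidAlgebra ℤ G)) :
    fgB m (y ᵥ* M) = ∑ i, y i * fgB m (M i) := by
  unfold fgB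
  simp only [Matrix.vecMul, dotProduct, Finset.smul_sum, Finset.mul_sum]
  rw [Finset.sum_comm]
  refine Finset.sum_congr rfl fun i _ => Finset.sum_congr rfl fun j _ => ?_
  rw [mul_smul_comm]

open Classical in
/-- the indicator of a subgroup -/
noncomputable def fgInd {G : Type*} [Group G] (G0 : Subgroup G) (g : G) : ℤ :=
  if g ∈ G0 then 1 else 0

theorem fg_single {G : Type*} [Group G] (G0 : Subgroup G) (a : MonoidAlgebra ℤ G) {t : G}
    (ht : t ∈ G0) (r : ℤ) :
    ev (fgInd G0) (a * MonoidAlgebra.single t r) = r * ev (fgInd G0) a := by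
  induction a using MonoidAlgebra.induction_linear with
  | zero => simp
  | add x y hx hy => rw [add_mul, map_add, map_add, hx, hy]; ring
  | single g b =>
    rw [MonoidAlgebra.single_mul_single, ev_single, ev_single]
    have : fgInd G0 (g * t) = fgInd G0 g := by
      unfold fgInd
      rw [Subgroup.mul_mem_cancel_right G0 ht]
    rw [this]; ring

theorem fg_mul {G : Type*} [Group G] (G0 : Subgroup G) (a c : MonoidAlgebra ℤ G)
    (hc : ∀ t, c.coeff t ≠ 0 → t ∈ G0) :
    ev (fgInd G0) (a * c) = aug c * ev (fgInd G0) a := by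
  have h1 : ∑ t ∈ c.coeff.support, MonoidAlgebra.single t (c.coeff t) = c :=
    MonoidAlgebra.sum_coeff_single c
  have h2 : ev (fgInd G0) (a * ∑ t ∈ c.coeff.support, MonoidAlgebra.single t (c.coeff t)) =
      aug (∑ t ∈ c.coeff.support, MonoidAlgebra.single t (c.coeff t)) * ev (fgInd G0) a := by
    rw [Finset.mul_sum, map_sum, map_sum, Finset.sum_mul]
    refine Finset.sum_congr rfl fun t ht => ?_
    rw [fg_single G0 a (hc t (Finsupp.mem_support_iff.1 ht)), aug_single]
  rwa [h1] at h2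

theorem fg_of_base {G : Type} [Group G] {n0 n1 : Type} [Fintype n0] [Fintype n1]
    (e0 : Matrix n0 n0 (MonoidAlgebra ℤ G)) (e1 : Matrix n1 n1 (MonoidAlgebra ℤ G))
    (d1 : Matrix n1 n0 (MonoidAlgebra ℤ G)) (m : n0 → ℤ) (h : Base e0 e1 d1 m) : Group.FG G := by
  classical
  obtain ⟨u, hu, hu1⟩ := h.one
  set E : Finset G := (fgB m u).coeff.support ∪
    Finset.univ.biUnion (fun i => (fgB m (d1 i)).coeff.support) with hE
  set G0 : Subgroup G := Subgroup.closure (E : Set G) with hG0
  have htop : G0 = ⊤ := by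
    rw [Subgroup.eq_top_iff']
    intro g
    set φ := ev (fgInd G0) with hφ
    set a : MonoidAlgebra ℤ G := MonoidAlgebra.single g 1 - 1 with ha
    have hv1 : (a • u) ᵥ* e0 = a • u := by
      rw [Matrix.smul_vecMul, hu]
    have haug : aug a = 0 := by
      rw [ha, map_sub, aug_single, map_one, sub_self]
    have hv2 : eps m (a • u) = 0 := by
      rw [eps_smul, haug, zero_mul]
    obtain ⟨y, hy⟩ := h.ex0 (a • u) hv1 hv2
    have e1 : fgB m (a • u) = a * fgB m u := fgB_smul m a u
    have e2 : fgB m (y ᵥ* d1) = ∑ i, y i * fgB m (d1 i) := fgB_vecMul m y d1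
    have e3 : φ (a * fgB m u) = φ a := by
      rw [hφ, fg_mul G0 a (fgB m u), aug_fgB, hu1, one_mul]
      intro t ht
      apply Subgroup.subset_closure
      rw [hE, Finset.coe_union]
      exact Or.inl (Finset.mem_coe.2 (Finsupp.mem_support_iff.2 ht))
    have e4 : φ (∑ i, y i * fgB m (d1 i)) = 0 := by
      rw [map_sum]
      apply Finset.sum_eq_zero
      intro i _
      rw [hφ, fg_mul G0 (y i) (fgB m (d1 i)), aug_fgB, h.md1, zero_mul]
      intro t ht
      apply Subgroup.subset_closure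
      rw [hE, Finset.coe_union]
      refine Or.inr (Finset.mem_coe.2 (Finset.mem_biUnion.2 ⟨i, Finset.mem_univ _, ?_⟩))
      exact Finsupp.mem_support_iff.2 ht
    have e5 : φ a = 0 := by
      rw [← e3, ← e1, ← hy, e2, e4]
    have e6 : φ a = fgInd G0 g - 1 := by
      rw [hφ, ha, map_sub, ev_single, MonoidAlgebra.one_def, ev_single]
      have : fgInd G0 1 = 1 := by unfold fgInd; rw [if_pos G0.one_mem]
      rw [this]; ring
    by_contra hg
    have e7 : fgInd G0 g = 0 := by unfold fgInd; rw [if_neg hg]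
    rw [e5, e7] at e6
    norm_num at e6
  rw [Group.fg_def]
  exact ⟨E, htop⟩

theorem pd3_fg (G : Type) [Group G] (hG : IsPD3 G) : Group.FG G := by
  obtain ⟨n0, n1, n2, n3, e0, e1, e2, e3, d1, d2, d3, m, m', s, h, h'⟩ := extract G hG
  exact fg_of_base e0 e1 d1 m h.toBase

end Pool.Agent.PDH
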