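import Pool.Agent.PDH.Fld

/-!
# PDH: the division ring of right fractions (helper41; the proof is that of `PDG.OreEx` by helper40,
over an arbitrary field)
-/

set_option autoImplicit false

namespace Pool.Agent.PDH

open nonZeroDivisors

section inv

variable {kk : Type} [Field kk] {Γ : Type} [Group Γ]

/-- inversion of the group elements, as an additive map -/
noncomputable def qinv : MonoidAlgebra kk Γ →+ MonoidAlgebra kk Γ :=
  (Finsupp.liftAddHom fun g => (MonoidAlgebra.singleAddHom (R := kk) (g⁻¹))).comp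
    (MonoidAlgebra.coeffAddEquiv (R := kk) (M := Γ)).toAddMonoidHom

@[simp] theorem qinv_single (g : Γ) (a : kk) :
    qinv (MonoidAlgebra.single g a) = MonoidAlgebra.single g⁻¹ a := by
  simp [qinv]

theorem qinv_mul (x y : MonoidAlgebra kk Γ) : qinv (x * y) = qinv y * qinv x := by
  induction x using MonoidAlgebra.induction_linear with
  | zero => simp
  | add x x' hx hx' => simp [add_mul, mul_add, hx, hx']
  | single g a =>
    induction y using MonoidAlgebra.induction_linear with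
    | zero => simp
    | add y y' hy hy' => simp [add_mul, mul_add, hy, hy']
    | single h b =>
      simp only [MonoidAlgebra.single_mul_single, qinv_single, mul_inv_rev]
      congr 1
      ring

theorem qinv_qinv (x : MonoidAlgebra kk Γ) : qinv (qinv x) = x := by
  induction x using MonoidAlgebra.induction_linear with
  | zero => simp
  | add x x' hx hx' => simp [hx, hx']
  | single g a => simp

theorem qinv_eq_zero {x : MonoidAlgebra kk Γ} (h : qinv x = 0) : x = 0 := by
  have := qinv_qinv x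
  rw [h, map_zero] at this
  exact this.symm

end inv

section ore

variable {kk : Type} [Field kk] {Γ : Type} [Group Γ]

theorem rore {B : Subgroup Γ} (h : SolvB kk B) {a b : MonoidAlgebra kk Γ} (ha : a ∈ KB B)
    (hb : b ∈ KB B) :
    ∃ u ∈ KB B, ∃ v ∈ KB B, (u ≠ 0 ∨ v ≠ 0) ∧ a * u = b * v := by
  obtain ⟨v, hv0, hv, hA⟩ := h 1 2 (by norm_num) (!![a, -b]) (by
    intro i j
    fin_cases i
    fin_cases j
    · simpa using ha
    · simpa using hb)
  refine ⟨v 0, hv 0, v 1, hv 1, ?_, ?_⟩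
  · by_contra hc
    push Not at hc
    apply hv0
    funext j
    fin_cases j
    · exact hc.1
    · exact hc.2
  · have := congrFun hA 0
    simp [Matrix.mulVec, dotProduct, Fin.sum_univ_two] at this
    rw [← sub_eq_add_neg, sub_eq_zero] at this
    exact this

theorem rore' (hz : NoZeroDivisors (MonoidAlgebra kk Γ)) {B : Subgroup Γ} (h : SolvB kk B)
    {a b : MonoidAlgebra kk Γ} (ha : a ∈ KB B) (hb : b ∈ KB B) (hb0 : b ≠ 0) :
    ∃ u ∈ KB B, ∃ v ∈ KB B, u ≠ 0 ∧ (a ≠ 0 → v ≠ 0) ∧ a * u = b * v := by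
  obtain ⟨u, hu, v, hv, huv, he⟩ := rore h ha hb
  have hu0 : u ≠ 0 := by
    intro h0
    rw [h0, mul_zero] at he
    rcases mul_eq_zero.1 he.symm with h1 | h1
    · exact hb0 h1
    · rcases huv with h2 | h2
      · exact h2 h0
      · exact h2 h1
  refine ⟨u, hu, v, hv, hu0, ?_, he⟩
  intro ha0 hv0
  rw [hv0, mul_zero] at he
  rcases mul_eq_zero.1 he with h1 | h1
  · exact ha0 h1
  · exact hu0 h1

end ore

theorem mem_KB_top {kk : Type} [Field kk] {Γ : Type} [Group Γ] (x : MonoidAlgebra kk Γ) : x ∈ KB (⊤ : Subgroup Γ) :=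
  mem_KB.2 fun _ _ => Subgroup.mem_top _

theorem oreEmb_of {kk : Type} [Field kk] {Γ : Type} [Group Γ] (hz : NoZeroDivisors (MonoidAlgebra kk Γ))
    (h : ∀ B : Subgroup Γ, SolvB kk B) {D : Type} [DivisionRing D] (θ : MonoidAlgebra kk Γ →+* D)
    (hθ : Function.Injective θ) : OreEmb θ := by
  refine ⟨hθ, ?_⟩
  have hne : ∀ {x : MonoidAlgebra kk Γ}, x ≠ 0 → θ x ≠ 0 := fun {x} hx h0 =>
    hx (hθ (by rw [h0, map_zero]))
  have hne' : ∀ {x : MonoidAlgebra kk Γ}, θ x ≠ 0 → x ≠ 0 := fun {x} hx h0 =>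
    hx (by rw [h0, map_zero])
  intro B x hx
  unfold DB at hx
  induction hx using Subfield.closure_induction with
  | mem x hx =>
    obtain ⟨y, hy, rfl⟩ := hx
    exact ⟨y, hy, 1, one_mem _, by simp, by simp⟩
  | one => exact ⟨1, one_mem _, 1, one_mem _, by simp, by simp⟩
  | add x y _ _ hx hy =>
    obtain ⟨a, ha, s, hs, hs0, h1⟩ := hx
    obtain ⟨b, hb, t, ht, ht0, h2⟩ := hy
    obtain ⟨u, hu, v, hv, hu0, hv0, he⟩ := rore' hz (h B) hs ht (hne' ht0)
    refine ⟨a * u + b * v, add_mem (mul_mem ha hu) (mul_mem hb hv), s * u, mul_mem hs hu, ?_, ?_⟩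
    · rw [map_mul]
      exact mul_ne_zero hs0 (hne hu0)
    · rw [add_mul]
      conv_lhs => rw [show y * θ (s * u) = y * θ (t * v) by rw [he]]
      rw [map_mul, map_mul, ← mul_assoc, ← mul_assoc, h1, h2, map_add, map_mul, map_mul]
  | neg x _ hx =>
    obtain ⟨a, ha, s, hs, hs0, h1⟩ := hx
    exact ⟨-a, neg_mem ha, s, hs, hs0, by rw [neg_mul, h1, map_neg]⟩
  | inv x _ hx =>
    obtain ⟨a, ha, s, hs, hs0, h1⟩ := hx
    by_cases hx0 : x = 0
    · exact ⟨0, zero_mem _, 1, one_mem _, by simp, by simp [hx0]⟩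
    · refine ⟨s, hs, a, ha, ?_, ?_⟩
      · rw [← h1]
        exact mul_ne_zero hx0 hs0
      · rw [← h1, ← mul_assoc, inv_mul_cancel₀ hx0, one_mul]
  | mul x y _ _ hx hy =>
    obtain ⟨a, ha, s, hs, hs0, h1⟩ := hx
    obtain ⟨b, hb, t, ht, ht0, h2⟩ := hy
    by_cases hb0 : b = 0
    · have hy0 : y = 0 := by
        rw [hb0, map_zero] at h2
        rcases mul_eq_zero.1 h2 with h3 | h3
        · exact h3
        · exact absurd h3 ht0
      exact ⟨0, zero_mem _, 1, one_mem _, by simp, by simp [hy0]⟩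
    · obtain ⟨u, hu, v, hv, hu0, hv0, he⟩ := rore' hz (h B) hb hs (hne' hs0)
      refine ⟨a * v, mul_mem ha hv, t * u, mul_mem ht hu, ?_, ?_⟩
      · rw [map_mul]
        exact mul_ne_zero ht0 (hne hu0)
      · rw [map_mul, mul_assoc, ← mul_assoc y, h2, ← map_mul, he, map_mul, ← mul_assoc, h1,
          map_mul]

theorem exists_oreEmb (kk : Type) [Field kk] (Γ : Type) [Group Γ] (hz : NoZeroDivisors (MonoidAlgebra kk Γ))
    (h : ∀ B : Subgroup Γ, SolvB kk B) :
    ∃ (D : Type) (_ : DivisionRing D) (θ : MonoidAlgebra kk Γ →+* D), OreEmb θ := by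
  have := hz
  have hore : Nonempty (OreLocalization.OreSet (MonoidAlgebra kk Γ)⁰) := by
    rw [OreLocalization.nonempty_oreSet_iff_of_noZeroDivisors]
    intro r s
    have hs0 : (s : MonoidAlgebra kk Γ) ≠ 0 := nonZeroDivisors.ne_zero s.2
    obtain ⟨u, -, v, -, hu0, -, he⟩ := rore' hz (h ⊤) (mem_KB_top (qinv r))
      (mem_KB_top (qinv (s : MonoidAlgebra kk Γ))) (fun h0 => hs0 (qinv_eq_zero h0))
    refine ⟨qinv v, ⟨qinv u, mem_nonZeroDivisors_of_ne_zero fun h0 => hu0 (qinv_eq_zero h0)⟩, ?_⟩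
    have := congrArg qinv he
    rw [qinv_mul, qinv_mul, qinv_qinv, qinv_qinv] at this
    exact this
  obtain ⟨ho⟩ := hore
  let _ := ho
  refine ⟨OreLocalization (MonoidAlgebra kk Γ)⁰ (MonoidAlgebra kk Γ), inferInstance,
    OreLocalization.numeratorRingHom, ?_⟩
  apply oreEmb_of hz h
  exact OreLocalization.numeratorHom_inj (fun x hx => hx.1)

end Pool.Agent.PDH
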