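import Pool.Agent.PDH.Nak
import Pool.Agent.PDH.Ore
import Pool.Agent.PDH.Solv
import Pool.Agent.PDG.Uniq

/-!
# Blueprint PDH, module Tow (helper41): towers with torsion free abelian factors

PROOF of `serTo_of_ser`: the fields of `Ser`.  `serTo_le`: clear.
`uniq_serTo`: the proof of `PDG.uniq_ser` (file `PDG/Uniq.lean`) for a tower of finite length: induction on `m`.
`ore_serTo`: as `PDG.exists_sys` (file `PDG/SysEx.lean`): `derivedSeries S n ≤ N n` for `n ≤ m`, so the derived series of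
`S ⧸ N m` vanishes at `m`; `solvB_all`, `uniq_serTo` and `exists_oreEmb`.
`ek_serTo`: induction on `m`, from `n`; `nak` applied to `ψ : S ⧸ N (m+1) → S ⧸ N m` (`QuotientGroup.map`), whose kernel is
commutative and torsion free by `comm` and `tf` (as in `PDG.uniq_ser`).
-/

set_option autoImplicit false

namespace Pool.Agent.PDH

variable {S : Type} [Group S] {N : ℕ → Subgroup S}

theorem serTo_of_ser (hN : PDG.Ser N) (m : ℕ) : SerTo N m := by
  exact ⟨hN.top, fun n _ => hN.anti n, fun n _ => hN.comm n, fun n _ g k hk h1 h2 => hN.tf n g k hk h1 h2⟩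

theorem serTo_le {m n : ℕ} (hN : SerTo N m) (h : n ≤ m) : SerTo N n := by
  exact ⟨hN.top, fun k hk => hN.anti k (hk.trans_le h), fun k hk => hN.comm k (hk.trans_le h),
    fun k hk => hN.tf k (hk.trans_le h)⟩

/-- the map `S ⧸ N (n+1) → S ⧸ N n` -/
def stepMap [∀ n, (N n).Normal] {n : ℕ} (hN : SerTo N (n + 1)) : S ⧸ N (n + 1) →* S ⧸ N n :=
  QuotientGroup.map (N (n + 1)) (N n) (MonoidHom.id S) (hN.anti n n.lt_succ_self)

theorem stepMap_surj [∀ n, (N n).Normal] {n : ℕ} (hN : SerTo N (n + 1)) :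
    Function.Surjective (stepMap hN) := by
  intro x
  obtain ⟨g, rfl⟩ := QuotientGroup.mk_surjective x
  exact ⟨QuotientGroup.mk g, rfl⟩

theorem stepMap_ker [∀ n, (N n).Normal] {n : ℕ} (hN : SerTo N (n + 1)) (g : S)
    (hg : (QuotientGroup.mk g : S ⧸ N (n + 1)) ∈ (stepMap hN).ker) : g ∈ N n := by
  have hf : stepMap hN (QuotientGroup.mk g) = QuotientGroup.mk g := rfl
  rw [MonoidHom.mem_ker, hf] at hg
  exact (QuotientGroup.eq_one_iff g).1 hg

theorem stepMap_comm [∀ n, (N n).Normal] {n : ℕ} (hN : SerTo N (n + 1)) (a : S ⧸ N (n + 1))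
    (ha : a ∈ (stepMap hN).ker) (b : S ⧸ N (n + 1)) (hb : b ∈ (stepMap hN).ker) :
    a * b = b * a := by
  obtain ⟨g, rfl⟩ := QuotientGroup.mk_surjective a
  obtain ⟨h, rfl⟩ := QuotientGroup.mk_surjective b
  have h1 := hN.comm n n.lt_succ_self (Subgroup.commutator_mem_commutator
    (Subgroup.inv_mem _ (stepMap_ker hN g ha)) (Subgroup.inv_mem _ (stepMap_ker hN h hb)))
  rw [← QuotientGroup.mk_mul, ← QuotientGroup.mk_mul, eq_comm, QuotientGroup.eq]
  rw [commutatorElement_def] at h1
  have e : (h * g)⁻¹ * (g * h) = g⁻¹ * h⁻¹ * g⁻¹⁻¹ * h⁻¹⁻¹ := by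
    group
  rw [e]
  exact h1

theorem stepMap_tf [∀ n, (N n).Normal] {n : ℕ} (hN : SerTo N (n + 1)) (a : S ⧸ N (n + 1))
    (ha : a ∈ (stepMap hN).ker) (k : ℕ) (hk : k ≠ 0) (h : a ^ k = 1) : a = 1 := by
  obtain ⟨g, rfl⟩ := QuotientGroup.mk_surjective a
  rw [← QuotientGroup.mk_pow, QuotientGroup.eq_one_iff] at h
  exact (QuotientGroup.eq_one_iff g).2 (hN.tf n n.lt_succ_self g k hk (stepMap_ker hN g ha) h)

theorem uniq_serTo [∀ n, (N n).Normal] (m : ℕ) (hN : SerTo N m) : UniqueProds (S ⧸ N m) := by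
  induction m with
  | zero =>
    haveI : Subsingleton (S ⧸ N 0) := by
      rw [hN.top]
      exact QuotientGroup.subsingleton_quotient_top
    exact ⟨fun {A B} hA hB => by
      obtain ⟨a, ha⟩ := hA
      obtain ⟨b, hb⟩ := hB
      exact ⟨a, ha, b, hb, UniqueMul.of_subsingleton⟩⟩
  | succ n ih =>
    haveI := ih (serTo_le hN n.le_succ)
    have hker : ∀ g : S, (QuotientGroup.mk g : S ⧸ N (n + 1)) ∈ (stepMap hN).ker → g ∈ N n :=
      stepMap_ker hN
    haveI : UniqueProds (stepMap hN).ker := by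
      refine PDG.uniq_tf ?_ ?_
      · rintro ⟨a, ha⟩ ⟨b, hb⟩
        exact Subtype.ext (stepMap_comm hN a ha b hb)
      · rintro ⟨a, ha⟩ k hk hak
        exact Subtype.ext (stepMap_tf hN a ha k hk (congrArg Subtype.val hak))
    exact PDG.uniq_ext (stepMap hN)

theorem ore_serTo (k : Type) [Field k] [∀ n, (N n).Normal] (m : ℕ) (hN : SerTo N m) :
    ∃ (D : Type) (_ : DivisionRing D) (θ : MonoidAlgebra k (S ⧸ N m) →+* D), OreEmb θ := by
  have hle : ∀ n ≤ m, derivedSeries S n ≤ N n := by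
    intro n
    induction n with
    | zero =>
      intro _
      rw [hN.top]
      exact le_top
    | succ n ih =>
      intro hn
      rw [derivedSeries_succ]
      have h1 := ih (by omega)
      exact (Subgroup.commutator_mono h1 h1).trans (hN.comm n hn)
  have hd : derivedSeries (S ⧸ N m) m = ⊥ := by
    rw [← map_derivedSeries_eq (QuotientGroup.mk'_surjective (N m)) m, eq_bot_iff,
      Subgroup.map_le_iff_le_comap]
    refine (hle m le_rfl).trans ?_
    intro g hg
    rw [Subgroup.mem_comap, Subgroup.mem_bot]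
    exact (QuotientGroup.eq_one_iff g).2 hg
  have := uniq_serTo m hN
  exact exists_oreEmb k (S ⧸ N m) inferInstance (fun B => solvB_all m hd B)

theorem ek_serTo (k : Type) [Field k] [∀ n, (N n).Normal] {G : Type} [Group G]
    (hfg : Group.FG G) (π : G →* S) (t : G) (n m : ℕ) (hnm : n ≤ m) (hN : SerTo N m)
    (hE : EK k ((QuotientGroup.mk' (N n)).comp π) t) :
    EK k ((QuotientGroup.mk' (N m)).comp π) t := by
  induction m with
  | zero =>
    obtain rfl : n = 0 := by omega
    exact hE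
  | succ m ih =>
    rcases Nat.lt_or_ge m n with h | h
    · obtain rfl : n = m + 1 := by omega
      exact hE
    · have h1 := ih h (serTo_le hN m.le_succ)
      refine nak hfg _ (stepMap hN) (stepMap_surj hN) ?_ ?_ t ?_
      · intro u hu v hv
        exact stepMap_comm hN u hu v hv
      · intro v hv k hk h
        exact stepMap_tf hN v hv k hk h
      · exact h1

end Pool.Agent.PDH
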