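import Pool.Agent.PDH.CoreCol
import Pool.Agent.PDH.Chi
import Pool.Agent.PDH.FGm
import Pool.Agent.PDH.Tow

/-!
# Blueprint PDH, module CoreH (helper41)

THEOREM.  Let `G` be a `PD_3`-group, `π : G → S` onto with kernel contained in all terms of the derived series, `S` with a
descending series `N` with torsion free abelian factors and trivial intersection, `t ∈ G` with `π t ∉ N n₀`, such that every
crossed homomorphism `G → ℚ[S / N n₀]` which vanishes at `t` is zero.  Then the kernel of `π` is perfect.

PROOF.  Let `χ` be a character of `S` onto `ℤ` with `N n₀ ≤ χ.ker`.  If `χ.ker = 1` then `S` is commutative and the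
kernel of `π` is both the commutator subgroup and the second derived subgroup.  Otherwise every cocycle of degree two
over `ℤ[S]` is a coboundary modulo every `N n` (`half_app` for the dual complex), hence a coboundary (`core_col`);
this means that the cycles of degree one of the dual complex are boundaries, and `beta` applies.
-/

set_option autoImplicit false

namespace Pool.Agent.PDH

open Pool.Agent.HFT Pool.Agent.PDG Pool.Agent.PDF Matrix

theorem coreH (G : Type) [Group G] (hG : IsPD3 G) {S : Type} [Group S] (π : G →* S)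
    (hπ : Function.Surjective π) (N : ℕ → Subgroup S) [∀ n, (N n).Normal] (hN : PDG.Ser N)
    (hK : ∀ k, π.ker ≤ derivedSeries G k) (t : G) (n₀ : ℕ) (ht : π t ∉ N n₀)
    (hE : EK ℚ ((QuotientGroup.mk' (N n₀)).comp π) t) : π.ker ≤ ⁅π.ker, π.ker⁆ := by
  classical
  have hfg : Group.FG G := pd3_fg G hG
  have hfgS : Group.FG S := Group.fg_of_surjective hπ
  have hn₀ : N n₀ ≠ ⊤ := fun h => ht (by rw [h]; exact Subgroup.mem_top _)
  have hanti : Antitone N := antitone_nat_of_succ_le hN.anti
  obtain ⟨χ, hχ, hχN⟩ := exists_chi_ser hfgS N hN n₀ hn₀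
  obtain ⟨τ, hτ⟩ := hχ (Multiplicative.ofAdd 1)
  by_cases hker : ∃ h₁ ∈ χ.ker, h₁ ≠ 1
  swap
  · -- `S` is commutative
    push Not at hker
    have hinj : Function.Injective χ := by
      rw [← MonoidHom.ker_eq_bot_iff, eq_bot_iff]
      intro g hg
      exact Subgroup.mem_bot.2 (hker g hg)
    have h1 : derivedSeries G 1 ≤ π.ker := by
      rw [derivedSeries_one, commutator_def, Subgroup.commutator_le]
      intro a _ b _
      rw [MonoidHom.mem_ker, map_commutatorElement]
      apply hinj
      rw [map_commutatorElement, map_one, commutatorElement_eq_one_iff_mul_comm]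
      exact mul_comm _ _
    refine (hK 2).trans ?_
    rw [derivedSeries_succ]
    exact Subgroup.commutator_mono h1 h1
  obtain ⟨h₁, hh, hh1⟩ := hker
  have ht' : ∀ n, n₀ ≤ n → π t ∉ N n := fun n hn h => ht (hanti hn h)
  have hE' : ∀ n, n₀ ≤ n → EK ℚ ((QuotientGroup.mk' (N n)).comp π) t := fun n hn =>
    ek_serTo ℚ hfg π t n₀ n hn (serTo_of_ser hN n) hE
  obtain ⟨n0, n1, n2, n3, e0, e1, e2, e3, d1, d2, d3, m, m', s, h, h'⟩ := extract G hG
  have hs : π.ker ≤ s.ker := by
    refine (hK 1).trans ?_
    rw [derivedSeries_one]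
    exact Abelianization.commutator_subset_ker s
  obtain ⟨s', hs'⟩ : ∃ s' : S →* ℤˣ, s'.comp π = s :=
    ⟨π.liftOfSurjective hπ ⟨s, hs⟩, MonoidHom.liftOfRightInverse_comp _ _ _ ⟨s, hs⟩⟩
  subst hs'
  refine beta π hπ _ _ _ _ m' h' ?_
  intro z hz1 hz2
  obtain ⟨y, hy⟩ := core_col hfg π hπ hN χ τ hτ n₀ hχN h₁ hh hh1 t n₀ ht' hE' e0 e1 d1 d2 m h
    (fun j => iota s' (z j)) (by
      intro n
      have hM : derivedSeries S (n + 1) ≤ N n ⊓ s'.ker := by
        refine le_inf ?_ ?_
        · exact (derivedSeries_antitone (G := S) (Nat.le_succ n)).trans (derived_le_ser N hN n)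
        · refine (derivedSeries_antitone (G := S) (Nat.succ_le_succ (Nat.zero_le n))).trans ?_
          rw [derivedSeries_one]
          exact Abelianization.commutator_subset_ker s'
      obtain ⟨y, hy⟩ := half_app π hπ N hN hK (N n ⊓ s'.ker) (n + 1) hM _ _ _ _ m' h' z hz1 hz2
      rw [dag_mp] at hy
      have hz : z = fun j => iota s' (iota s' (z j)) := by
        funext j
        rw [iota_iota]
      have hy' : y = fun j => iota s' (iota s' (y j)) := by
        funext j
        rw [iota_iota]
      refine ⟨fun j => iota s' (y j), fun i => ?_⟩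
      have h3 := EqM.iota (inf_le_right : N n ⊓ s'.ker ≤ s'.ker) (hy i)
      rw [hy', vecMul_dag', iota_iota] at h3
      exact (eqM_mono inf_le_left h3).symm)
  refine ⟨fun j => iota s' (y j), ?_⟩
  rw [dag_mp, vecMul_dag', hy]
  funext j
  rw [iota_iota]

end Pool.Agent.PDH
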