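import Pool.Agent.PDH.Fld

/-!
# PDH: linear systems over group rings, cyclic extensions (helper41; the proof is that of `PDG.Cyc` by helper93,
over an arbitrary field)
-/

set_option autoImplicit false

namespace Pool.Agent.PDH

variable {kk : Type} [Field kk] {Γ : Type} [Group Γ]

private theorem solvB_ft {C : Subgroup Γ} (h : SolvB kk C) {ι κ : Type} [Fintype ι] [Fintype κ]
    (hc : Fintype.card ι < Fintype.card κ) (A : Matrix ι κ (MonoidAlgebra kk Γ))
    (hA : ∀ i j, A i j ∈ KB C) :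
    ∃ v : κ → MonoidAlgebra kk Γ, v ≠ 0 ∧ (∀ j, v j ∈ KB C) ∧ ∀ i, ∑ j, A i j * v j = 0 := by
  classical
  obtain ⟨v, h1, h2, h3⟩ := h (Fintype.card ι) (Fintype.card κ) hc
    (fun i j => A ((Fintype.equivFin ι).symm i) ((Fintype.equivFin κ).symm j)) (fun i j => hA _ _)
  refine ⟨fun j => v (Fintype.equivFin κ j), ?_, fun j => h2 _, fun i => ?_⟩
  · intro h0
    apply h1
    funext j
    have := congrFun h0 ((Fintype.equivFin κ).symm j)
    simpa using this
  · have e := congrFun h3 (Fintype.equivFin ι i)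
    simp only [Matrix.mulVec, dotProduct, Equiv.symm_apply_apply, Pi.zero_apply] at e
    rw [← e]
    refine Fintype.sum_equiv (Fintype.equivFin κ) _ _ (fun j => ?_)
    rw [Equiv.symm_apply_apply]

/-- the counting lemma: `V`, `W` finite sets of coset representatives -/
private theorem solv_count (C B : Subgroup Γ) (hCB : C ≤ B) (h : SolvB kk C) (V W : Finset Γ)
    (hVB : ∀ s ∈ V, s ∈ B) (hVd : ∀ s ∈ V, ∀ s' ∈ V, s⁻¹ * s' ∈ C → s = s') (m n : ℕ)
    (A : Matrix (Fin m) (Fin n) (MonoidAlgebra kk Γ))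
    (hW : ∀ i j g, (A i j).coeff g ≠ 0 → ∀ s ∈ V, ∃ r ∈ W, r⁻¹ * (g * s) ∈ C)
    (hc : m * W.card < n * V.card) :
    ∃ v : Fin n → MonoidAlgebra kk Γ, v ≠ 0 ∧ (∀ j, v j ∈ KB B) ∧ A.mulVec v = 0 := by
  classical
  -- the choice of the representative
  have hρ : ∀ g s : Γ, ∃ r : Γ, (∃ r ∈ W, r⁻¹ * (g * s) ∈ C) → (r ∈ W ∧ r⁻¹ * (g * s) ∈ C) := by
    intro g s
    by_cases h : ∃ r ∈ W, r⁻¹ * (g * s) ∈ C
    · obtain ⟨r, h1, h2⟩ := h
      exact ⟨r, fun _ => ⟨h1, h2⟩⟩
    · exact ⟨1, fun h' => absurd h' h⟩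
  choose ρ hρ using hρ
  let pt : Γ → Γ → MonoidAlgebra kk Γ → MonoidAlgebra kk Γ := fun r s x =>
    ∑ g ∈ x.coeff.support.filter (fun g => ρ g s = r),
      MonoidAlgebra.single (r⁻¹ * (g * s)) (x.coeff g)
  have hpt1 : ∀ r s x, (∀ g, x.coeff g ≠ 0 → ∃ r ∈ W, r⁻¹ * (g * s) ∈ C) → pt r s x ∈ KB C := by
    intro r s x hx
    refine Subring.sum_mem _ (fun g hg => ?_)
    rw [Finset.mem_filter, Finsupp.mem_support_iff] at hg
    refine single_mem_KB ?_ _
    have := (hρ g s (hx g hg.1)).2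
    rw [hg.2] at this
    exact this
  have hpt2 : ∀ s x, (∀ g, x.coeff g ≠ 0 → ∃ r ∈ W, r⁻¹ * (g * s) ∈ C) →
      x * MonoidAlgebra.single s 1 = ∑ r ∈ W, MonoidAlgebra.single r 1 * pt r s x := by
    intro s x hx
    have e1 : x * MonoidAlgebra.single s 1 =
        ∑ g ∈ x.coeff.support, MonoidAlgebra.single (g * s) (x.coeff g) := by
      conv_lhs => rw [← MonoidAlgebra.sum_coeff_single x]
      rw [Finsupp.sum, Finset.sum_mul]
      refine Finset.sum_congr rfl (fun g _ => ?_)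
      rw [MonoidAlgebra.single_mul_single, mul_one]
    rw [e1, ← Finset.sum_fiberwise_of_maps_to (t := W) (g := fun g => ρ g s)
      (fun g hg => (hρ g s (hx g (Finsupp.mem_support_iff.1 hg))).1)]
    refine Finset.sum_congr rfl (fun r _ => ?_)
    show _ = MonoidAlgebra.single r 1 * ∑ g ∈ x.coeff.support.filter (fun g => ρ g s = r),
      MonoidAlgebra.single (r⁻¹ * (g * s)) (x.coeff g)
    rw [Finset.mul_sum]
    refine Finset.sum_congr rfl (fun g _ => ?_)
    rw [MonoidAlgebra.single_mul_single, one_mul, mul_inv_cancel_left]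
  obtain ⟨x, hx0, hxC, hx⟩ := solvB_ft h (ι := Fin m × W) (κ := Fin n × V)
    (by simpa using hc) (fun p q => pt p.2 q.2 (A p.1 q.1))
    (fun p q => hpt1 _ _ _ (fun g hg => hW p.1 q.1 g hg q.2 q.2.2))
  refine ⟨fun j => ∑ s : V, MonoidAlgebra.single (s : Γ) 1 * x (j, s), ?_, ?_, ?_⟩
  · intro hv
    apply hx0
    funext p
    obtain ⟨j, s⟩ := p
    have e := congrFun hv j
    simp only [Pi.zero_apply] at e
    ext c
    show (x (j, s)).coeff c = 0
    by_contra hcc
    have hcC : c ∈ C := mem_KB.1 (hxC (j, s)) c hcc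
    have e2 := congrArg (fun z : MonoidAlgebra kk Γ => z.coeff ((s : Γ) * c)) e
    simp only [MonoidAlgebra.coeff_sum, Finsupp.finsetSum_apply,
      MonoidAlgebra.coeff_single_mul_apply, one_mul] at e2
    rw [Finset.sum_eq_single s] at e2
    · rw [inv_mul_cancel_left] at e2
      exact hcc e2
    · intro s' _ hs'
      by_contra h3
      have h4 := mem_KB.1 (hxC (j, s')) _ h3
      have h5 : (s' : Γ)⁻¹ * (s : Γ) ∈ C := by
        have := mul_mem h4 (inv_mem hcC)
        have e5 : (s' : Γ)⁻¹ * ((s : Γ) * c) * c⁻¹ = (s' : Γ)⁻¹ * (s : Γ) := by group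
        rwa [e5] at this
      exact hs' (Subtype.ext (hVd _ s'.2 _ s.2 h5))
    · intro h3; exact absurd (Finset.mem_univ _) h3
  · intro j
    refine Subring.sum_mem _ (fun s _ => mul_mem (single_mem_KB (hVB _ s.2) _) ?_)
    exact KB_mono hCB (hxC _)
  · funext i
    simp only [Matrix.mulVec, dotProduct, Pi.zero_apply, Finset.mul_sum]
    have e1 : ∀ j : Fin n, ∀ s : V, A i j * (MonoidAlgebra.single (s : Γ) 1 * x (j, s)) =
        ∑ r : W, MonoidAlgebra.single (r : Γ) 1 * (pt r s (A i j) * x (j, s)) := by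
      intro j s
      rw [← mul_assoc, hpt2 s (A i j) (fun g hg => hW i j g hg s s.2), Finset.sum_mul,
        ← Finset.sum_coe_sort W
          (fun r => MonoidAlgebra.single r 1 * pt r s (A i j) * x (j, s))]
      refine Finset.sum_congr rfl (fun r _ => ?_)
      rw [mul_assoc]
    simp only [e1]
    rw [← Fintype.sum_prod_type' (f := fun (j : Fin n) (s : V) =>
      ∑ r : W, MonoidAlgebra.single (r : Γ) 1 * (pt r s (A i j) * x (j, s))), Finset.sum_comm]
    refine Finset.sum_eq_zero (fun r _ => ?_)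
    rw [← Finset.mul_sum]
    have e3 := hx (i, r)
    simp only at e3
    rw [e3, mul_zero]

theorem solvB_bot : SolvB kk (⊥ : Subgroup Γ) := by
  intro m n hmn A hA
  classical
  have hA' : ∀ i j, A i j = MonoidAlgebra.single 1 ((A i j).coeff 1) := by
    intro i j
    ext g
    rw [MonoidAlgebra.coeff_single, Finsupp.single_apply]
    split_ifs with h
    · rw [h]
    · by_contra h'
      exact h (Subgroup.mem_bot.1 (mem_KB.1 (hA i j) g h')).symm
  set A' : Matrix (Fin m) (Fin n) kk := fun i j => (A i j).coeff 1 with hA'def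
  have hker : LinearMap.ker (Matrix.toLin' A') ≠ ⊥ :=
    LinearMap.ker_ne_bot_of_finrank_lt (by simpa using hmn)
  obtain ⟨v, hv, hv0⟩ := Submodule.exists_mem_ne_zero_of_ne_bot hker
  refine ⟨fun j => MonoidAlgebra.single 1 (v j), ?_, fun j => single_mem_KB (one_mem _) _, ?_⟩
  · intro h
    apply hv0
    funext j
    have := congrFun h j
    simpa using this
  · funext i
    have e := congrFun (LinearMap.mem_ker.1 hv) i
    rw [Matrix.toLin'_apply] at e
    simp only [Matrix.mulVec, dotProduct, Pi.zero_apply] at e ⊢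
    have e2 : ∀ j, A i j * MonoidAlgebra.single (1 : Γ) (v j) =
        MonoidAlgebra.single 1 (A' i j * v j) := by
      intro j
      conv_lhs => rw [hA' i j]
      rw [MonoidAlgebra.single_mul_single, mul_one]
    simp only [e2]
    ext g
    rw [MonoidAlgebra.coeff_sum, Finsupp.finsetSum_apply]
    simp only [MonoidAlgebra.coeff_single, Finsupp.single_apply]
    by_cases hg : (1 : Γ) = g
    · simp only [if_pos hg]
      rw [e]; rfl
    · simp [if_neg hg]

private theorem conj_zpow_mem {C : Subgroup Γ} {t : Γ} (ht : ∀ c, c ∈ C ↔ t * c * t⁻¹ ∈ C)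
    (l : ℤ) (c : Γ) : c ∈ C ↔ t ^ l * c * (t ^ l)⁻¹ ∈ C := by
  induction l using Int.induction_on with
  | zero => simp
  | succ l ih =>
    rw [ih, ht (t ^ (l : ℤ) * c * (t ^ (l : ℤ))⁻¹)]
    have e : t * (t ^ (l : ℤ) * c * (t ^ (l : ℤ))⁻¹) * t⁻¹ =
        t ^ ((l : ℤ) + 1) * c * (t ^ ((l : ℤ) + 1))⁻¹ := by group
    rw [e]
  | pred l ih =>
    rw [ih, ht (t ^ (-(l : ℤ) - 1) * c * (t ^ (-(l : ℤ) - 1))⁻¹)]
    have e : t * (t ^ (-(l : ℤ) - 1) * c * (t ^ (-(l : ℤ) - 1))⁻¹) * t⁻¹ =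
        t ^ (-(l : ℤ)) * c * (t ^ (-(l : ℤ)))⁻¹ := by group
    rw [e]

private theorem exists_pow {C : Subgroup Γ} {t : Γ} (ht : ∀ c, c ∈ C ↔ t * c * t⁻¹ ∈ C)
    {g : Γ} (hg : g ∈ C ⊔ Subgroup.zpowers t) : ∃ l : ℤ, (t ^ l)⁻¹ * g ∈ C := by
  let P : Subgroup Γ :=
    { carrier := {g | ∃ l : ℤ, (t ^ l)⁻¹ * g ∈ C}
      one_mem' := ⟨0, by simp⟩
      mul_mem' := by
        rintro a b ⟨l, hl⟩ ⟨k, hk⟩
        refine ⟨l + k, ?_⟩
        have h1 := (conj_zpow_mem ht (-k) _).1 hl
        have h2 := mul_mem h1 hk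
        have e : t ^ (-k) * ((t ^ l)⁻¹ * a) * (t ^ (-k))⁻¹ * ((t ^ k)⁻¹ * b) =
            (t ^ (l + k))⁻¹ * (a * b) := by group
        rwa [e] at h2
      inv_mem' := by
        rintro a ⟨l, hl⟩
        refine ⟨-l, ?_⟩
        have h1 := (conj_zpow_mem ht l _).1 (inv_mem hl)
        have e : t ^ l * ((t ^ l)⁻¹ * a)⁻¹ * (t ^ l)⁻¹ = (t ^ (-l))⁻¹ * a⁻¹ := by group
        rwa [e] at h1 }
  have h1 : C ⊔ Subgroup.zpowers t ≤ P := by
    refine sup_le (fun c hc => ⟨0, by simpa using hc⟩) ?_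
    rw [Subgroup.zpowers_le]
    exact ⟨1, by simp⟩
  exact h1 hg

theorem solvB_cyc (C : Subgroup Γ) (t : Γ) (ht : ∀ c, c ∈ C ↔ t * c * t⁻¹ ∈ C) (h : SolvB kk C) :
    SolvB kk (C ⊔ Subgroup.zpowers t) := by
  classical
  intro m n hmn A hA
  have htB : ∀ l : ℤ, t ^ l ∈ C ⊔ Subgroup.zpowers t := fun l =>
    (le_sup_right : Subgroup.zpowers t ≤ _) (Subgroup.zpow_mem _ (Subgroup.mem_zpowers t) l)
  have hkey : ∀ (g : Γ) (l k r : ℤ), (t ^ l)⁻¹ * g ∈ C → t ^ (l + k - r) ∈ C →
      (t ^ r)⁻¹ * (g * t ^ k) ∈ C := by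
    intro g l k r h1 h2
    have h3 := (conj_zpow_mem ht (-k) _).1 h1
    have h4 := mul_mem h2 h3
    have e : t ^ (l + k - r) * (t ^ (-k) * ((t ^ l)⁻¹ * g) * (t ^ (-k))⁻¹) =
        (t ^ r)⁻¹ * (g * t ^ k) := by
      rw [show l + k - r = -r + l + k by ring, zpow_add, zpow_add, zpow_neg, zpow_neg]
      group
    rwa [e] at h4
  by_cases h0 : ∀ l : ℤ, t ^ l ∈ C → l = 0
  · -- infinite order
    have hl : ∀ g : Γ, ∃ l : ℤ, g ∈ C ⊔ Subgroup.zpowers t → (t ^ l)⁻¹ * g ∈ C := by
      intro g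
      by_cases hg : g ∈ C ⊔ Subgroup.zpowers t
      · obtain ⟨l, hl⟩ := exists_pow ht hg
        exact ⟨l, fun _ => hl⟩
      · exact ⟨0, fun h => absurd h hg⟩
    choose lam hlam using hl
    obtain ⟨d, hd⟩ : ∃ d : ℕ, ∀ i j g, (A i j).coeff g ≠ 0 → (lam g).natAbs ≤ d := by
      refine ⟨Finset.univ.sup fun i => Finset.univ.sup fun j =>
        (A i j).coeff.support.sup fun g => (lam g).natAbs, fun i j g hg => ?_⟩
      refine le_trans ?_ (Finset.le_sup (f := fun i => Finset.univ.sup fun j =>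
        (A i j).coeff.support.sup fun g => (lam g).natAbs) (Finset.mem_univ i))
      refine le_trans ?_ (Finset.le_sup (f := fun j =>
        (A i j).coeff.support.sup fun g => (lam g).natAbs) (Finset.mem_univ j))
      exact Finset.le_sup (f := fun g => (lam g).natAbs) (Finsupp.mem_support_iff.2 hg)
    have hinj : Function.Injective (fun l : ℤ => t ^ l) := by
      intro a b hab
      have h1 : t ^ (a - b) ∈ C := by
        rw [zpow_sub]
        simp only at hab
        rw [hab, mul_inv_cancel]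
        exact one_mem _
      have := h0 _ h1
      omega
    refine solv_count C _ le_sup_left h ((Finset.Icc (0 : ℤ) (2 * d * m)).image (fun l => t ^ l))
      ((Finset.Icc (-d : ℤ) (2 * d * m + d)).image (fun l => t ^ l)) ?_ ?_ m n A ?_ ?_
    · intro s hs
      obtain ⟨l, _, rfl⟩ := Finset.mem_image.1 hs
      exact htB l
    · intro s hs s' hs' hC
      obtain ⟨l, _, rfl⟩ := Finset.mem_image.1 hs
      obtain ⟨l', _, rfl⟩ := Finset.mem_image.1 hs'
      rw [← zpow_neg, ← zpow_add] at hC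
      have := h0 _ hC
      rw [show l = l' by omega]
    · intro i j g hg s hs
      obtain ⟨k, hk, rfl⟩ := Finset.mem_image.1 hs
      rw [Finset.mem_Icc] at hk
      have h1 := hlam g (mem_KB.1 (hA i j) g hg)
      have h2 := hd i j g hg
      refine ⟨t ^ (lam g + k), Finset.mem_image.2 ⟨lam g + k, ?_, rfl⟩, ?_⟩
      · rw [Finset.mem_Icc]
        omega
      · exact hkey g (lam g) k _ h1 (by rw [sub_self, zpow_zero]; exact one_mem _)
    · rw [Finset.card_image_of_injective _ hinj, Finset.card_image_of_injective _ hinj,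
        Int.card_Icc, Int.card_Icc]
      have e1 : (2 * (d : ℤ) * m + d + 1 - -(d : ℤ)).toNat = 2 * d * m + 2 * d + 1 := by
        rw [show (2 * (d : ℤ) * m + d + 1 - -(d : ℤ)) = ((2 * d * m + 2 * d + 1 : ℕ) : ℤ) by
          push_cast; ring]
        exact Int.toNat_natCast _
      have e2 : (2 * (d : ℤ) * m + 1 - 0).toNat = 2 * d * m + 1 := by
        rw [show (2 * (d : ℤ) * m + 1 - 0) = ((2 * d * m + 1 : ℕ) : ℤ) by push_cast; ring]
        exact Int.toNat_natCast _
      rw [e1, e2]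
      have h3 : (m + 1) * (2 * d * m + 1) ≤ n * (2 * d * m + 1) :=
        Nat.mul_le_mul_right _ hmn
      have h4 : m * (2 * d * m + 2 * d + 1) < (m + 1) * (2 * d * m + 1) := by
        ring_nf
        omega
      exact lt_of_lt_of_le h4 h3
  · -- finite order modulo `C`
    push Not at h0
    obtain ⟨l0, hl0, hl0'⟩ := h0
    have hex : ∃ e : ℕ, 0 < e ∧ t ^ (e : ℤ) ∈ C := by
      refine ⟨l0.natAbs, Int.natAbs_pos.2 hl0', ?_⟩
      rcases Int.natAbs_eq l0 with h1 | h1
      · rw [← h1]; exact hl0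
      · have : ((l0.natAbs : ℕ) : ℤ) = - l0 := by omega
        rw [this, zpow_neg]; exact inv_mem hl0
    set e := Nat.find hex with he
    have he0 : 0 < e := (Nat.find_spec hex).1
    have heC : t ^ (e : ℤ) ∈ C := (Nat.find_spec hex).2
    have hmin : ∀ k : ℤ, 0 < k → k < e → t ^ k ∉ C := by
      intro k hk hk' hC
      have := Nat.find_min hex (m := k.toNat) (by omega)
      apply this
      refine ⟨by omega, ?_⟩
      rwa [Int.toNat_of_nonneg hk.le]
    have hper : ∀ q : ℤ, t ^ ((e : ℤ) * q) ∈ C := by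
      intro q
      rw [zpow_mul]
      exact Subgroup.zpow_mem _ heC q
    have hinj : Set.InjOn (fun l : ℤ => t ^ l) (Finset.Ico (0 : ℤ) e : Finset ℤ) := by
      intro a ha b hb hab
      simp only [Finset.coe_Ico, Set.mem_Ico] at ha hb
      simp only at hab
      by_contra hne
      rcases lt_or_gt_of_ne hne with h1 | h1
      · apply hmin (b - a) (by omega) (by omega)
        rw [zpow_sub, hab, mul_inv_cancel]; exact one_mem _
      · apply hmin (a - b) (by omega) (by omega)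
        rw [zpow_sub, hab, mul_inv_cancel]; exact one_mem _
    refine solv_count C _ le_sup_left h ((Finset.Ico (0 : ℤ) e).image (fun l => t ^ l))
      ((Finset.Ico (0 : ℤ) e).image (fun l => t ^ l)) ?_ ?_ m n A ?_ ?_
    · intro s hs
      obtain ⟨l, _, rfl⟩ := Finset.mem_image.1 hs
      exact htB l
    · intro s hs s' hs' hC
      obtain ⟨l, hl, rfl⟩ := Finset.mem_image.1 hs
      obtain ⟨l', hl', rfl⟩ := Finset.mem_image.1 hs'
      rw [Finset.mem_Ico] at hl hl'
      rw [← zpow_neg, ← zpow_add] at hC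
      by_contra hne
      have hne' : l ≠ l' := fun h => hne (by rw [h])
      rcases lt_or_gt_of_ne hne' with h1 | h1
      · exact hmin (-l + l') (by omega) (by omega) hC
      · apply hmin (-(-l + l')) (by omega) (by omega)
        rw [zpow_neg]; exact inv_mem hC
    · intro i j g hg s hs
      obtain ⟨k, hk, rfl⟩ := Finset.mem_image.1 hs
      obtain ⟨l, hl⟩ := exists_pow ht (mem_KB.1 (hA i j) g hg)
      have he' : (0 : ℤ) < e := by exact_mod_cast he0
      refine ⟨t ^ ((l + k) % e), Finset.mem_image.2 ⟨(l + k) % e, ?_, rfl⟩, ?_⟩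
      · rw [Finset.mem_Ico]
        exact ⟨Int.emod_nonneg _ he'.ne', Int.emod_lt_of_pos _ he'⟩
      · refine hkey g l k _ hl ?_
        have e5 : l + k - (l + k) % e = (e : ℤ) * ((l + k) / e) := by
          have := Int.emod_add_mul_ediv (l + k) (e : ℤ)
          omega
        rw [e5]
        exact hper _
    · rw [Finset.card_image_of_injOn hinj]
      have : 0 < (Finset.Ico (0 : ℤ) e).card := by
        rw [Int.card_Ico]
        omega
      exact Nat.mul_lt_mul_of_pos_right hmn this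

end Pool.Agent.PDH
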