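import Pool.Agent.PDH.Fld
import Pool.Agent.PDF.PDDefs

/-!
# Blueprint PDH: definitions (helper41)

`Crs a f`: `f` is a crossed homomorphism, `f (g h) = f g + a(g) f h`.  `go A q`: the map `g ↦ single (q g) 1` of a
group in a group ring.  `EK k q t`: a crossed homomorphism with values in `k[Γ]` which vanishes at `t` is zero.
`SerTo N m`: `N 0, ..., N m` descend from the whole group, with torsion free abelian factors.
`LP Δ T`: the elements `∑ T^i c_i` (finite sum over integers `i`), `c_i ∈ Δ`; `Ind Δ T`: the powers of `T` are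
independent over `Δ`; `Nrm Δ T`: conjugation by `T` maps `Δ` onto itself.
`ChD`: elements of a projective resolution which compare it with crossed homomorphisms.
-/

set_option autoImplicit false

namespace Pool.Agent.PDH

open Pool.Agent.PDF

/-- crossed homomorphisms; the group acts by left multiplication through `a` -/
def Crs {G : Type} [Group G] {R : Type} [Ring R] (a : G →* R) (f : G → R) : Prop :=
  ∀ g h, f (g * h) = f g + a g * f h

/-- the map of `G` in the group ring `A[Γ]` given by a homomorphism `q : G → Γ` -/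
noncomputable def go (A : Type) [CommRing A] {G Γ : Type} [Group G] [Group Γ] (q : G →* Γ) :
    G →* MonoidAlgebra A Γ :=
  (MonoidAlgebra.of A Γ).comp q

theorem go_apply (A : Type) [CommRing A] {G Γ : Type} [Group G] [Group Γ] (q : G →* Γ) (g : G) :
    go A q g = MonoidAlgebra.single (q g) 1 := rfl

/-- a crossed homomorphism with values in the group ring `A[Γ]` that vanishes at `t` is zero -/
def EK (A : Type) [CommRing A] {G Γ : Type} [Group G] [Group Γ] (q : G →* Γ) (t : G) : Prop :=
  ∀ f : G → MonoidAlgebra A Γ, Crs (go A q) f → f t = 0 → ∀ g, f g = 0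

/-- `N 0, ..., N m` descend from the whole group with torsion free abelian factors -/
structure SerTo {S : Type} [Group S] (N : ℕ → Subgroup S) (m : ℕ) : Prop where
  top : N 0 = ⊤
  anti : ∀ n < m, N (n + 1) ≤ N n
  comm : ∀ n < m, ⁅N n, N n⁆ ≤ N (n + 1)
  tf : ∀ n < m, ∀ (g : S) (k : ℕ), k ≠ 0 → g ∈ N n → g ^ k ∈ N (n + 1) → g ∈ N (n + 1)

/-- the elements `∑ T^i c_i` with coefficients in `Δ` -/
def LP {D : Type} [DivisionRing D] (Δ : Subring D) (T : D) : Set D :=
  {x | ∃ (F : Finset ℤ) (c : ℤ → D), (∀ i, c i ∈ Δ) ∧ x = ∑ i ∈ F, T ^ i * c i}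

/-- the powers of `T` are independent over `Δ` -/
def Ind {D : Type} [DivisionRing D] (Δ : Subring D) (T : D) : Prop :=
  ∀ (F : Finset ℤ) (c : ℤ → D), (∀ i, c i ∈ Δ) → ∑ i ∈ F, T ^ i * c i = 0 → ∀ i ∈ F, c i = 0

/-- `T` is invertible and normalizes `Δ` -/
structure Nrm {D : Type} [DivisionRing D] (Δ : Subring D) (T : D) : Prop where
  ne : T ≠ 0
  conj : ∀ c ∈ Δ, T * c * T⁻¹ ∈ Δ
  conj' : ∀ c ∈ Δ, T⁻¹ * c * T ∈ Δ

/-- comparison of a projective resolution with crossed homomorphisms -/
structure ChD {G : Type} [Group G] {n0 n1 : Type} [Fintype n0] [Fintype n1]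
    (e0 : Matrix n0 n0 (MonoidAlgebra ℤ G)) (e1 : Matrix n1 n1 (MonoidAlgebra ℤ G))
    (d1 : Matrix n1 n0 (MonoidAlgebra ℤ G)) (m : n0 → ℤ) (u : n0 → MonoidAlgebra ℤ G)
    (x : G → n1 → MonoidAlgebra ℤ G) (p : n0 → n1 → MonoidAlgebra ℤ G) : Prop where
  u0 : Matrix.vecMul u e0 = u
  u1 : eps m u = 1
  x1 : ∀ g, Matrix.vecMul (x g) e1 = x g
  x2 : ∀ g, Matrix.vecMul (x g) d1 = (MonoidAlgebra.single g (1 : ℤ) - 1) • u
  p1 : ∀ j, Matrix.vecMul (p j) e1 = p j
  p2 : ∀ j, Matrix.vecMul (p j) d1 = e0 j - m j • u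

/-- additive extension of a function on the group to the integral group ring -/
noncomputable def gext {S M : Type} [Group S] [AddCommGroup M] (f : S → M) :
    MonoidAlgebra ℤ S →+ M :=
  (Finsupp.liftAddHom fun g => zmultiplesHom M (f g)).comp
    (MonoidAlgebra.coeffAddEquiv (R := ℤ) (M := S)).toAddMonoidHom

theorem gext_single {S M : Type} [Group S] [AddCommGroup M] (f : S → M) (g : S) (n : ℤ) :
    gext f (MonoidAlgebra.single g n) = n • f g := by
  simp [gext]

end Pool.Agent.PDH
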