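import Pool.Agent.PDH.TF
import Pool.Agent.PDH.Tow
import Pool.Agent.PDH.FGm
import Pool.Agent.PDH.Chi

/-!
# Blueprint PDH, module DerTF (helper41): the factors of the derived series are torsion free

PROOF of `prime_enough`: strong induction on `k`: for `k ≠ 1` let `p` be a prime divisor, `k = p k'`; apply the hypothesis
to `g ^ k' ∈ A` and `p`: `g ^ k' ∈ B`; then the induction hypothesis for `k'`.
PROOF of `der_tf`.  Induction on `m`.  `m = 0` is clear (`derivedSeries G 0 = ⊤`).  Step `m → m + 1`: the conditions below
`m` hold by induction; `anti` and `comm` are clear for the derived series (`derivedSeries_antitone`, `derivedSeries_succ`);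
`tf` at `m`: for `m = 0` this is `htf0` (`derivedSeries G 1 = commutator G`).  Let `m ≥ 1`, `M = derivedSeries G m ≤
commutator G`, `derivedSeries G (m+1) = ⁅M, M⁆`.  By `prime_enough` it suffices to treat a prime `p`
(`Fact p.Prime`).  Apply `tf_step`; for `hlift` use `lift_crs` with `Γ = G ⧸ M`, `q = mk' M`: `hfg` is `pd3_fg`; `D`, `θ` are
given by `ore_serTo (ZMod p) m`; `q t ≠ 1` as `t ∉ commutator G`; `EK (ZMod p) (mk' M) t` by `ek_serTo` (with
`π = MonoidHom.id G`, `n = 1`; `derivedSeries G 1 = commutator G`, be careful with the dependent types: use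
`N 1` and transport `hE` along `derivedSeries_one`, e.g. `subst`/`▸` on a general subgroup equal to
`commutator G`); the character of `G ⧸ M` is `QuotientGroup.lift M χ _` for `χ` from `exists_chi` (applied to
`commutator G`, which is not `⊤` because of `t`), and `τ` is the image of an element with value `ofAdd 1`.
-/

set_option autoImplicit false

namespace Pool.Agent.PDH

open Pool.Agent.PDF

theorem prime_enough {G : Type} [Group G] (A B : Subgroup G)
    (h : ∀ p : ℕ, p.Prime → ∀ g ∈ A, g ^ p ∈ B → g ∈ B) (g : G) (k : ℕ) (hk : k ≠ 0) (hg : g ∈ A)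
    (hgk : g ^ k ∈ B) : g ∈ B := by
  induction k using Nat.strong_induction_on with
  | _ k ih =>
    by_cases h1 : k = 1
    · rw [h1, pow_one] at hgk
      exact hgk
    · have hp := Nat.minFac_prime h1
      obtain ⟨k', hk'⟩ := Nat.minFac_dvd k
      have hk0 : k' ≠ 0 := by
        rintro rfl
        rw [mul_zero] at hk'
        exact hk hk'
      have hlt : k' < k := by
        have h2 := hp.two_le
        have h3 : 0 < k' := Nat.pos_of_ne_zero hk0
        rw [hk']
        nlinarith
      apply ih k' hlt hk0
      apply h k.minFac hp _ (A.pow_mem hg k')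
      rw [← pow_mul, mul_comm k', ← hk']
      exact hgk

private theorem derTF_one (G : Type) [Group G] : derivedSeries G 1 = commutator G := by
  rw [derivedSeries_succ, derivedSeries_zero]
  rfl

private theorem derTF_ek {G : Type} [Group G] {k : Type} [Field k] {A B : Subgroup G}
    [A.Normal] [B.Normal] (h : A = B) {t : G} (hE : EK k (QuotientGroup.mk' A) t) :
    EK k (QuotientGroup.mk' B) t := by
  subst h
  exact hE

theorem der_tf {G : Type} [Group G] (hG : IsPD3 G)
    (htf0 : ∀ (g : G) (k : ℕ), k ≠ 0 → g ^ k ∈ commutator G → g ∈ commutator G) (t : G)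
    (ht : t ∉ commutator G)
    (hE : ∀ p : ℕ, p.Prime → EK (ZMod p) (QuotientGroup.mk' (commutator G)) t) (m : ℕ) :
    SerTo (derivedSeries G) m := by
  induction m with
  | zero =>
    exact ⟨derivedSeries_zero G, fun n hn => absurd hn (Nat.not_lt_zero n),
      fun n hn => absurd hn (Nat.not_lt_zero n), fun n hn => absurd hn (Nat.not_lt_zero n)⟩
  | succ m ih =>
    refine ⟨derivedSeries_zero G, fun n _ => derivedSeries_antitone G (Nat.le_succ n),
      fun n _ => (derivedSeries_succ G n).ge, ?_⟩
    intro n hn g k hk hg hgk
    rcases Nat.lt_succ_iff_lt_or_eq.1 hn with h1 | h1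
    · exact ih.tf n h1 g k hk hg hgk
    · subst h1
      rcases Nat.eq_zero_or_pos n with h0 | h0
      · subst h0
        rw [zero_add, derTF_one] at hgk ⊢
        exact htf0 g k hk hgk
      · have hMle : derivedSeries G n ≤ commutator G := by
          rw [← derTF_one]
          exact derivedSeries_antitone G h0
        refine prime_enough (derivedSeries G n) _ ?_ g k hk hg hgk
        intro p hp g hg hgp
        have : Fact p.Prime := ⟨hp⟩
        have hfg : Group.FG G := pd3_fg G hG
        rw [derivedSeries_succ] at hgp ⊢
        refine tf_step hG (derivedSeries G n) hMle p ?_ g hg hgp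
        intro f hf
        obtain ⟨D, _, θ, hθ⟩ := ore_serTo (ZMod p) n ih
        have hne : commutator G ≠ ⊤ := by
          intro h
          apply ht
          rw [h]
          exact Subgroup.mem_top t
        obtain ⟨χ, hχ, hle⟩ := exists_chi hfg (commutator G) hne le_rfl htf0
        obtain ⟨g0, hg0⟩ := hχ (Multiplicative.ofAdd 1)
        have ht' : (QuotientGroup.mk' (derivedSeries G n)) t ≠ 1 := by
          intro h
          rw [QuotientGroup.mk'_apply, QuotientGroup.eq_one_iff] at h
          exact ht (hMle h)
        have hE1 : EK (ZMod p) ((QuotientGroup.mk' (derivedSeries G 1)).comp (MonoidHom.id G)) t := by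
          rw [MonoidHom.comp_id]
          exact derTF_ek (derTF_one G).symm (hE p hp)
        have hE2 := ek_serTo (ZMod p) hfg (MonoidHom.id G) t 1 n h0 ih hE1
        rw [MonoidHom.comp_id] at hE2
        exact lift_crs p hfg θ hθ (QuotientGroup.mk' (derivedSeries G n))
          (QuotientGroup.mk'_surjective _) t ht' hE2
          (QuotientGroup.lift (derivedSeries G n) χ (fun x hx => hle (hMle hx)))
          (QuotientGroup.mk' (derivedSeries G n) g0) hg0 f hf

end Pool.Agent.PDH
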