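import Pool.Agent.PDH.Nak

/-!
# Blueprint PDH, module EkCyc (helper41): the condition `EK` for groups with infinite cyclic abelianization

PROOF of `ek_inj`: `MonoidAlgebra.mapDomainRingHom A ψ` is injective and maps crossed homomorphisms for `q` to crossed
homomorphisms for `ψ.comp q`.
PROOF of `ek_triv`: a crossed homomorphism for the trivial `q` is additive: `f (g h) = f g + f h`; so
`{g | f g = 0}` is a subgroup which contains `t` and the commutators.
PROOF of `ek_cyc`: let `ψ : G ⧸ commutator G →* Unit`; its kernel is everything, commutative, and torsion free because it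
is isomorphic to `ℤ` (`e`).  `nak` and `ek_triv` (`ψ.comp q` is trivial): the subgroup `zpowers t ⊔ commutator G` is
everything because `e (of g) = ofAdd i` implies `e (of g) = e (of (t ^ i))`, so `(t ^ i)⁻¹ * g ∈ commutator G`.
-/

set_option autoImplicit false

namespace Pool.Agent.PDH

theorem ek_inj (A : Type) [CommRing A] {G Γ' Γ : Type} [Group G] [Group Γ'] [Group Γ]
    (q : G →* Γ') (ψ : Γ' →* Γ) (hψ : Function.Injective ψ) (t : G) (hE : EK A (ψ.comp q) t) :
    EK A q t := by
  intro f hf ht0 g
  have hinj : Function.Injective (MonoidAlgebra.mapDomainRingHom A ψ) :=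
    MonoidAlgebra.mapDomain_injective hψ
  have h1 := hE (fun g => MonoidAlgebra.mapDomainRingHom A ψ (f g)) (by
    intro g h
    show MonoidAlgebra.mapDomainRingHom A ψ (f (g * h)) = _
    rw [hf g h, map_add, map_mul, go_apply, go_apply]
    congr 2
    simp) (by
    show MonoidAlgebra.mapDomainRingHom A ψ (f t) = 0
    rw [ht0, map_zero]) g
  exact hinj (by rw [map_zero]; exact h1)

theorem ek_triv (A : Type) [CommRing A] {G Γ : Type} [Group G] [Group Γ] (q : G →* Γ)
    (hq : ∀ g, q g = 1) (t : G) (ht : Subgroup.zpowers t ⊔ commutator G = ⊤) : EK A q t := by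
  intro f hf ht0 g
  have hadd : ∀ g h, f (g * h) = f g + f h := by
    intro g h
    have h1 := hf g h
    rw [go_apply, hq, ← MonoidAlgebra.one_def, one_mul] at h1
    exact h1
  have h1 : f 1 = 0 := by
    have := hadd 1 1
    rw [mul_one] at this
    exact left_eq_add.1 this
  let F : G →* Multiplicative (MonoidAlgebra A Γ) :=
    { toFun := fun g => Multiplicative.ofAdd (f g)
      map_one' := congrArg Multiplicative.ofAdd h1
      map_mul' := fun g h => congrArg Multiplicative.ofAdd (hadd g h) }
  have hle : (⊤ : Subgroup G) ≤ F.ker := by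
    rw [← ht, sup_le_iff]
    refine ⟨?_, Abelianization.commutator_subset_ker F⟩
    rw [Subgroup.zpowers_le, MonoidHom.mem_ker]
    exact congrArg Multiplicative.ofAdd ht0
  have h2 : F g = 1 := hle (Subgroup.mem_top g)
  exact congrArg Multiplicative.toAdd h2

theorem ek_cyc (k : Type) [Field k] {G : Type} [Group G] (hfg : Group.FG G)
    (e : Abelianization G ≃* Multiplicative ℤ) (t : G)
    (ht : e (Abelianization.of t) = Multiplicative.ofAdd 1) :
    EK k (QuotientGroup.mk' (commutator G)) t := by
  have hsup : Subgroup.zpowers t ⊔ commutator G = ⊤ := by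
    rw [eq_top_iff]
    intro g _
    have h1 : e (Abelianization.of g) = e (Abelianization.of (t ^ (Multiplicative.toAdd
        (e (Abelianization.of g))))) := by
      rw [map_zpow, map_zpow, ht, ← ofAdd_zsmul, smul_eq_mul, mul_one, ofAdd_toAdd]
    set i := Multiplicative.toAdd (e (Abelianization.of g))
    have h2 : Abelianization.of (t ^ i) = Abelianization.of g := (e.injective h1).symm
    have h3 : (t ^ i)⁻¹ * g ∈ commutator G := QuotientGroup.eq.1 h2
    have h4 : g = t ^ i * ((t ^ i)⁻¹ * g) := by group
    rw [h4]
    exact Subgroup.mul_mem_sup (Subgroup.zpow_mem_zpowers t i) h3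
  refine nak hfg (QuotientGroup.mk' (commutator G)) (1 : G ⧸ commutator G →* Unit) ?_ ?_ ?_ t ?_
  · intro u
    exact ⟨1, rfl⟩
  · intro u _ v _
    exact mul_comm (G := Abelianization G) u v
  · intro v _ n hn hv
    have h1 : e (v : Abelianization G) ^ n = 1 := by
      rw [← map_pow]
      exact (congrArg e hv).trans (map_one e)
    have h2 : n • Multiplicative.toAdd (e (v : Abelianization G)) = 0 :=
      congrArg Multiplicative.toAdd h1
    have h3 : Multiplicative.toAdd (e (v : Abelianization G)) = 0 := by
      rcases smul_eq_zero.1 h2 with h | h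
      · exact absurd h hn
      · exact h
    have h4 : e (v : Abelianization G) = 1 := h3
    exact e.injective (h4.trans (map_one e).symm)
  · exact ek_triv k _ (fun g => rfl) t hsup

end Pool.Agent.PDH
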