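import Pool.Agent.PDH.LiftP
import Pool.Agent.PDG.KBl

/-!
# Blueprint PDH, module EkRat (helper41): the condition `EK` over `ℤ/p` and over `ℚ`

PROOF of `ek_rat`.  Let `f : G → ℚ[Γ]` be a crossed homomorphism with `f t = 0`.  For every `x ∈ ℚ[Γ]` there is an integer
`n ≠ 0` with `n • x` in the range of `zq`; so there is one `n ≠ 0` with `n • f g ∈ range zq` for the finitely many
generators `g`, and then for all `g ∈ G` (the set of these `g` is a subgroup: `f (g h) = f g + [g] f h`,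
`f g⁻¹ = - [g⁻¹] f g`, and the range of `zq` contains `[g]`).  Choose `F g ∈ ℤ[Γ]` with `zq (F g) = n • f g`; `F` is a crossed
homomorphism (`zq_injective`) and `F t = 0`.
Claim: for all `r` and every crossed homomorphism `F : G → ℤ[Γ]` with `F t = 0` there is for each `g` some `y` with
`F g = (p ^ r : ℤ) • y`.  Induction on `r`: `rd p ∘ F` is a crossed homomorphism that vanishes at `t`, hence zero, so
`F g = (p : ℤ) • F₁ g` (`rd_eq_zero`), where `F₁` is a crossed homomorphism with `F₁ t = 0` (`ℤ[Γ]` has no torsion); apply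
the induction hypothesis to `F₁`.
So all coefficients of `F g` are divisible by all powers of `p`, and vanish.  Hence `n • f g = 0`, `f g = 0`.
-/

set_option autoImplicit false

namespace Pool.Agent.PDH

private theorem clr_ekr {Γ : Type} [Group Γ] (x : MonoidAlgebra ℚ Γ) :
    ∃ n : ℤ, n ≠ 0 ∧ ∃ y : MonoidAlgebra ℤ Γ, PDG.zq y = n • x := by
  induction x using MonoidAlgebra.induction_linear with
  | zero => exact ⟨1, one_ne_zero, 0, by simp⟩
  | add f g hf hg =>
    obtain ⟨n, hn, y, hy⟩ := hf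
    obtain ⟨m, hm, z, hz⟩ := hg
    refine ⟨n * m, mul_ne_zero hn hm, m • y + n • z, ?_⟩
    rw [map_add, map_zsmul, map_zsmul, hy, hz, smul_add, smul_smul, smul_smul, mul_comm n m]
  | single g r =>
    refine ⟨(r.den : ℤ), by exact_mod_cast r.den_ne_zero, MonoidAlgebra.single g r.num, ?_⟩
    rw [PDG.zq_single, MonoidAlgebra.smul_single]
    congr 1
    rw [zsmul_eq_mul, Int.cast_natCast, mul_comm]
    exact (Rat.mul_den_eq_num r).symm

private theorem canz_ekr {Γ : Type} [Group Γ] {n : ℤ} (hn : n ≠ 0) {x y : MonoidAlgebra ℤ Γ}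
    (h : n • x = n • y) : x = y := by
  ext g
  have h1 := congrArg (fun z : MonoidAlgebra ℤ Γ => z.coeff g) h
  simp only [MonoidAlgebra.coeff_smul_apply, smul_eq_mul] at h1
  exact mul_left_cancel₀ hn h1

private theorem canq_ekr {Γ : Type} [Group Γ] {n : ℤ} (hn : n ≠ 0) {x : MonoidAlgebra ℚ Γ}
    (h : n • x = 0) : x = 0 := by
  ext g
  have h1 := congrArg (fun z : MonoidAlgebra ℚ Γ => z.coeff g) h
  simp only [MonoidAlgebra.coeff_smul_apply, MonoidAlgebra.coeff_zero,
    Finsupp.coe_zero, Pi.zero_apply] at h1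
  have h3 := (smul_eq_zero.1 h1).resolve_left hn
  rw [h3]
  simp

private theorem one_ekr {G : Type} [Group G] {R : Type} [Ring R] {a : G →* R} {f : G → R}
    (hf : Crs a f) : f 1 = 0 := by
  have h := hf 1 1
  rw [mul_one, map_one, one_mul] at h
  exact left_eq_add.1 h

private theorem inv_ekr {G : Type} [Group G] {R : Type} [Ring R] {a : G →* R} {f : G → R}
    (hf : Crs a f) (g : G) : f g⁻¹ = - (a g⁻¹ * f g) := by
  have h := hf g⁻¹ g
  rw [inv_mul_cancel, one_ekr hf] at h
  exact eq_neg_of_add_eq_zero_left h.symm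

private theorem pw_ekr {G Γ : Type} [Group G] [Group Γ] (q : G →* Γ) (t : G) (p : ℕ)
    (hp : p.Prime) (hE : EK (ZMod p) q t) (r : ℕ) :
    ∀ F : G → MonoidAlgebra ℤ Γ, Crs (go ℤ q) F → F t = 0 →
      ∀ g, ∃ y : MonoidAlgebra ℤ Γ, F g = ((p : ℤ) ^ r) • y := by
  have hp0 : (p : ℤ) ≠ 0 := by exact_mod_cast hp.ne_zero
  induction r with
  | zero =>
    intro F _ _ g
    exact ⟨F g, by rw [pow_zero, one_smul]⟩
  | succ r ih =>
    intro F hF ht
    have h1 : Crs (go (ZMod p) q) (fun g => rd p (F g)) := by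
      intro g h
      beta_reduce
      rw [hF g h, map_add, map_mul, go_apply, go_apply, rd_single]
      norm_num
    have h2 := hE _ h1 (by rw [ht, map_zero])
    have h3 : ∀ g, ∃ y : MonoidAlgebra ℤ Γ, F g = (p : ℤ) • y := fun g => rd_eq_zero p _ (h2 g)
    choose F₁ hF₁ using h3
    have h4 : Crs (go ℤ q) F₁ := by
      intro g h
      apply canz_ekr hp0
      rw [← hF₁, hF g h, hF₁ g, hF₁ h, smul_add, mul_smul_comm]
    have h5 : F₁ t = 0 := by
      apply canz_ekr hp0
      rw [← hF₁, ht, smul_zero]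
    intro g
    obtain ⟨y, hy⟩ := ih F₁ h4 h5 g
    exact ⟨y, by rw [hF₁ g, hy, smul_smul, pow_succ']⟩

theorem ek_rat {G Γ : Type} [Group G] [Group Γ] (hfg : Group.FG G) (q : G →* Γ) (t : G) (p : ℕ)
    (hp : p.Prime) (hE : EK (ZMod p) q t) : EK ℚ q t := by
  classical
  intro f hf ht
  obtain ⟨S, hS⟩ := hfg.out
  choose n hn y hy using fun g => clr_ekr (f g)
  obtain ⟨N, hN⟩ : ∃ N : ℤ, N = ∏ g ∈ S, n g := ⟨_, rfl⟩
  have hN0 : N ≠ 0 := by
    rw [hN]
    exact Finset.prod_ne_zero_iff.2 fun g _ => hn g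
  have hmul : ∀ g h, ∀ y1 y2 : MonoidAlgebra ℤ Γ, PDG.zq y1 = N • f g → PDG.zq y2 = N • f h →
      PDG.zq (y1 + go ℤ q g * y2) = N • f (g * h) := by
    intro g h y1 y2 h1 h2
    rw [map_add, map_mul, h1, h2, hf g h, smul_add, go_apply, go_apply, PDG.zq_single, Int.cast_one,
      mul_smul_comm]
  let H : Subgroup G :=
    { carrier := {g | ∃ y : MonoidAlgebra ℤ Γ, PDG.zq y = N • f g}
      one_mem' := ⟨0, by rw [map_zero, one_ekr hf, smul_zero]⟩
      mul_mem' := by
        rintro g h ⟨y1, h1⟩ ⟨y2, h2⟩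
        exact ⟨_, hmul g h y1 y2 h1 h2⟩
      inv_mem' := by
        rintro g ⟨y1, h1⟩
        refine ⟨- (go ℤ q g⁻¹ * y1), ?_⟩
        rw [map_neg, map_mul, h1, inv_ekr hf, smul_neg, go_apply, go_apply, PDG.zq_single,
          Int.cast_one, mul_smul_comm] }
  have hH : ∀ g, g ∈ H := by
    have h1 : Subgroup.closure (S : Set G) ≤ H := by
      rw [Subgroup.closure_le]
      intro g hg
      obtain ⟨k, hk⟩ := Finset.dvd_prod_of_mem n (Finset.mem_coe.1 hg)
      refine ⟨k • y g, ?_⟩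
      rw [map_zsmul, hy, smul_smul, hN, hk, mul_comm]
    rw [hS] at h1
    exact fun g => h1 (Subgroup.mem_top g)
  choose F hF using hH
  have hFc : Crs (go ℤ q) F := by
    intro g h
    apply PDG.zq_injective
    rw [hmul g h _ _ (hF g) (hF h), hF]
  have hFt : F t = 0 := by
    apply PDG.zq_injective
    rw [hF, ht, smul_zero, map_zero]
  have hF0 : ∀ g, F g = 0 := by
    intro g
    ext b
    by_contra hne
    have h1 : (F g).coeff b ≠ 0 := by
      intro h0
      apply hne
      rw [h0]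
      simp
    obtain ⟨z, hz⟩ := pw_ekr q t p hp hE ((F g).coeff b).natAbs F hFc hFt g
    have h2 : ((p : ℤ) ^ ((F g).coeff b).natAbs) ∣ (F g).coeff b := by
      have h3 := congrArg (fun z : MonoidAlgebra ℤ Γ => z.coeff b) hz
      simp only [MonoidAlgebra.coeff_smul_apply, smul_eq_mul] at h3
      exact ⟨_, h3⟩
    have h3 : p ^ ((F g).coeff b).natAbs ∣ ((F g).coeff b).natAbs := by
      have h4 := Int.natAbs_dvd_natAbs.2 h2
      rwa [Int.natAbs_pow, Int.natAbs_natCast] at h4
    have h4 := Nat.le_of_dvd (Int.natAbs_pos.2 h1) h3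
    exact absurd (Nat.lt_pow_self hp.one_lt) (not_lt.2 h4)
  intro g
  apply canq_ekr hN0
  rw [← hF g, hF0 g, map_zero]

end Pool.Agent.PDH
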