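import Pool.Agent.PDH.CoreH

/-!
# PDH, module FinalC (helper41): quotients of rank zero

THEOREM C.  Let `G` be a `PD_3`-group, `H` a subgroup of finite index which contains a term of the derived series of `G`,
`K` the intersection of the derived series of `G`, and `π : H → S` onto with kernel `K`.  Suppose that `S` has a
descending series `N n` with torsion free abelian factors and trivial intersection and that for some `n` and some
`t ∈ H` with `π t ∉ N n` crossed homomorphisms from `H` to `ℚ[S / N n]` which vanish at `t` are zero.  Then `K` is perfect.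
-/

set_option autoImplicit false

namespace Pool.Agent.PDH

open Pool.Agent.HFT Pool.Agent.PDG Pool.Agent.PDF Matrix

theorem finalC (G : Type) [Group G] (hG : IsPD3 G) (H : Subgroup G) [H.FiniteIndex] (k : ℕ)
    (hk : derivedSeries G k ≤ H) {S : Type} [Group S] (π : H →* S)
    (hπ : Function.Surjective π)
    (hker : π.ker = (⨅ n : ℕ, derivedSeries G n).subgroupOf H)
    (N : ℕ → Subgroup S) [∀ n, (N n).Normal] (hN : PDG.Ser N) (t : H) (n₀ : ℕ) (ht : π t ∉ N n₀)
    (hE : EK ℚ ((QuotientGroup.mk' (N n₀)).comp π) t) :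
    ⁅⨅ n : ℕ, derivedSeries G n, ⨅ n : ℕ, derivedSeries G n⁆ = ⨅ n : ℕ, derivedSeries G n ∧
      ((∀ H : Subgroup G, ⁅H, H⁆ = H → H = ⊥) → ⨅ n : ℕ, derivedSeries G n = ⊥) := by
  set K : Subgroup G := ⨅ n : ℕ, derivedSeries G n with hKdef
  have hKH : K ≤ H := (iInf_le _ k).trans hk
  have hK : ∀ n, π.ker ≤ derivedSeries H n := by
    intro n x hx
    rw [hker, Subgroup.mem_subgroupOf] at hx
    have h1 : (x : G) ∈ derivedSeries G (k + n) := (iInf_le (derivedSeries G) (k + n)) hx
    obtain ⟨y, hy, hyx⟩ := derived_sub H k hk n h1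
    have : y = x := Subtype.ext hyx
    rwa [← this]
  have h1 := coreH H (pd3_finiteIndex G hG H) π hπ N hN hK t n₀ ht hE
  have hmap : π.ker.map H.subtype = K := by
    rw [hker, Subgroup.subgroupOf_map_subtype, inf_eq_left.2 hKH]
  have h2 : K ≤ ⁅K, K⁆ := by
    have := Subgroup.map_mono (f := H.subtype) h1
    rwa [Subgroup.map_commutator, hmap] at this
  have h3 : ⁅K, K⁆ ≤ K := by
    rw [Subgroup.commutator_le]
    intro a ha b hb
    exact K.mul_mem (K.mul_mem (K.mul_mem ha hb) (K.inv_mem ha)) (K.inv_mem hb)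
  have h4 : ⁅K, K⁆ = K := le_antisymm h3 h2
  exact ⟨h4, fun h => h K h4⟩

end Pool.Agent.PDH
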