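import Pool.Agent.PDH.CoreH
import Pool.Agent.PDH.DerTF
import Pool.Agent.PDH.EkRat
import Pool.Agent.PDH.EkCyc

/-!
# Blueprint PDH, module FinalH (helper41)

THEOREM H.  Let `G` be a `PD_3`-group and `H` a subgroup of finite index which contains a term of the derived series of `G`.
If `H / H'` is infinite cyclic then the intersection `K` of the derived series of `G` is perfect.  More generally this holds
if `H / H'` is torsion free and there is `t ∈ H`, not in `H'`, such that for all primes `p` every crossed homomorphism from `H`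
to `(ℤ/p)[H / H']` which vanishes at `t` is zero.

PROOF.  `H` is a `PD_3`-group, and `K` is the intersection of its derived series `D n`.  By `der_tf` the factors of the derived
series of `H` are torsion free, so the images of the `D n` in `S = H / K` are a series as in `Ser`.  The
condition on crossed homomorphisms over `ℤ/p` implies the one over `ℚ` (`ek_rat`).  Apply `coreH`.
-/

set_option autoImplicit false

namespace Pool.Agent.PDH

open Pool.Agent.HFT Pool.Agent.PDG Pool.Agent.PDF Matrix

/-- the case `H = G` -/
theorem coreD (G : Type) [Group G] (hG : IsPD3 G)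
    (htf : ∀ (g : G) (k : ℕ), k ≠ 0 → g ^ k ∈ commutator G → g ∈ commutator G) (t : G)
    (ht : t ∉ commutator G)
    (hE : ∀ p : ℕ, p.Prime → EK (ZMod p) (QuotientGroup.mk' (commutator G)) t) :
    (⨅ n : ℕ, derivedSeries G n) ≤ ⁅⨅ n : ℕ, derivedSeries G n, ⨅ n : ℕ, derivedSeries G n⁆ := by
  have hfg : Group.FG G := pd3_fg G hG
  set K : Subgroup G := ⨅ n : ℕ, derivedSeries G n with hKdef
  have hKn : K.Normal := by
    rw [hKdef]
    infer_instance
  have hKD : ∀ n, K ≤ derivedSeries G n := fun n => iInf_le _ n
  set π : G →* G ⧸ K := QuotientGroup.mk' K with hπdef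
  have hπ : Function.Surjective π := QuotientGroup.mk'_surjective K
  have hker : π.ker = K := QuotientGroup.ker_mk' K
  let N : ℕ → Subgroup (G ⧸ K) := fun n => (derivedSeries G n).map π
  have hNn : ∀ n, (N n).Normal := fun n => Subgroup.Normal.map inferInstance π hπ
  have hmem : ∀ (n : ℕ) (x : G), π x ∈ N n → x ∈ derivedSeries G n := by
    rintro n x ⟨y, hy, hyx⟩
    have h1 : y⁻¹ * x ∈ π.ker := by
      rw [MonoidHom.mem_ker, map_mul, map_inv, hyx, inv_mul_cancel]
    rw [hker] at h1
    have h2 := mul_mem hy (hKD n h1)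
    rwa [mul_inv_cancel_left] at h2
  have hser := der_tf hG htf t ht hE
  have hN : PDG.Ser N := by
    refine ⟨?_, ?_, ?_, ?_, ?_⟩
    · change (derivedSeries G 0).map π = ⊤
      rw [derivedSeries_zero, Subgroup.map_top_of_surjective _ hπ]
    · intro n
      exact Subgroup.map_mono (derivedSeries_antitone (G := G) (Nat.le_succ n))
    · intro n
      change ⁅(derivedSeries G n).map π, (derivedSeries G n).map π⁆ ≤
        (derivedSeries G (n + 1)).map π
      rw [← Subgroup.map_commutator, derivedSeries_succ]
    · intro n g k hk hg hgk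
      obtain ⟨x, rfl⟩ := hπ g
      rw [← map_pow] at hgk
      exact Subgroup.mem_map_of_mem π ((hser (n + 1)).tf n (Nat.lt_succ_self n) x k hk
        (hmem n x hg) (hmem (n + 1) _ hgk))
    · intro g hg
      obtain ⟨x, rfl⟩ := hπ g
      have h1 : x ∈ K := by
        rw [hKdef, Subgroup.mem_iInf]
        exact fun n => hmem n x (hg n)
      rw [← hker] at h1
      exact h1
  have h1 := coreH G hG π hπ N hN (by rw [hker]; exact hKD) t 1
    (by
      intro h
      have h2 := hmem 1 t h
      rw [derivedSeries_one] at h2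
      exact ht h2)
    (by
      have hψ1 : ∀ x : G ⧸ K, x ∈ N 1 →
          (QuotientGroup.lift K (QuotientGroup.mk' (commutator G)) (fun x hx =>
            (QuotientGroup.eq_one_iff x).2 (by
              have := hKD 1 hx
              rwa [derivedSeries_one] at this))) x = 1 := by
        rintro x ⟨y, hy, rfl⟩
        have hy' : y ∈ commutator G := by
          have : y ∈ derivedSeries G 1 := hy
          rwa [derivedSeries_one] at this
        exact (QuotientGroup.eq_one_iff y).2 hy'
      refine ek_inj ℚ _ (QuotientGroup.lift (N 1) _ hψ1) ?_ t ?_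
      · rw [← MonoidHom.ker_eq_bot_iff, eq_bot_iff]
        intro g hg
        obtain ⟨g', rfl⟩ := QuotientGroup.mk'_surjective (N 1) g
        obtain ⟨x, rfl⟩ := hπ g'
        have h3 : (QuotientGroup.mk x : G ⧸ commutator G) = 1 := hg
        rw [QuotientGroup.eq_one_iff, ← derivedSeries_one] at h3
        exact (QuotientGroup.eq_one_iff _).2 (Subgroup.mem_map_of_mem π h3)
      · exact ek_rat hfg (QuotientGroup.mk' (commutator G)) t 2 Nat.prime_two
          (hE 2 Nat.prime_two))
  rwa [hker] at h1

theorem finalH (G : Type) [Group G] (hG : IsPD3 G) (H : Subgroup G) [H.FiniteIndex] (k : ℕ)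
    (hk : derivedSeries G k ≤ H)
    (hyp : Nonempty (Abelianization H ≃* Multiplicative ℤ) ∨
      ((∀ (g : H) (k : ℕ), k ≠ 0 → g ^ k ∈ commutator H → g ∈ commutator H) ∧
        ∃ t : H, t ∉ commutator H ∧
          ∀ p : ℕ, p.Prime → EK (ZMod p) (QuotientGroup.mk' (commutator H)) t)) :
    ⁅⨅ n : ℕ, derivedSeries G n, ⨅ n : ℕ, derivedSeries G n⁆ = ⨅ n : ℕ, derivedSeries G n ∧
      ((∀ H : Subgroup G, ⁅H, H⁆ = H → H = ⊥) → ⨅ n : ℕ, derivedSeries G n = ⊥) := by
  have hH : IsPD3 H := pd3_finiteIndex G hG H
  have hfg : Group.FG H := pd3_fg H hH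
  obtain ⟨htf, t, ht, hE⟩ : ((∀ (g : H) (k : ℕ), k ≠ 0 → g ^ k ∈ commutator H →
      g ∈ commutator H) ∧ ∃ t : H, t ∉ commutator H ∧
      ∀ p : ℕ, p.Prime → EK (ZMod p) (QuotientGroup.mk' (commutator H)) t) := by
    rcases hyp with ⟨⟨e⟩⟩ | h
    · have hof : ∀ g : H, e (Abelianization.of g) = 1 → g ∈ commutator H := by
        intro g hg
        rw [← Abelianization.ker_of, MonoidHom.mem_ker]
        exact e.injective (by rw [hg, map_one])
      have hof' : ∀ g : H, g ∈ commutator H → e (Abelianization.of g) = 1 := by
        intro g hg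
        rw [← Abelianization.ker_of, MonoidHom.mem_ker] at hg
        rw [hg, map_one]
      obtain ⟨a, ha⟩ := e.surjective (Multiplicative.ofAdd 1)
      obtain ⟨t, rfl⟩ : ∃ t : H, Abelianization.of t = a := QuotientGroup.mk_surjective a
      refine ⟨?_, t, ?_, ?_⟩
      · intro g n hn hg
        apply hof
        have h1 := hof' _ hg
        rw [map_pow, map_pow] at h1
        have h2 : n • (e (Abelianization.of g)).toAdd = 0 := by
          have := congrArg Multiplicative.toAdd h1
          rwa [toAdd_pow] at this
        have h3 : (e (Abelianization.of g)).toAdd = 0 := by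
          rcases smul_eq_zero.1 h2 with h | h
          · exact absurd h hn
          · exact h
        exact Multiplicative.toAdd.injective h3
      · intro h
        have h1 := hof' t h
        rw [ha] at h1
        have h2 : (1 : ℤ) = 0 := congrArg Multiplicative.toAdd h1
        exact one_ne_zero h2
      · intro p hp
        have : Fact p.Prime := ⟨hp⟩
        exact ek_cyc (ZMod p) hfg e t ha
    · exact h
  set K : Subgroup G := ⨅ n : ℕ, derivedSeries G n with hKdef
  have hKH : K ≤ H := (iInf_le _ k).trans hk
  have hmap : (⨅ n : ℕ, derivedSeries H n).map H.subtype = K := by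
    apply le_antisymm
    · rw [hKdef]
      refine le_iInf fun n => ?_
      refine (Subgroup.map_mono (iInf_le _ n)).trans ?_
      exact map_derivedSeries_le_derivedSeries H.subtype n
    · intro x hx
      refine ⟨⟨x, hKH hx⟩, ?_, rfl⟩
      rw [SetLike.mem_coe, Subgroup.mem_iInf]
      intro n
      have h1 : x ∈ derivedSeries G (k + n) := (iInf_le (derivedSeries G) (k + n)) hx
      obtain ⟨y, hy, hyx⟩ := derived_sub H k hk n h1
      have : y = ⟨x, hKH hx⟩ := Subtype.ext hyx
      rwa [← this]
  have h1 := coreD H hH htf t ht hE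
  have h2 : K ≤ ⁅K, K⁆ := by
    have := Subgroup.map_mono (f := H.subtype) h1
    rwa [Subgroup.map_commutator, hmap] at this
  have h3 : ⁅K, K⁆ ≤ K := by
    rw [Subgroup.commutator_le]
    intro a ha b hb
    exact K.mul_mem (K.mul_mem (K.mul_mem ha hb) (K.inv_mem ha)) (K.inv_mem hb)
  have h4 : ⁅K, K⁆ = K := le_antisymm h3 h2
  exact ⟨h4, fun h => h K h4⟩

end Pool.Agent.PDH
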