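import Pool.Agent.PDG.Defs

/-!
# PDH: group rings over an arbitrary field, definitions and basic lemmas (helper41)

`KB B`: the elements of `k[Γ]` with support in the subgroup `B`; `DB θ B`: the division subring generated by the
image of `k[B]`; `OreEmb θ`: `θ` embeds `k[Γ]` in a division ring such that the `DB θ B` consist of right fractions;
`SolvB k B`: linear systems over `k[B]` with more unknowns than equations have nontrivial solutions.
(The same for `k = ℚ` is in `PDG`.)
-/

set_option autoImplicit false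

namespace Pool.Agent.PDH

open Pool.Agent.PDF

/-- elements of the group ring over `k` supported in a subgroup -/
noncomputable def KB {k : Type} [Field k] {Γ : Type} [Group Γ] (B : Subgroup Γ) :
    Subring (MonoidAlgebra k Γ) :=
  (MonoidAlgebra.mapDomainRingHom k B.subtype).range

/-- the division subring generated by the image of the group ring of a subgroup -/
def DB {k : Type} [Field k] {Γ : Type} [Group Γ] {D : Type} [DivisionRing D]
    (θ : MonoidAlgebra k Γ →+* D) (B : Subgroup Γ) : Subfield D :=
  Subfield.closure (θ '' ((KB (k := k) B : Subring (MonoidAlgebra k Γ)) : Set (MonoidAlgebra k Γ)))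

/-- `θ` is an embedding in a division ring whose division subrings `DB θ B` consist of right fractions -/
structure OreEmb {k : Type} [Field k] {Γ : Type} [Group Γ] {D : Type} [DivisionRing D]
    (θ : MonoidAlgebra k Γ →+* D) : Prop where
  inj : Function.Injective θ
  fr : ∀ (B : Subgroup Γ) (x : D), x ∈ DB θ B →
    ∃ a ∈ KB B, ∃ s ∈ KB B, θ s ≠ 0 ∧ x * θ s = θ a

/-- more unknowns than equations: nontrivial solutions over the group ring of `B` -/
def SolvB (k : Type) [Field k] {Γ : Type} [Group Γ] (B : Subgroup Γ) : Prop :=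
  ∀ (m n : ℕ), m < n → ∀ A : Matrix (Fin m) (Fin n) (MonoidAlgebra k Γ), (∀ i j, A i j ∈ KB B) →
    ∃ v : Fin n → MonoidAlgebra k Γ, v ≠ 0 ∧ (∀ j, v j ∈ KB B) ∧ A.mulVec v = 0

variable {k : Type} [Field k] {Γ : Type} [Group Γ]

theorem single_mem_KB' {B : Subgroup Γ} {g : Γ} (hg : g ∈ B) (r : k) :
    MonoidAlgebra.single g r ∈ KB B :=
  ⟨MonoidAlgebra.single ⟨g, hg⟩ r, by simp⟩

theorem coeff_range (B : Subgroup Γ) (x' : MonoidAlgebra k B) :
    ∀ g, (MonoidAlgebra.mapDomainRingHom k B.subtype x').coeff g ≠ 0 → g ∈ B := by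
  classical
  induction x' using MonoidAlgebra.induction_linear with
  | zero => intro g hg; simp at hg
  | add f g hf hg =>
    intro a ha
    rw [map_add, MonoidAlgebra.coeff_add, Finsupp.add_apply] at ha
    by_cases h : (MonoidAlgebra.mapDomainRingHom k B.subtype f).coeff a = 0
    · apply hg
      intro h2
      exact ha (by rw [h, h2, add_zero])
    · exact hf a h
  | single b r =>
    intro g hg
    have e : MonoidAlgebra.mapDomainRingHom k B.subtype (MonoidAlgebra.single b r) =
        MonoidAlgebra.single (b : Γ) r := by simp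
    rw [e, MonoidAlgebra.coeff_single, Finsupp.single_apply] at hg
    split_ifs at hg with h
    · rw [← h]; exact b.2
    · exact absurd rfl hg

theorem mem_KB {B : Subgroup Γ} {x : MonoidAlgebra k Γ} :
    x ∈ KB B ↔ ∀ g, x.coeff g ≠ 0 → g ∈ B := by
  constructor
  · rintro ⟨x', rfl⟩
    exact coeff_range B x'
  · intro h
    rw [← MonoidAlgebra.sum_coeff_single x, Finsupp.sum]
    apply Subring.sum_mem
    intro g hg
    exact single_mem_KB' (h g (Finsupp.mem_support_iff.1 hg)) _

theorem KB_mono {B C : Subgroup Γ} (h : B ≤ C) : KB (k := k) B ≤ KB C := by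
  intro x hx
  rw [mem_KB] at hx ⊢
  exact fun g hg => h (hx g hg)

theorem single_mem_KB {B : Subgroup Γ} {g : Γ} (hg : g ∈ B) (r : k) :
    MonoidAlgebra.single g r ∈ KB B := by
  exact single_mem_KB' hg r

/-- every element of `k[B]` has its support in a finite subset of `B` -/
theorem KB_finset {B : Subgroup Γ} {x : MonoidAlgebra k Γ} (hx : x ∈ KB B) :
    ∃ E : Finset Γ, (∀ g ∈ E, g ∈ B) ∧ x ∈ KB (Subgroup.closure (E : Set Γ)) := by
  refine ⟨x.coeff.support, ?_, ?_⟩
  · intro g hg
    exact mem_KB.1 hx g (Finsupp.mem_support_iff.1 hg)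
  · rw [mem_KB]
    intro g hg
    exact Subgroup.subset_closure (Finset.mem_coe.2 (Finsupp.mem_support_iff.2 hg))

/-- induction principle -/
theorem KB_induction {B : Subgroup Γ} {p : MonoidAlgebra k Γ → Prop} (h0 : p 0)
    (h1 : ∀ g ∈ B, ∀ r : k, p (MonoidAlgebra.single g r))
    (h2 : ∀ x y, p x → p y → p (x + y)) {x : MonoidAlgebra k Γ} (hx : x ∈ KB B) : p x := by
  obtain ⟨x', rfl⟩ := hx
  induction x' using MonoidAlgebra.induction_linear with
  | zero => rw [map_zero]; exact h0
  | add f g hf hg => rw [map_add]; exact h2 _ _ hf hg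
  | single b r =>
    have e : MonoidAlgebra.mapDomainRingHom k B.subtype (MonoidAlgebra.single b r) =
        MonoidAlgebra.single (b : Γ) r := by simp
    rw [e]
    exact h1 _ b.2 r

theorem DB_mono {D : Type} [DivisionRing D] (θ : MonoidAlgebra k Γ →+* D) {B C : Subgroup Γ}
    (h : B ≤ C) : DB θ B ≤ DB θ C := by
  exact Subfield.closure_mono (Set.image_mono (KB_mono h))

theorem mem_DB_of_KB {D : Type} [DivisionRing D] (θ : MonoidAlgebra k Γ →+* D) {B : Subgroup Γ}
    {x : MonoidAlgebra k Γ} (hx : x ∈ KB B) : θ x ∈ DB θ B := by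
  exact Subfield.subset_closure ⟨x, hx, rfl⟩

theorem DB_single {D : Type} [DivisionRing D] (θ : MonoidAlgebra k Γ →+* D) (B : Subgroup Γ) :
    DB θ B = Subfield.closure {x | ∃ b ∈ B, ∃ r : k, x = θ (MonoidAlgebra.single b r)} := by
  apply le_antisymm
  · apply Subfield.closure_le.2
    rintro _ ⟨x, hx, rfl⟩
    refine KB_induction (p := fun x => θ x ∈ Subfield.closure
      {x | ∃ b ∈ B, ∃ r : k, x = θ (MonoidAlgebra.single b r)}) ?_ ?_ ?_ hx
    · rw [map_zero]; exact Subfield.zero_mem _
    · intro g hg r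
      exact Subfield.subset_closure ⟨g, hg, r, rfl⟩
    · intro x y hx hy
      rw [map_add]
      exact Subfield.add_mem _ hx hy
  · apply Subfield.closure_le.2
    rintro _ ⟨b, hb, r, rfl⟩
    exact mem_DB_of_KB θ (single_mem_KB hb r)

end Pool.Agent.PDH
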