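import Pool.Agent.PDH.LPa

/-!
# Blueprint PDH, module LPb (helper41): division with remainder for skew Laurent polynomials

PROOF of `lp_norm`.  `s = ∑ i ∈ F, T ^ i * c i`, where we may assume `c i ≠ 0` for `i ∈ F` (filter), `F` nonempty; `a` the
smallest and `b` the largest element of `F`.  Take `j = -a`, `k = (b - a).toNat`, `c' i = c (a + i)` if `a + i ∈ F`, else
`0` (reindex the sum).
PROOF of `lp_euclid`.  Put `s = ∑ i ∈ range (k+1), T ^ i * c i`.  Let `W` be the set of the `a` for which the claim holds,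
closed under sums.  By `lp_induction` it is enough to treat `a = T ^ i * d`.  First `i ≥ 0`, by strong induction on `i`:
for `i < k` take `y = 0`.  For `i ≥ k`: `y₀ = T ^ (i-k) * ((T ^ (-(i-k)) * c k * T ^ (i-k))⁻¹ * d) ∈ LP` (`lp_pw`, `hinv`); the
term of `s * y₀` for the index `k` is `T ^ k * c k * T ^ (i-k) * (..)⁻¹ * d = T ^ i * d`, and the terms for `l < k` are
`T ^ l * c l * T ^ (i-k) * (..) = T ^ (l+i-k) * (element of Δ)` with `0 ≤ l + i - k < i`; so `T ^ i * d - s * y₀` is a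
sum of such terms and the induction hypothesis applies.  For `i < 0` in the same way, by induction on `-i`, with `c 0`
instead of `c k`: `y₀ = T ^ i * ((T ^ (-i) * c 0 * T ^ i)⁻¹ * d)`, the other terms of `s * y₀` have the exponents
`l + i`, `0 < l ≤ k`, which are `> i`, and `< k`.
PROOF of `lp_uniq`.  Suppose `y ≠ 0`, `y = ∑ i ∈ F, T ^ i * y i`, with `y i ≠ 0` for `i ∈ F`; let `a` be the smallest, `b` the
largest element of `F`.  Expand `s * y = ∑ l i, T ^ (l+i) * ((T ^ (-i) * c l * T ^ i) * y i)` and compare coefficients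
(`Ind`, applied to a large finite set of exponents) with `∑ i ∈ range k, T ^ i * r i`: the coefficient at `k + b` on
the left is `(T ^ (-b) * c k * T ^ b) * y b ≠ 0`, so `0 ≤ k + b < k`, `b < 0`; the coefficient at `a` on the left is
`(T ^ (-a) * c 0 * T ^ a) * y a ≠ 0`, so `0 ≤ a`; but `a ≤ b`.
-/

set_option autoImplicit false

namespace Pool.Agent.PDH

variable {D : Type} [DivisionRing D] {Δ : Subring D} {T : D}

theorem lp_norm (hT : T ≠ 0) {s : D} (hs : s ∈ LP Δ T) (hs0 : s ≠ 0) :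
    ∃ (j : ℤ) (k : ℕ) (c : ℕ → D), (∀ i, c i ∈ Δ) ∧ c 0 ≠ 0 ∧ c k ≠ 0 ∧
      T ^ j * s = ∑ i ∈ Finset.range (k + 1), T ^ i * c i := by
  classical
  obtain ⟨F, c, hc, hsum⟩ := hs
  set F' := F.filter (fun i => c i ≠ 0) with hF'
  have hsum' : s = ∑ i ∈ F', T ^ i * c i := by
    rw [hsum, hF', Finset.sum_filter]
    apply Finset.sum_congr rfl
    intro i _
    by_cases h : c i = 0
    · simp [h]
    · simp [h]
  have hne : F'.Nonempty := by
    rw [Finset.nonempty_iff_ne_empty]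
    intro h
    rw [h, Finset.sum_empty] at hsum'
    exact hs0 hsum'
  set a := F'.min' hne with ha
  set b := F'.max' hne with hb
  have haF : a ∈ F' := F'.min'_mem hne
  have hbF : b ∈ F' := F'.max'_mem hne
  have hab : a ≤ b := F'.min'_le b hbF
  have hmem : ∀ i ∈ F', c i ≠ 0 := fun i hi => (Finset.mem_filter.mp hi).2
  refine ⟨-a, (b - a).toNat, fun i => if a + i ∈ F' then c (a + i) else 0, ?_, ?_, ?_, ?_⟩
  · intro i
    dsimp only
    split_ifs
    · exact hc _
    · exact Δ.zero_mem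
  · simp only [Nat.cast_zero, add_zero, if_pos haF]
    exact hmem a haF
  · have h1 : a + ((b - a).toNat : ℤ) = b := by omega
    simp only [h1, if_pos hbF]
    exact hmem b hbF
  · have h2 : ∑ i ∈ Finset.range ((b - a).toNat + 1), T ^ i * (if a + i ∈ F' then c (a + i) else 0)
        = ∑ i ∈ (Finset.range ((b - a).toNat + 1)).filter (fun i : ℕ => a + i ∈ F'),
          T ^ i * c (a + i) := by
      rw [Finset.sum_filter]
      apply Finset.sum_congr rfl
      intro i _
      split_ifs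
      · rfl
      · simp
    rw [h2, hsum', Finset.mul_sum]
    symm
    refine Finset.sum_nbij' (fun i : ℕ => a + i) (fun i : ℤ => (i - a).toNat) ?_ ?_ ?_ ?_ ?_
    · intro i hi
      exact (Finset.mem_filter.mp hi).2
    · intro i hi
      have h3 : a ≤ i := F'.min'_le i hi
      have h4 : i ≤ b := F'.le_max' i hi
      have h5 : a + ((i - a).toNat : ℤ) = i := by omega
      rw [Finset.mem_filter, Finset.mem_range, h5]
      exact ⟨by omega, hi⟩
    · intro i _
      simp
    · intro i hi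
      have h3 : a ≤ i := F'.min'_le i hi
      omega
    · intro i _
      rw [← mul_assoc, ← zpow_add₀ hT, ← zpow_natCast]
      congr 2
      ring

theorem lp_conj_ne (hT : T ≠ 0) (i : ℤ) {c : D} (hc : c ≠ 0) : T ^ (-i) * c * T ^ i ≠ 0 :=
  mul_ne_zero (mul_ne_zero (zpow_ne_zero _ hT) hc) (zpow_ne_zero _ hT)

theorem lp_term_mul (hT : T ≠ 0) (l i : ℤ) (c e : D) :
    (T ^ l * c) * (T ^ i * e) = T ^ (l + i) * ((T ^ (-i) * c * T ^ i) * e) := by
  have h1 : T ^ (l + i) * ((T ^ (-i) * c * T ^ i) * e) =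
      (T ^ (l + i) * T ^ (-i)) * c * (T ^ i * e) := by
    simp only [mul_assoc]
  rw [h1, ← zpow_add₀ hT]
  congr 3
  ring

/-- the claim of `lp_euclid` -/
def EucP (Δ : Subring D) (T : D) (k : ℕ) (c : ℕ → D) (a : D) : Prop :=
  ∃ y ∈ LP Δ T, ∃ r : ℕ → D, (∀ i, r i ∈ Δ) ∧
      a = (∑ i ∈ Finset.range (k + 1), T ^ i * c i) * y + ∑ i ∈ Finset.range k, T ^ i * r i

theorem eucP_zero (k : ℕ) (c : ℕ → D) : EucP Δ T k c 0 :=
  ⟨0, lp_zero, fun _ => 0, fun _ => Δ.zero_mem, by simp⟩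

theorem eucP_add (k : ℕ) (c : ℕ → D) (x y : D) (hx : EucP Δ T k c x) (hy : EucP Δ T k c y) :
    EucP Δ T k c (x + y) := by
  obtain ⟨u, hu, r, hr, h1⟩ := hx
  obtain ⟨v, hv, r', hr', h2⟩ := hy
  refine ⟨u + v, lp_add hu hv, fun i => r i + r' i, fun i => Δ.add_mem (hr i) (hr' i), ?_⟩
  rw [h1, h2, mul_add]
  simp only [mul_add, Finset.sum_add_distrib]
  abel

theorem eucP_sum (k : ℕ) (c : ℕ → D) {α : Type} (s : Finset α) (f : α → D)
    (h : ∀ a ∈ s, EucP Δ T k c (f a)) : EucP Δ T k c (∑ a ∈ s, f a) := by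
  classical
  induction s using Finset.induction_on with
  | empty =>
    rw [Finset.sum_empty]
    exact eucP_zero k c
  | insert a s ha ih =>
    rw [Finset.sum_insert ha]
    exact eucP_add k c _ _ (h a (Finset.mem_insert_self a s))
      (ih fun b hb => h b (Finset.mem_insert_of_mem hb))

theorem eucP_step (h : Nrm Δ T) (hinv : ∀ c ∈ Δ, c⁻¹ ∈ Δ) (k : ℕ) (c : ℕ → D)
    (hc : ∀ i, c i ∈ Δ) (p : ℕ) (hp : p ∈ Finset.range (k + 1)) (hcp : c p ≠ 0) (i : ℤ) (d : D)
    (hd : d ∈ Δ)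
    (hP : ∀ l ∈ Finset.range (k + 1), l ≠ p → ∀ e ∈ Δ, EucP Δ T k c (T ^ ((l : ℤ) - p + i) * e)) :
    EucP Δ T k c (T ^ i * d) := by
  classical
  have hT := h.ne
  set m : ℤ := i - p with hm
  set e : D := (T ^ (-m) * c p * T ^ m)⁻¹ * d with he
  have hne := lp_conj_ne hT m hcp
  have heΔ : e ∈ Δ := Δ.mul_mem (hinv _ (lp_pw h m (hc p))) hd
  have hS : (∑ l ∈ Finset.range (k + 1), T ^ l * c l) * (T ^ m * e) =
      T ^ i * d + ∑ l ∈ (Finset.range (k + 1)).erase p,
        T ^ ((l : ℤ) - p + i) * ((T ^ (-m) * c l * T ^ m) * e) := by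
    rw [Finset.sum_mul, ← Finset.add_sum_erase _ _ hp]
    congr 1
    · rw [← zpow_natCast, lp_term_mul hT, he, ← mul_assoc (T ^ (-m) * c p * T ^ m),
        mul_inv_cancel₀ hne, one_mul]
      congr 2
      rw [hm]
      ring
    · apply Finset.sum_congr rfl
      intro l _
      rw [← zpow_natCast, lp_term_mul hT]
      congr 2
      rw [hm]
      ring
  have hmain : T ^ i * d = (∑ l ∈ Finset.range (k + 1), T ^ l * c l) * (T ^ m * e) +
      ∑ l ∈ (Finset.range (k + 1)).erase p,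
        T ^ ((l : ℤ) - p + i) * (-((T ^ (-m) * c l * T ^ m) * e)) := by
    rw [hS]
    simp only [mul_neg, Finset.sum_neg_distrib]
    abel
  rw [hmain]
  apply eucP_add
  · exact ⟨T ^ m * e, lp_term m heΔ, fun _ => 0, fun _ => Δ.zero_mem, by simp⟩
  · apply eucP_sum
    intro l hl
    rw [Finset.mem_erase] at hl
    exact hP l hl.2 hl.1 _ (Δ.neg_mem (Δ.mul_mem (lp_pw h m (hc l)) heΔ))

theorem eucP_nat (h : Nrm Δ T) (hinv : ∀ c ∈ Δ, c⁻¹ ∈ Δ) (k : ℕ) (c : ℕ → D)
    (hc : ∀ i, c i ∈ Δ) (hk : c k ≠ 0) (n : ℕ) :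
    ∀ d ∈ Δ, EucP Δ T k c (T ^ (n : ℤ) * d) := by
  classical
  induction n using Nat.strong_induction_on with
  | _ n ih =>
    intro d hd
    by_cases hn : n < k
    · refine ⟨0, lp_zero, fun i => if i = n then d else 0, ?_, ?_⟩
      · intro i
        dsimp only
        split_ifs
        · exact hd
        · exact Δ.zero_mem
      · rw [mul_zero, zero_add, Finset.sum_eq_single n]
        · simp
        · intro i _ hi
          simp [hi]
        · intro hcon
          exact absurd (Finset.mem_range.mpr hn) hcon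
    · push Not at hn
      apply eucP_step h hinv k c hc k (by simp) hk n d hd
      intro l hl hlk e he
      rw [Finset.mem_range] at hl
      have h1 : (l : ℤ) - k + n = ((l + (n - k) : ℕ) : ℤ) := by omega
      rw [h1]
      exact ih (l + (n - k)) (by omega) e he

theorem eucP_neg (h : Nrm Δ T) (hinv : ∀ c ∈ Δ, c⁻¹ ∈ Δ) (k : ℕ) (c : ℕ → D)
    (hc : ∀ i, c i ∈ Δ) (h0 : c 0 ≠ 0) (hk : c k ≠ 0) (n : ℕ) :
    ∀ d ∈ Δ, EucP Δ T k c (T ^ (-(n : ℤ)) * d) := by
  classical
  induction n using Nat.strong_induction_on with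
  | _ n ih =>
    intro d hd
    by_cases hn : n = 0
    · subst hn
      have := eucP_nat h hinv k c hc hk 0 d hd
      simpa using this
    · apply eucP_step h hinv k c hc 0 (by simp) h0 (-(n : ℤ)) d hd
      intro l hl hl0 e he
      rw [Finset.mem_range] at hl
      by_cases hln : n ≤ l
      · have h1 : (l : ℤ) - ((0 : ℕ) : ℤ) + -(n : ℤ) = ((l - n : ℕ) : ℤ) := by omega
        rw [h1]
        exact eucP_nat h hinv k c hc hk (l - n) e he
      · have h1 : (l : ℤ) - ((0 : ℕ) : ℤ) + -(n : ℤ) = -((n - l : ℕ) : ℤ) := by omega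
        rw [h1]
        exact ih (n - l) (by omega) e he

theorem lp_euclid (h : Nrm Δ T) (hinv : ∀ c ∈ Δ, c⁻¹ ∈ Δ) (k : ℕ) (c : ℕ → D)
    (hc : ∀ i, c i ∈ Δ) (h0 : c 0 ≠ 0) (hk : c k ≠ 0) (a : D) (ha : a ∈ LP Δ T) :
    ∃ y ∈ LP Δ T, ∃ r : ℕ → D, (∀ i, r i ∈ Δ) ∧
      a = (∑ i ∈ Finset.range (k + 1), T ^ i * c i) * y + ∑ i ∈ Finset.range k, T ^ i * r i := by
  refine lp_induction (P := EucP Δ T k c) (eucP_zero k c) ?_ (eucP_add k c) ha
  intro i d hd
  obtain ⟨n, hn⟩ := Int.eq_nat_or_neg i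
  rcases hn with hn | hn
  · rw [hn]
    exact eucP_nat h hinv k c hc hk n d hd
  · rw [hn]
    exact eucP_neg h hinv k c hc h0 hk n d hd

theorem lp_ind (hi : Ind Δ T) {α : Type} (s : Finset α) (f : α → ℤ) (c : α → D)
    (hc : ∀ a, c a ∈ Δ) (hsum : ∑ a ∈ s, T ^ (f a) * c a = 0) (e : ℤ) :
    ∑ a ∈ s with f a = e, c a = 0 := by
  classical
  by_cases he : e ∈ s.image f
  · refine hi (s.image f) (fun e => ∑ a ∈ s with f a = e, c a) ?_ ?_ e he
    · intro e
      exact Δ.sum_mem fun a _ => hc a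
    · rw [← hsum, ← Finset.sum_fiberwise_of_maps_to (s := s) (t := s.image f) (g := f)
        (fun a ha => Finset.mem_image_of_mem f ha)]
      apply Finset.sum_congr rfl
      intro e' _
      rw [Finset.mul_sum]
      apply Finset.sum_congr rfl
      intro a ha
      rw [(Finset.mem_filter.mp ha).2]
  · apply Finset.sum_eq_zero
    intro a ha
    exfalso
    apply he
    rw [Finset.mem_filter] at ha
    rw [← ha.2]
    exact Finset.mem_image_of_mem f ha.1

theorem lp_uniq (h : Nrm Δ T) (hi : Ind Δ T) (k : ℕ) (c : ℕ → D) (hc : ∀ i, c i ∈ Δ)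
    (h0 : c 0 ≠ 0) (hk : c k ≠ 0) (y : D) (hy : y ∈ LP Δ T) (r : ℕ → D) (hr : ∀ i, r i ∈ Δ)
    (he : (∑ i ∈ Finset.range (k + 1), T ^ i * c i) * y = ∑ i ∈ Finset.range k, T ^ i * r i) :
    y = 0 := by
  classical
  by_contra hy0
  have hT := h.ne
  obtain ⟨j, m, y', hy', hy'0, hy'm, hyj⟩ := lp_norm hT hy hy0
  have hyy : y = ∑ i ∈ Finset.range (m + 1), T ^ ((i : ℤ) - j) * y' i := by
    have h1 : y = T ^ (-j) * (T ^ j * y) := by
      rw [← mul_assoc, ← zpow_add₀ hT, neg_add_cancel, zpow_zero, one_mul]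
    rw [h1, hyj, Finset.mul_sum]
    apply Finset.sum_congr rfl
    intro i _
    rw [← mul_assoc, ← zpow_natCast, ← zpow_add₀ hT]
    congr 2
    ring
  set dl : ℕ × ℕ → D := fun p =>
    (T ^ (-((p.2 : ℤ) - j)) * c p.1 * T ^ ((p.2 : ℤ) - j)) * y' p.2 with hdl
  have hdlΔ : ∀ p, dl p ∈ Δ := fun p => Δ.mul_mem (lp_pw h _ (hc p.1)) (hy' p.2)
  set f : (ℕ × ℕ) ⊕ ℕ → ℤ := Sum.elim (fun p => (p.1 : ℤ) + ((p.2 : ℤ) - j)) (fun i => (i : ℤ))
    with hf
  set g : (ℕ × ℕ) ⊕ ℕ → D := Sum.elim dl (fun i => -r i) with hg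
  have hgΔ : ∀ a, g a ∈ Δ := by
    rintro (p | i)
    · exact hdlΔ p
    · exact Δ.neg_mem (hr i)
  have hsum : ∑ a ∈ (Finset.range (k + 1) ×ˢ Finset.range (m + 1)).disjSum (Finset.range k),
      T ^ (f a) * g a = 0 := by
    rw [Finset.sum_disjSum]
    have h1 : ∑ p ∈ Finset.range (k + 1) ×ˢ Finset.range (m + 1), T ^ (f (Sum.inl p)) *
        g (Sum.inl p) = (∑ i ∈ Finset.range (k + 1), T ^ i * c i) * y := by
      rw [hyy, Finset.sum_mul_sum, Finset.sum_product]
      apply Finset.sum_congr rfl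
      intro l _
      apply Finset.sum_congr rfl
      intro i _
      rw [← zpow_natCast, lp_term_mul hT]
      rfl
    have h2 : ∑ i ∈ Finset.range k, T ^ (f (Sum.inr i)) * g (Sum.inr i) =
        -∑ i ∈ Finset.range k, T ^ i * r i := by
      rw [← Finset.sum_neg_distrib]
      apply Finset.sum_congr rfl
      intro i _
      change T ^ (i : ℤ) * (-r i) = _
      rw [zpow_natCast, mul_neg]
    rw [h1, h2, he, add_neg_cancel]
  have hzero := lp_ind hi _ f g hgΔ hsum
  have hA : ∃ i, i < k ∧ ((k : ℤ) + ((m : ℤ) - j)) = i := by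
    by_contra hcon
    push Not at hcon
    have h1 := hzero ((k : ℤ) + ((m : ℤ) - j))
    have h2 : ((Finset.range (k + 1) ×ˢ Finset.range (m + 1)).disjSum (Finset.range k)).filter
        (fun a => f a = (k : ℤ) + ((m : ℤ) - j)) = {Sum.inl (k, m)} := by
      ext a
      rcases a with ⟨l, i⟩ | i
      · simp only [hf, Finset.mem_filter, Finset.inl_mem_disjSum, Finset.mem_product,
          Finset.mem_range, Sum.elim_inl, Finset.mem_singleton, Sum.inl.injEq, Prod.mk.injEq]
        constructor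
        · rintro ⟨⟨h3, h4⟩, h5⟩
          omega
        · rintro ⟨h3, h4⟩
          subst h3
          subst h4
          exact ⟨⟨by omega, by omega⟩, rfl⟩
      · simp only [hf, Finset.mem_filter, Finset.inr_mem_disjSum, Finset.mem_range, Sum.elim_inr,
          Finset.mem_singleton, reduceCtorEq, iff_false, not_and]
        intro h3 h4
        exact hcon i h3 h4.symm
    rw [h2, Finset.sum_singleton] at h1
    exact mul_ne_zero (lp_conj_ne hT _ hk) hy'm h1
  have hB : ∃ i, i < k ∧ (((0 : ℕ) : ℤ) + (((0 : ℕ) : ℤ) - j)) = (i : ℕ) := by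
    by_contra hcon
    push Not at hcon
    have h1 := hzero (((0 : ℕ) : ℤ) + (((0 : ℕ) : ℤ) - j))
    have h2 : ((Finset.range (k + 1) ×ˢ Finset.range (m + 1)).disjSum (Finset.range k)).filter
        (fun a => f a = ((0 : ℕ) : ℤ) + (((0 : ℕ) : ℤ) - j)) = {Sum.inl (0, 0)} := by
      ext a
      rcases a with ⟨l, i⟩ | i
      · simp only [hf, Finset.mem_filter, Finset.inl_mem_disjSum, Finset.mem_product,
          Finset.mem_range, Sum.elim_inl, Finset.mem_singleton, Sum.inl.injEq, Prod.mk.injEq]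
        constructor
        · rintro ⟨⟨h3, h4⟩, h5⟩
          omega
        · rintro ⟨h3, h4⟩
          subst h3
          subst h4
          exact ⟨⟨by omega, by omega⟩, rfl⟩
      · simp only [hf, Finset.mem_filter, Finset.inr_mem_disjSum, Finset.mem_range, Sum.elim_inr,
          Finset.mem_singleton, reduceCtorEq, iff_false, not_and]
        intro h3 h4
        exact hcon i h3 h4.symm
    rw [h2, Finset.sum_singleton] at h1
    exact mul_ne_zero (lp_conj_ne hT _ h0) hy'0 h1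
  obtain ⟨i1, hi1, hA⟩ := hA
  obtain ⟨i2, hi2, hB⟩ := hB
  omega

end Pool.Agent.PDH
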