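import Pool.Agent.PDH.RB
import Pool.Agent.PDH.LPb
import Pool.Agent.PDG.TS

/-!
# Blueprint PDH, module GUn (helper41): skew Laurent polynomials in the ultraproduct

Here `Y : PDG.Sys N` is the system of division rings, `Y.U` the ultraproduct, `PDG.GU Y B` the division subring generated by
`ℚ` and `B`; `χ : S → ℤ` a character, `χ τ = 1`.  `Db Y n B` is `DB (Y.θ n) (B.map mk')` as a subring, `Gb Y B` is
`GU Y B` as a subring.  `PDG.DB = PDH.DB` and `PDG.OreEmb = PDH.OreEmb` for `k = ℚ` up to unfolding (`ore_conv`);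
`Y.a n g = Y.θ n (single (mk' g) 1)` by definition.
PROOF.  `nrm_D`: `nrm_db` (`χ.ker.map mk'` is normal: `mk'` is surjective, `Subgroup.Normal.map`).
`ind_D`: `ind_db`: if `(mk' τ) ^ i ∈ χ.ker.map mk'` then `τ ^ i ∈ χ.ker` because `N n ≤ χ.ker`, so
`χ (τ ^ i) = ofAdd i = 1`, `i = 0`.
`nrm_U`: as `norm` in `PDG.grU` (file `PDG/TS.lean`): conjugation by `Y.A τ` maps the generators of `GU Y χ.ker` to generators
(`R_A`, `χ.ker` normal).
`ind_U`: let `∑ i ∈ F, T ^ i * c i = 0` with `T = Y.A τ`; by `PDG.rep` `c i = mkU (c' i)` with `c' i n ∈ DB (Y.θ n) (..)`, so for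
almost all `n` `∑ i ∈ F, (Y.a n τ) ^ i * c' i n = 0` (`mkU_eq_iff`; `Y.A τ ^ i = mkU (fun n => Y.a n τ ^ i)`, `mkU_inv`) and
`n ≥ n₀` (`PDG.ev_ge`); then `c' i n = 0` for `i ∈ F` by `ind_D`; so `c i = 0` (`N n ≤ N n₀ ≤ χ.ker`: `hN.anti`,
`antitone_nat_of_succ_le`).
`frac_U`: the character `χ` gives `GrData Y.A (fun g => ((χ g).toAdd : ℝ)) (GU Y χ.ker)`: `hτ`, `norm` (as `nrm_U`, for all
elements of `S`), `ker` are clear, `ind` follows from `ind_U`: write `a l = τ ^ (i_l) * b_l`, `b_l ∈ χ.ker`,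
`i_l = (χ (a l)).toAdd` injective in `l`.  `Subfield.closure (GU Y χ.ker ∪ range Y.A) ⊇ GU Y ⊤`.  So
`OVaux.isFr_of_mem` (file `HFT/OV.lean`) gives `s ≠ 0` with `IsPol Y.A (GU Y χ.ker) s`, `IsPol .. (s * x)`; and an
`IsPol` element (a finite sum of `Y.A g * c`, see `HFT/OVa.lean`) is in `LP`:
`Y.A g * c = (Y.A τ) ^ i * (Y.A (τ ^ (-i) * g) * c)`.
`lp_rep`: by `lp_induction`, from `PDG.rep`: for `T ^ i * c`: `y n = (Y.a n τ) ^ i * c' n`.
-/

set_option autoImplicit false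

namespace Pool.Agent.PDH

open Pool.Agent.HFT Pool.Agent.PDG

variable {S : Type} [Group S] {N : ℕ → Subgroup S} [∀ n, (N n).Normal]

theorem ore_conv {Γ : Type} [Group Γ] {D : Type} [DivisionRing D] {θ : MonoidAlgebra ℚ Γ →+* D}
    (h : PDG.OreEmb θ) : PDH.OreEmb θ := ⟨h.inj, h.fr⟩

/-- the division subring of `D n` generated by the image of a subgroup of `S` -/
def Db (Y : PDG.Sys N) (n : ℕ) (B : Subgroup S) : Subring (Y.D n) :=
  (PDG.DB (Y.θ n) (B.map (QuotientGroup.mk' (N n)))).toSubring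

/-- the division subring of the ultraproduct generated by a subgroup of `S` -/
noncomputable def Gb (Y : PDG.Sys N) (B : Subgroup S) : Subring Y.U := (PDG.GU Y B).toSubring

private theorem hzp_gun {G : Type} [Group G] {D : Type} [DivisionRing D] (α : G →* D) (g : G) :
    α g ≠ 0 := by
  intro h
  have h1 : α (g * g⁻¹) = 0 := by rw [map_mul, h, zero_mul]
  rw [mul_inv_cancel, map_one] at h1
  exact one_ne_zero h1

private theorem hinv_gun {G : Type} [Group G] {D : Type} [DivisionRing D] (α : G →* D) (g : G) :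
    α g⁻¹ = (α g)⁻¹ := by
  apply eq_inv_of_mul_eq_one_left
  rw [← map_mul, inv_mul_cancel, map_one]

private theorem hz_gun {G : Type} [Group G] {D : Type} [DivisionRing D] (α : G →* D) (g : G)
    (i : ℤ) : α (g ^ i) = α g ^ i := by
  cases i with
  | ofNat n => rw [Int.ofNat_eq_natCast, zpow_natCast, zpow_natCast, map_pow]
  | negSucc n => rw [zpow_negSucc, zpow_negSucc, hinv_gun, map_pow]

theorem nrm_D (Y : PDG.Sys N) (χ : S →* Multiplicative ℤ) (τ : S) (n : ℕ) :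
    Nrm (Db Y n χ.ker) (Y.a n τ) := by
  have hB : (χ.ker.map (QuotientGroup.mk' (N n))).Normal :=
    Subgroup.Normal.map inferInstance _ (QuotientGroup.mk'_surjective _)
  refine nrm_db (Y.θ n) (χ.ker.map (QuotientGroup.mk' (N n))) (QuotientGroup.mk' (N n) τ) ?_
  intro b
  constructor
  · intro hb
    exact hB.conj_mem b hb _
  · intro hb
    have h1 := hB.conj_mem _ hb (QuotientGroup.mk' (N n) τ)⁻¹
    have h2 : (QuotientGroup.mk' (N n) τ)⁻¹ *
        (QuotientGroup.mk' (N n) τ * b * (QuotientGroup.mk' (N n) τ)⁻¹) *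
        (QuotientGroup.mk' (N n) τ)⁻¹⁻¹ = b := by group
    rwa [h2] at h1

theorem ind_D (Y : PDG.Sys N) (χ : S →* Multiplicative ℤ) (τ : S)
    (hτ : χ τ = Multiplicative.ofAdd 1) (n : ℕ) (hn : N n ≤ χ.ker) :
    Ind (Db Y n χ.ker) (Y.a n τ) := by
  refine ind_db (ore_conv (Y.ore n)) (χ.ker.map (QuotientGroup.mk' (N n)))
    (QuotientGroup.mk' (N n) τ) ?_
  intro i hi
  rw [← map_zpow] at hi
  obtain ⟨b, hb, hbt⟩ := hi
  have h1 : b⁻¹ * τ ^ i ∈ N n := QuotientGroup.eq.1 hbt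
  have h2 : τ ^ i ∈ χ.ker := by
    have h3 := χ.ker.mul_mem hb (hn h1)
    rwa [mul_inv_cancel_left] at h3
  rw [MonoidHom.mem_ker, map_zpow, hτ, ← ofAdd_zsmul, smul_eq_mul, mul_one] at h2
  exact ofAdd_eq_one.1 h2

/-- conjugation by the image of `a` -/
private noncomputable def cj_gun (Y : PDG.Sys N) (a : S) : Y.U →+* Y.U where
  toFun x := Y.A a * x * Y.A a⁻¹
  map_one' := by rw [mul_one, ← map_mul, mul_inv_cancel, map_one]
  map_zero' := by rw [mul_zero, zero_mul]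
  map_add' x y := by rw [mul_add, add_mul]
  map_mul' x y := by
    have h : Y.A a⁻¹ * Y.A a = 1 := by rw [← map_mul, inv_mul_cancel, map_one]
    calc Y.A a * (x * y) * Y.A a⁻¹ = Y.A a * x * 1 * y * Y.A a⁻¹ := by
          simp only [mul_one, mul_assoc]
      _ = Y.A a * x * (Y.A a⁻¹ * Y.A a) * y * Y.A a⁻¹ := by rw [h]
      _ = Y.A a * x * Y.A a⁻¹ * (Y.A a * y * Y.A a⁻¹) := by simp only [mul_assoc]

private theorem cjm_gun (Y : PDG.Sys N) (B : Subgroup S) [hB : B.Normal] (a : S) (x : Y.U)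
    (hx : x ∈ PDG.GU Y B) : Y.A a * x * Y.A a⁻¹ ∈ PDG.GU Y B := by
  have h : PDG.GU Y B ≤ (PDG.GU Y B).comap (cj_gun Y a) := by
    refine Subfield.closure_le.2 ?_
    rintro y (⟨r, rfl⟩ | ⟨b, hb, rfl⟩)
    · show Y.A a * Y.R r * Y.A a⁻¹ ∈ PDG.GU Y B
      rw [← R_A, mul_assoc, ← map_mul, mul_inv_cancel, map_one, mul_one]
      exact R_mem Y _ r
    · show Y.A a * Y.A b * Y.A a⁻¹ ∈ PDG.GU Y B
      rw [← map_mul, ← map_mul]
      exact A_mem Y (hB.conj_mem b hb a)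
  exact h hx

theorem nrm_U (Y : PDG.Sys N) (χ : S →* Multiplicative ℤ) (τ : S) :
    Nrm (Gb Y χ.ker) (Y.A τ) := by
  refine ⟨hzp_gun Y.A τ, ?_, ?_⟩
  · intro c hc
    rw [← hinv_gun]
    exact cjm_gun Y χ.ker τ c hc
  · intro c hc
    have h := cjm_gun Y χ.ker τ⁻¹ c hc
    rw [inv_inv, hinv_gun] at h
    exact h

theorem ind_U (hN : PDG.Ser N) (Y : PDG.Sys N) (χ : S →* Multiplicative ℤ) (τ : S)
    (hτ : χ τ = Multiplicative.ofAdd 1) (n₀ : ℕ) (hn₀ : N n₀ ≤ χ.ker) :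
    Ind (Gb Y χ.ker) (Y.A τ) := by
  intro F c hc hs
  choose y hy hyD using fun i => PDG.rep Y χ.ker (c i) (hc i)
  have hanti : Antitone N := antitone_nat_of_succ_le hN.anti
  have hsum : mkU uf Y.D (∑ i ∈ F, (fun m => Y.a m (τ ^ i)) * y i) = mkU uf Y.D 0 := by
    rw [map_zero, ← hs, map_sum]
    refine Finset.sum_congr rfl fun i _ => ?_
    rw [map_mul, ← hz_gun, Y.A_apply, hy i]
  have hev := mkU_eq_iff.1 hsum
  have hall : ∀ᶠ m in (uf : Filter ℕ), ∀ i ∈ F, y i m = 0 := by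
    filter_upwards [hev, ev_ge n₀] with m hm hm0
    have hD := ind_D Y χ τ hτ m ((hanti hm0).trans hn₀) F (fun i => y i m)
      (fun i => hyD i m) (by
        rw [Finset.sum_apply] at hm
        refine Eq.trans ?_ hm
        refine Finset.sum_congr rfl fun i _ => ?_
        rw [Pi.mul_apply, hz_gun])
    exact hD
  intro i hi
  rw [hy i, ← map_zero (mkU uf Y.D), mkU_eq_iff]
  exact hall.mono fun m hm => hm i hi

private theorem spl_gun (Y : PDG.Sys N) (χ : S →* Multiplicative ℤ) (τ : S)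
    (hτ : χ τ = Multiplicative.ofAdd 1) (g : S) :
    τ ^ (-(χ g).toAdd) * g ∈ χ.ker ∧
      Y.A g = Y.A τ ^ (χ g).toAdd * Y.A (τ ^ (-(χ g).toAdd) * g) := by
  constructor
  · rw [MonoidHom.mem_ker, map_mul, map_zpow, hτ, ← ofAdd_zsmul, smul_eq_mul, mul_one, ofAdd_neg,
      ofAdd_toAdd, inv_mul_cancel]
  · rw [← hz_gun, ← map_mul, ← mul_assoc, ← zpow_add, add_neg_cancel, zpow_zero, one_mul]

private theorem gr_gun (hN : PDG.Ser N) (Y : PDG.Sys N) (χ : S →* Multiplicative ℤ) (τ : S)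
    (hτ : χ τ = Multiplicative.ofAdd 1) (n₀ : ℕ) (hn₀ : N n₀ ≤ χ.ker) :
    GrData Y.A (fun g => ((χ g).toAdd : ℝ)) (PDG.GU Y χ.ker) := by
  refine ⟨?_, ?_, ?_, ?_⟩
  · intro a b
    rw [map_mul, toAdd_mul]
    push_cast
    ring
  · intro a x hx
    exact cjm_gun Y χ.ker a x hx
  · intro a ha
    apply A_mem
    rw [MonoidHom.mem_ker]
    have h1 : (χ a).toAdd = 0 := by exact_mod_cast ha
    exact toAdd_eq_zero.1 h1
  · intro n a c hinj hcl hs l
    have hi : Function.Injective (fun l => (χ (a l)).toAdd) := by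
      intro l l' hl
      apply hinj
      have h1 : (χ (a l)).toAdd = (χ (a l')).toAdd := hl
      show (((χ (a l)).toAdd : ℤ) : ℝ) = (((χ (a l')).toAdd : ℤ) : ℝ)
      rw [h1]
    obtain ⟨e, he⟩ : ∃ e : Fin n → ℤ, e = fun l => (χ (a l)).toAdd := ⟨_, rfl⟩
    obtain ⟨b, hb⟩ : ∃ b : Fin n → S, b = fun l => τ ^ (-(χ (a l)).toAdd) * a l := ⟨_, rfl⟩
    have hbk : ∀ l, b l ∈ χ.ker := by
      intro l
      rw [hb]
      exact (spl_gun Y χ τ hτ (a l)).1
    have hbA : ∀ l, Y.A (a l) = Y.A τ ^ e l * Y.A (b l) := by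
      intro l
      rw [hb, he]
      exact (spl_gun Y χ τ hτ (a l)).2
    rw [← he] at hi
    classical
    have hD := ind_U hN Y χ τ hτ n₀ hn₀ (Finset.univ.image e)
      (Function.extend e (fun l => Y.A (b l) * c l) 0) (by
        intro i
        by_cases h1 : ∃ l, e l = i
        · obtain ⟨l, rfl⟩ := h1
          rw [hi.extend_apply]
          exact (PDG.GU Y χ.ker).mul_mem (A_mem Y (hbk l)) (hcl l)
        · rw [Function.extend_apply' _ _ _ h1]
          exact (PDG.GU Y χ.ker).zero_mem) (by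
        rw [Finset.sum_image fun x _ y _ h => hi h]
        refine Eq.trans ?_ hs
        refine Finset.sum_congr rfl fun l _ => ?_
        rw [hi.extend_apply, hbA, mul_assoc])
    have h2 := hD (e l) (Finset.mem_image_of_mem _ (Finset.mem_univ l))
    rw [hi.extend_apply] at h2
    exact (mul_eq_zero.1 h2).resolve_left (hzp_gun _ _)

private theorem pol_gun (Y : PDG.Sys N) (χ : S →* Multiplicative ℤ) (τ : S)
    (hτ : χ τ = Multiplicative.ofAdd 1) {x : Y.U} (hx : IsPol Y.A (PDG.GU Y χ.ker) x) :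
    x ∈ LP (Gb Y χ.ker) (Y.A τ) := by
  obtain ⟨n, a, c, hc, rfl⟩ := hx
  refine Finset.sum_induction _ (fun z => z ∈ LP (Gb Y χ.ker) (Y.A τ)) (fun z w hz hw => lp_add hz hw)
    lp_zero ?_
  intro l _
  rw [(spl_gun Y χ τ hτ (a l)).2, mul_assoc]
  exact lp_term _ ((PDG.GU Y χ.ker).mul_mem (A_mem Y (spl_gun Y χ τ hτ (a l)).1) (hc l))

theorem frac_U (hN : PDG.Ser N) (Y : PDG.Sys N) (χ : S →* Multiplicative ℤ) (τ : S)
    (hτ : χ τ = Multiplicative.ofAdd 1) (n₀ : ℕ) (hn₀ : N n₀ ≤ χ.ker) (x : Y.U)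
    (hx : x ∈ PDG.GU Y ⊤) :
    ∃ s ∈ LP (Gb Y χ.ker) (Y.A τ), s ≠ 0 ∧ s * x ∈ LP (Gb Y χ.ker) (Y.A τ) := by
  have hx' : x ∈ Subfield.closure (((PDG.GU Y χ.ker : Subfield Y.U) : Set Y.U) ∪
      Set.range Y.A) := by
    have h : PDG.GU Y ⊤ ≤ Subfield.closure (((PDG.GU Y χ.ker : Subfield Y.U) : Set Y.U) ∪
      Set.range Y.A) := by
      refine Subfield.closure_le.2 ?_
      rintro z (⟨r, rfl⟩ | ⟨b, _, rfl⟩)
      · exact Subfield.subset_closure (Or.inl (R_mem Y _ r))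
      · exact Subfield.subset_closure (Or.inr ⟨b, rfl⟩)
    exact h hx
  obtain ⟨s, hs0, hs, hsx⟩ := OVaux.isFr_of_mem (gr_gun hN Y χ τ hτ n₀ hn₀) hx'
  exact ⟨s, pol_gun Y χ τ hτ hs, hs0, pol_gun Y χ τ hτ hsx⟩

theorem lp_rep (Y : PDG.Sys N) (χ : S →* Multiplicative ℤ) (τ : S) (x : Y.U)
    (hx : x ∈ LP (Gb Y χ.ker) (Y.A τ)) :
    ∃ y : ∀ n, Y.D n, x = mkU uf Y.D y ∧ ∀ n, y n ∈ LP (Db Y n χ.ker) (Y.a n τ) := by
  refine lp_induction (P := fun x => ∃ y : ∀ n, Y.D n, x = mkU uf Y.D y ∧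
    ∀ n, y n ∈ LP (Db Y n χ.ker) (Y.a n τ)) ?_ ?_ ?_ hx
  · exact ⟨0, (map_zero _).symm, fun n => lp_zero⟩
  · intro i c hc
    obtain ⟨y, hy, hyD⟩ := PDG.rep Y χ.ker c hc
    refine ⟨(fun m => Y.a m (τ ^ i)) * y, ?_, ?_⟩
    · rw [map_mul, ← hz_gun, Y.A_apply, hy]
    · intro n
      rw [Pi.mul_apply, hz_gun]
      exact lp_term i (hyD n)
  · rintro x x' ⟨y, hy, hyD⟩ ⟨y', hy', hyD'⟩
    exact ⟨y + y', by rw [map_add, hy, hy'], fun n => lp_add (hyD n) (hyD' n)⟩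

end Pool.Agent.PDH
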