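import Pool.Agent.PDH.GUn

/-!
# Blueprint PDH, module LAU (helper41): rational elements whose components are Laurent polynomials

PROOF.  Let `Δ = Gb Y χ.ker`, `T = Y.A τ`, `x = mkU y`.  By `frac_U` there is `s ∈ LP Δ T`, `s ≠ 0`, `s * x ∈ LP Δ T`; by
`lp_norm` we may assume (replace `s` by `T ^ j * s`) `s = ∑ i ∈ range (k+1), T ^ i * c i` with `c i ∈ Δ`, `c 0 ≠ 0`, `c k ≠ 0`.
By `lp_euclid` (`nrm_U`; `Δ` is closed under inverses) `s * x = s * w + ∑ i ∈ range k, T ^ i * r i` with `w ∈ LP Δ T`,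
`r i ∈ Δ`.  So `s * (x - w) = ∑ i ∈ range k, T ^ i * r i`.  By `PDG.rep` `c i = mkU (c' i)`, `r i = mkU (r' i)` with
`c' i n, r' i n ∈ Db Y n χ.ker`, and by `lp_rep` `w = mkU w'` with `w' n ∈ LP (Db Y n χ.ker) (Y.a n τ)`.  For almost all `n`:
`c' 0 n ≠ 0`, `c' k n ≠ 0` (`Ultrafilter.eventually_not`), `n ≥ n₀`, `y n ∈ LP (Db Y n χ.ker) (Y.a n τ)`, and
`(∑ i ∈ range (k+1), (Y.a n τ) ^ i * c' i n) * (y n - w' n) = ∑ i ∈ range k, (Y.a n τ) ^ i * r' i n`; so by `lp_uniq`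
(`nrm_D`, `ind_D`) `y n = w' n`.  Hence `x = w`.
-/

set_option autoImplicit false

namespace Pool.Agent.PDH

open Pool.Agent.HFT Pool.Agent.PDG

variable {S : Type} [Group S] {N : ℕ → Subgroup S} [∀ n, (N n).Normal]

theorem lau (hN : PDG.Ser N) (Y : PDG.Sys N) (χ : S →* Multiplicative ℤ) (τ : S)
    (hτ : χ τ = Multiplicative.ofAdd 1) (n₀ : ℕ) (hn₀ : N n₀ ≤ χ.ker) (y : ∀ n, Y.D n)
    (hx : mkU uf Y.D y ∈ PDG.GU Y ⊤)
    (hy : ∀ᶠ n in (uf : Filter ℕ), y n ∈ LP (Db Y n χ.ker) (Y.a n τ)) :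
    mkU uf Y.D y ∈ LP (Gb Y χ.ker) (Y.A τ) := by
  have hnU := nrm_U Y χ τ
  have hanti : Antitone N := antitone_nat_of_succ_le hN.anti
  obtain ⟨s, hs, hs0, hsx⟩ := frac_U hN Y χ τ hτ n₀ hn₀ (mkU uf Y.D y) hx
  obtain ⟨j, k, c, hc, hc0, hck, hsum⟩ := lp_norm hnU.ne hs hs0
  have hSx : (∑ i ∈ Finset.range (k + 1), Y.A τ ^ i * c i) * mkU uf Y.D y ∈
      LP (Gb Y χ.ker) (Y.A τ) := by
    rw [← hsum, mul_assoc]
    exact lp_pow hnU.ne j hsx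
  obtain ⟨w, hw, r, hr, he⟩ := lp_euclid hnU (fun c hc => (PDG.GU Y χ.ker).inv_mem
    (show c ∈ PDG.GU Y χ.ker from hc)) k c hc hc0 hck _ hSx
  choose c' hc' hcD using fun i => PDG.rep Y χ.ker (c i) (hc i)
  choose r' hr' hrD using fun i => PDG.rep Y χ.ker (r i) (hr i)
  obtain ⟨w', hw', hwD⟩ := lp_rep Y χ τ w hw
  have hne : ∀ i, c i ≠ 0 → ∀ᶠ n in (uf : Filter ℕ), ¬ c' i n = 0 := by
    intro i hi
    rw [Ultrafilter.eventually_not]
    intro h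
    apply hi
    rw [hc' i, ← map_zero (mkU uf Y.D), mkU_eq_iff]
    exact h
  have hid : mkU uf Y.D ((∑ i ∈ Finset.range (k + 1), (fun n => Y.a n τ) ^ i * c' i) * (y - w')) =
      mkU uf Y.D (∑ i ∈ Finset.range k, (fun n => Y.a n τ) ^ i * r' i) := by
    rw [map_mul, map_sub, map_sum, map_sum]
    simp only [map_mul, map_pow, ← Y.A_apply, ← hc', ← hr', ← hw']
    rw [mul_sub, he]
    abel
  have hid' := mkU_eq_iff.1 hid
  have key : ∀ᶠ n in (uf : Filter ℕ), y n = w' n := by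
    filter_upwards [hne 0 hc0, hne k hck, PDG.ev_ge n₀, hy, hid'] with n h0 hk hn hyn hidn
    have hNn : N n ≤ χ.ker := (hanti hn).trans hn₀
    have h1 := lp_uniq (nrm_D Y χ τ n) (ind_D Y χ τ hτ n hNn) k (fun i => c' i n)
      (fun i => hcD i n) h0 hk (y n - w' n) (lp_sub hyn (hwD n)) (fun i => r' i n)
      (fun i => hrD i n) (by
        simpa only [Pi.mul_apply, Pi.sub_apply, Finset.sum_apply, Pi.pow_apply] using hidn)
    exact sub_eq_zero.1 h1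
  have h2 : mkU uf Y.D y = w := by
    rw [hw']
    exact mkU_eq_iff.2 key
  rw [h2]
  exact hw

end Pool.Agent.PDH
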