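import Pool.Agent.PDH.Defs

/-!
# Blueprint PDH, module LPa (helper41): skew Laurent polynomials in a division ring

`LP Δ T` is the set of the `∑ i ∈ F, T ^ i * c i` (`F` a finite set of integers), `c i ∈ Δ`.
PROOF.  `lp_add`: replace `F`, `F'` by their union, with the coefficients set to zero outside (`if i ∈ F then c i else 0`).
`lp_term`: `F = {i}`.  `lp_pow`: shift `F` (`Finset.image (i + ·)`, or induct: an element of `LP` is a sum of terms
`T ^ j * c`; `lp_induction`).  `lp_pw`: induction on `i`, by `Nrm.conj`, `Nrm.conj'`.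
`lp_mull`: `c * (T ^ i * c') = T ^ i * ((T ^ (-i) * c * T ^ i) * c')`.  `lp_mul`: by `lp_induction` from `lp_pow` and
`lp_mull` (`(T ^ i * c) * y = T ^ i * (c * y)`).
`lp_div`: by `lp_induction`; for `T ^ i * c`: `T ^ i * c = (T - 1) * μ + c` with `μ ∈ LP Δ T`; induct on the integer `i`:
`T ^ (i+1) * c = (T - 1) * (T ^ i * c) + T ^ i * c`, and `T ^ (i-1) * c = T ^ i * c - (T - 1) * (T ^ (i-1) * c)`.
`lp_van`: write `x = ∑ i ∈ F, T ^ i * c i`; we may assume `c i ≠ 0` for `i ∈ F` (filter).  If `F` is not empty let `b` be its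
largest and `a` its smallest element.  `(T - 1) * x - d = 0` with `d ∈ Δ`; the left side is
`∑ i ∈ E, T ^ i * (c' (i - 1) - c' i - (if i = 0 then d else 0))` for any large `E` (`c'` is `c` extended by zero), so by
`Ind` all its coefficients vanish on `E`.  If `b + 1 ≠ 0` the coefficient at `b + 1` is `c b ≠ 0`, a contradiction;
so `b = -1`, `a ≤ -1`, and the coefficient at `a` is `- c a ≠ 0`, a contradiction.
-/

set_option autoImplicit false

namespace Pool.Agent.PDH

variable {D : Type} [DivisionRing D] {Δ Δ' : Subring D} {T : D}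

theorem lp_zero : (0 : D) ∈ LP Δ T :=
  ⟨∅, fun _ => 0, fun _ => Δ.zero_mem, by simp⟩

theorem lp_add {x y : D} (hx : x ∈ LP Δ T) (hy : y ∈ LP Δ T) : x + y ∈ LP Δ T := by
  classical
  obtain ⟨F, c, hc, rfl⟩ := hx
  obtain ⟨F', c', hc', rfl⟩ := hy
  refine ⟨F ∪ F', fun i => (if i ∈ F then c i else 0) + (if i ∈ F' then c' i else 0), ?_, ?_⟩
  · intro i
    apply Δ.add_mem
    · split_ifs
      · exact hc i
      · exact Δ.zero_mem
    · split_ifs
      · exact hc' i
      · exact Δ.zero_mem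
  · simp only [mul_add, Finset.sum_add_distrib, mul_ite, mul_zero]
    rw [← Finset.sum_filter, ← Finset.sum_filter]
    congr 1
    · apply Finset.sum_congr _ fun _ _ => rfl
      ext i
      rw [Finset.mem_filter, Finset.mem_union]
      tauto
    · apply Finset.sum_congr _ fun _ _ => rfl
      ext i
      rw [Finset.mem_filter, Finset.mem_union]
      tauto

theorem lp_neg {x : D} (hx : x ∈ LP Δ T) : -x ∈ LP Δ T := by
  obtain ⟨F, c, hc, rfl⟩ := hx
  refine ⟨F, fun i => - c i, fun i => Δ.neg_mem (hc i), ?_⟩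
  simp only [mul_neg, Finset.sum_neg_distrib]

theorem lp_sub {x y : D} (hx : x ∈ LP Δ T) (hy : y ∈ LP Δ T) : x - y ∈ LP Δ T := by
  rw [sub_eq_add_neg]
  exact lp_add hx (lp_neg hy)

theorem lp_term (i : ℤ) {c : D} (hc : c ∈ Δ) : T ^ i * c ∈ LP Δ T :=
  ⟨{i}, fun _ => c, fun _ => hc, by simp⟩

theorem lp_const {c : D} (hc : c ∈ Δ) : c ∈ LP Δ T := by
  have h := lp_term (T := T) 0 hc
  rwa [zpow_zero, one_mul] at h

theorem lp_induction {P : D → Prop} (h0 : P 0) (h1 : ∀ (i : ℤ), ∀ c ∈ Δ, P (T ^ i * c))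
    (h2 : ∀ x y, P x → P y → P (x + y)) {x : D} (hx : x ∈ LP Δ T) : P x := by
  classical
  obtain ⟨F, c, hc, rfl⟩ := hx
  induction F using Finset.induction_on with
  | empty => simpa using h0
  | insert a s ha ih =>
    rw [Finset.sum_insert ha]
    exact h2 _ _ (h1 a _ (hc a)) ih

theorem lp_mono (h : Δ ≤ Δ') {x : D} (hx : x ∈ LP Δ T) : x ∈ LP Δ' T := by
  obtain ⟨F, c, hc, rfl⟩ := hx
  exact ⟨F, c, fun i => h (hc i), rfl⟩

theorem lp_pow (hT : T ≠ 0) (i : ℤ) {x : D} (hx : x ∈ LP Δ T) : T ^ i * x ∈ LP Δ T := by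
  refine lp_induction (Δ := Δ) (T := T) (P := fun y => T ^ i * y ∈ LP Δ T) ?_ ?_ ?_ hx
  · rw [mul_zero]
    exact lp_zero
  · intro j c hc
    rw [← mul_assoc, ← zpow_add₀ hT]
    exact lp_term _ hc
  · intro y z hy hz
    rw [mul_add]
    exact lp_add hy hz

theorem lp_mulr {x c : D} (hx : x ∈ LP Δ T) (hc : c ∈ Δ) : x * c ∈ LP Δ T := by
  refine lp_induction (Δ := Δ) (T := T) (P := fun y => y * c ∈ LP Δ T) ?_ ?_ ?_ hx
  · rw [zero_mul]
    exact lp_zero
  · intro j c' hc'
    rw [mul_assoc]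
    exact lp_term _ (Δ.mul_mem hc' hc)
  · intro y z hy hz
    rw [add_mul]
    exact lp_add hy hz

theorem lp_pw (h : Nrm Δ T) (i : ℤ) {c : D} (hc : c ∈ Δ) : T ^ (-i) * c * T ^ i ∈ Δ := by
  induction i using Int.induction_on with
  | zero => simpa using hc
  | succ i ih =>
    have h1 := h.conj' _ ih
    have e : T⁻¹ * (T ^ (-(i : ℤ)) * c * T ^ (i : ℤ)) * T =
        T ^ (-((i : ℤ) + 1)) * c * T ^ ((i : ℤ) + 1) := by
      rw [zpow_add₀ h.ne (i : ℤ) 1, zpow_one, show (-((i : ℤ) + 1)) = -1 + -(i : ℤ) by ring,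
        zpow_add₀ h.ne (-1) (-(i : ℤ)), zpow_neg_one]
      simp only [mul_assoc]
    rwa [e] at h1
  | pred i ih =>
    have h1 := h.conj _ ih
    have e : T * (T ^ (-(-(i : ℤ))) * c * T ^ (-(i : ℤ))) * T⁻¹ =
        T ^ (-(-(i : ℤ) - 1)) * c * T ^ (-(i : ℤ) - 1) := by
      rw [zpow_sub₀ h.ne (-(i : ℤ)) 1, zpow_one, show (-(-(i : ℤ) - 1)) = 1 + -(-(i : ℤ)) by ring,
        zpow_add₀ h.ne 1 (-(-(i : ℤ))), zpow_one, div_eq_mul_inv]
      simp only [mul_assoc]
    rwa [e] at h1

theorem lp_mull (h : Nrm Δ T) {x c : D} (hc : c ∈ Δ) (hx : x ∈ LP Δ T) : c * x ∈ LP Δ T := by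
  refine lp_induction (Δ := Δ) (T := T) (P := fun y => c * y ∈ LP Δ T) ?_ ?_ ?_ hx
  · rw [mul_zero]
    exact lp_zero
  · intro i c' hc'
    have e : c * (T ^ i * c') = T ^ i * ((T ^ (-i) * c * T ^ i) * c') := by
      simp only [← mul_assoc]
      rw [← zpow_add₀ h.ne, add_neg_cancel, zpow_zero, one_mul]
    rw [e]
    exact lp_term _ (Δ.mul_mem (lp_pw h i hc) hc')
  · intro y z hy hz
    rw [mul_add]
    exact lp_add hy hz

theorem lp_mul (h : Nrm Δ T) {x y : D} (hx : x ∈ LP Δ T) (hy : y ∈ LP Δ T) : x * y ∈ LP Δ T := by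
  refine lp_induction (Δ := Δ) (T := T) (P := fun z => z * y ∈ LP Δ T) ?_ ?_ ?_ hx
  · rw [zero_mul]
    exact lp_zero
  · intro i c hc
    rw [mul_assoc]
    exact lp_pow h.ne i (lp_mull h hc hy)
  · intro z w hz hw
    rw [add_mul]
    exact lp_add hz hw

theorem lp_div (hT : T ≠ 0) {x : D} (hx : x ∈ LP Δ T) :
    ∃ μ ∈ LP Δ T, ∃ c ∈ Δ, x = (T - 1) * μ + c := by
  refine lp_induction (Δ := Δ) (T := T)
    (P := fun y => ∃ μ ∈ LP Δ T, ∃ c ∈ Δ, y = (T - 1) * μ + c) ?_ ?_ ?_ hx
  · exact ⟨0, lp_zero, 0, Δ.zero_mem, by simp⟩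
  · intro i c hc
    induction i using Int.induction_on with
    | zero => exact ⟨0, lp_zero, c, hc, by simp⟩
    | succ i ih =>
      obtain ⟨μ, hμ, c', hc', e⟩ := ih
      refine ⟨T ^ (i : ℤ) * c + μ, lp_add (lp_term _ hc) hμ, c', hc', ?_⟩
      have e2 : T ^ ((i : ℤ) + 1) * c = (T - 1) * (T ^ (i : ℤ) * c) + T ^ (i : ℤ) * c := by
        rw [sub_mul, one_mul, sub_add_cancel, add_comm (i : ℤ) 1, zpow_add₀ hT, zpow_one,
          mul_assoc]
      rw [e2, mul_add, add_assoc, ← e]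
    | pred i ih =>
      obtain ⟨μ, hμ, c', hc', e⟩ := ih
      refine ⟨μ - T ^ (-(i : ℤ) - 1) * c, lp_sub hμ (lp_term _ hc), c', hc', ?_⟩
      have e2 : T ^ (-(i : ℤ) - 1) * c =
          T ^ (-(i : ℤ)) * c - (T - 1) * (T ^ (-(i : ℤ) - 1) * c) := by
        have e3 : T * (T ^ (-(i : ℤ) - 1) * c) = T ^ (-(i : ℤ)) * c := by
          rw [← mul_assoc]
          conv_lhs => rw [← zpow_one T, ← zpow_mul, one_mul, ← zpow_add₀ hT]
          congr 2
          ring
        rw [sub_mul, e3, one_mul]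
        abel
      rw [mul_sub, sub_add_eq_add_sub, ← e]
      exact e2
  · rintro y z ⟨μ, hμ, c, hc, rfl⟩ ⟨μ', hμ', c', hc', rfl⟩
    refine ⟨μ + μ', lp_add hμ hμ', c + c', Δ.add_mem hc hc', ?_⟩
    rw [mul_add]
    abel

theorem lp_van (hT : T ≠ 0) (hi : Ind Δ T) {x : D} (hx : x ∈ LP Δ T) (h1 : (T - 1) * x ∈ Δ) :
    x = 0 := by
  classical
  obtain ⟨F, c, hc, rfl⟩ := hx
  set d := (T - 1) * ∑ i ∈ F, T ^ i * c i with hd
  set c' : ℤ → D := fun i => if i ∈ F then c i else 0 with hc'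
  have hc'm : ∀ i, c' i ∈ Δ := by
    intro i
    simp only [hc']
    split_ifs
    · exact hc i
    · exact Δ.zero_mem
  have hx : ∑ i ∈ F, T ^ i * c i = ∑ i ∈ F, T ^ i * c' i := by
    apply Finset.sum_congr rfl
    intro i hi
    simp only [hc', if_pos hi]
  set E : Finset ℤ := F ∪ F.image (fun i => i + 1) ∪ {0} with hE
  set u : ℤ → D := fun i => c' (i - 1) - c' i - (if i = 0 then d else 0) with hu
  have hum : ∀ i, u i ∈ Δ := by
    intro i
    simp only [hu]
    apply Δ.sub_mem (Δ.sub_mem (hc'm _) (hc'm _))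
    split_ifs
    · exact h1
    · exact Δ.zero_mem
  have s1 : ∑ i ∈ E, T ^ i * c' (i - 1) = T * ∑ i ∈ F, T ^ i * c' i := by
    have h2 : ∑ i ∈ F.image (fun i => i + 1), T ^ i * c' (i - 1) =
        ∑ i ∈ E, T ^ i * c' (i - 1) := by
      apply Finset.sum_subset
      · intro i hi
        rw [hE, Finset.mem_union, Finset.mem_union]
        exact Or.inl (Or.inr hi)
      · intro i _ hi
        have h3 : i - 1 ∉ F := by
          intro h4
          apply hi
          rw [Finset.mem_image]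
          exact ⟨i - 1, h4, by ring⟩
        simp only [hc', if_neg h3, mul_zero]
    rw [← h2, Finset.sum_image (fun a _ b _ h => by simpa using h), Finset.mul_sum]
    apply Finset.sum_congr rfl
    intro i _
    rw [add_sub_cancel_right, add_comm i 1, zpow_add₀ hT, zpow_one, mul_assoc]
  have s2 : ∑ i ∈ E, T ^ i * c' i = ∑ i ∈ F, T ^ i * c' i := by
    symm
    apply Finset.sum_subset
    · intro i hi
      rw [hE, Finset.mem_union, Finset.mem_union]
      exact Or.inl (Or.inl hi)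
    · intro i _ hi
      simp only [hc', if_neg hi, mul_zero]
  have s3 : ∑ i ∈ E, T ^ i * (if i = 0 then d else 0) = d := by
    rw [Finset.sum_eq_single 0]
    · simp
    · intro i _ hi
      rw [if_neg hi, mul_zero]
    · intro h2
      exact absurd (by rw [hE]; simp) h2
  have hsum : ∑ i ∈ E, T ^ i * u i = 0 := by
    simp only [hu, mul_sub, Finset.sum_sub_distrib]
    rw [s1, s2, s3, hd, hx, sub_mul, one_mul, sub_self]
  have hzero := hi E u hum hsum
  have hall : ∀ i, c' (i - 1) = c' i + (if i = 0 then d else 0) := by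
    intro i
    by_cases hiE : i ∈ E
    · have h2 := hzero i hiE
      simp only [hu] at h2
      rw [sub_sub, sub_eq_zero] at h2
      exact h2
    · rw [hE, Finset.mem_union, Finset.mem_union, not_or, not_or] at hiE
      obtain ⟨⟨h2, h3⟩, h4⟩ := hiE
      have h5 : i - 1 ∉ F := by
        intro h6
        apply h3
        rw [Finset.mem_image]
        exact ⟨i - 1, h6, by ring⟩
      rw [Finset.mem_singleton] at h4
      simp only [hc', if_neg h2, if_neg h5, if_neg h4, add_zero]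
  obtain ⟨B, hB⟩ := F.bddAbove
  obtain ⟨A, hA⟩ := F.bddBelow
  have hup : ∀ m : ℕ, ∀ i : ℤ, 0 ≤ i → c' i = c' (i + m) := by
    intro m
    induction m with
    | zero => intro i _; simp
    | succ m ih =>
      intro i hi
      rw [ih i hi]
      have h2 := hall (i + m + 1)
      rw [if_neg (by omega), add_zero, add_sub_cancel_right] at h2
      rw [h2]
      push_cast
      rw [add_assoc]
  have hdown : ∀ m : ℕ, ∀ i : ℤ, i ≤ -1 → c' i = c' (i - m) := by
    intro m
    induction m with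
    | zero => intro i _; simp
    | succ m ih =>
      intro i hi
      rw [ih i hi]
      have h2 := hall (i - m)
      rw [if_neg (by omega), add_zero] at h2
      rw [← h2]
      push_cast
      rw [sub_sub]
  have hc0 : ∀ i, c' i = 0 := by
    intro i
    rcases le_or_gt 0 i with h2 | h2
    · rw [hup (B + 1 - i).toNat i h2]
      have h3 : i + ((B + 1 - i).toNat : ℤ) ∉ F := by
        intro h4
        have := hB h4
        omega
      simp only [hc', if_neg h3]
    · rw [hdown (i - A + 1).toNat i (by omega)]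
      have h3 : i - ((i - A + 1).toNat : ℤ) ∉ F := by
        intro h4
        have := hA h4
        omega
      simp only [hc', if_neg h3]
  rw [hx]
  apply Finset.sum_eq_zero
  intro i _
  rw [hc0, mul_zero]

end Pool.Agent.PDH
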