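import Pool.Agent.PDH.PrinG

/-!
# Blueprint PDH, module LiftP (helper41): crossed homomorphisms modulo `p` lift

`rd p` is the reduction of the integral group ring modulo `p`; it is surjective and its kernel is `p ℤ[Γ]`.
PROOF of `exists_geo` (`T` a unit of a ring `R`): `c i = ∑_{0 ≤ j < i} T^j` for `i ≥ 0` and
`c i = - ∑_{i ≤ j < 0} T^j` for `i < 0`; `c 0 = 0`, `c (i+1) = c i + T^i` for all `i`; the first relation follows by
induction on `j`, and the second one by induction on `i`.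
PROOF of `lift_crs`.  Case 1: there is `h ∈ χ.ker`, `h ≠ 1`.  By `prin_gr` `f g = (single (q g) 1 - 1) * l`; lift `l` to
`l'` and put `F g = (single (q g) 1 - 1) * l'`.
Case 2: `χ` is injective.  Then `γ = τ ^ i` if `χ γ = ofAdd i`.  Choose `g'` with `q g' = τ`.  By `prin` (for `θ ∘ f`)
`θ (f g) = ([g] - 1) λ`, `[g] = θ (single (q g) 1)`.  Take `c` by `exists_geo` for the unit `single τ 1` of `ℤ[Γ]`, lift
`f g'` to `a ∈ ℤ[Γ]` and put `F g = c (χ (q g)) * a` (`χ (q g)` regarded as an integer).  `F` is a crossed homomorphism: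
`c (i + j) = c i + single τ 1 ^ i * c j` and `single (q g) 1 = single τ 1 ^ i`.  For the image `c̄` of `c` in
`(ℤ/p)[Γ]`: `c̄ i * (single τ 1 - 1) = single (τ ^ i) 1 - 1` (last part of `exists_geo`, reduced modulo `p`), so
`θ (rd (F g)) = θ (c̄ i) θ (f g') = θ (c̄ i) (T - 1) λ = (T ^ i - 1) λ = θ (f g)`.
-/

set_option autoImplicit false

namespace Pool.Agent.PDH

/-- reduction modulo `p` -/
noncomputable def rd (p : ℕ) {Γ : Type} [Group Γ] :
    MonoidAlgebra ℤ Γ →+* MonoidAlgebra (ZMod p) Γ :=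
  MonoidAlgebra.mapRingHom Γ (Int.castRingHom (ZMod p))

theorem rd_single (p : ℕ) {Γ : Type} [Group Γ] (g : Γ) (n : ℤ) :
    rd p (MonoidAlgebra.single g n) = MonoidAlgebra.single g (n : ZMod p) := by
  unfold rd
  rw [MonoidAlgebra.mapRingHom_single]
  rfl

theorem rd_surjective (p : ℕ) {Γ : Type} [Group Γ] :
    Function.Surjective (rd p : MonoidAlgebra ℤ Γ →+* MonoidAlgebra (ZMod p) Γ) := by
  intro x
  induction x using MonoidAlgebra.induction_linear with
  | zero => exact ⟨0, map_zero _⟩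
  | add f g hf hg =>
    obtain ⟨a, ha⟩ := hf
    obtain ⟨b, hb⟩ := hg
    exact ⟨a + b, by rw [map_add, ha, hb]⟩
  | single b r =>
    obtain ⟨n, hn⟩ := ZMod.intCast_surjective r
    exact ⟨MonoidAlgebra.single b n, by rw [rd_single, hn]⟩

theorem rd_eq_zero (p : ℕ) {Γ : Type} [Group Γ] (x : MonoidAlgebra ℤ Γ) (hx : rd p x = 0) :
    ∃ y : MonoidAlgebra ℤ Γ, x = (p : ℤ) • y := by
  refine ⟨MonoidAlgebra.ofCoeff (x.coeff.mapRange (fun n : ℤ => n / (p : ℤ)) (by simp)), ?_⟩
  rw [← MonoidAlgebra.coeff_inj]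
  ext g
  have h1 : (rd p x).coeff g = ((x.coeff g : ℤ) : ZMod p) := by
    unfold rd
    rw [MonoidAlgebra.coeff_mapRingHom]
    rfl
  rw [hx] at h1
  have h2 : ((x.coeff g : ℤ) : ZMod p) = 0 := by
    rw [← h1]; simp
  have h3 : (p : ℤ) ∣ x.coeff g := (CharP.intCast_eq_zero_iff (ZMod p) p _).1 h2
  rw [MonoidAlgebra.coeff_smul, Finsupp.smul_apply]
  change x.coeff g = (p : ℤ) • ((x.coeff.mapRange (fun n : ℤ => n / (p : ℤ)) (by simp)) g)
  rw [Finsupp.mapRange_apply, smul_eq_mul]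
  exact (Int.mul_ediv_cancel' h3).symm

/-- geometric sums -/
private def geoC {R : Type} [Ring R] (T : Rˣ) : ℤ → R
  | Int.ofNat n => ∑ j ∈ Finset.range n, ((T ^ (j : ℤ) : Rˣ) : R)
  | Int.negSucc n => - ∑ j ∈ Finset.range (n + 1), ((T ^ (-(j : ℤ) - 1) : Rˣ) : R)

private theorem geoC_zero {R : Type} [Ring R] (T : Rˣ) : geoC T 0 = 0 := by
  change ∑ j ∈ Finset.range 0, ((T ^ (j : ℤ) : Rˣ) : R) = 0
  simp

private theorem geoC_succ {R : Type} [Ring R] (T : Rˣ) (i : ℤ) :
    geoC T (i + 1) = geoC T i + ((T ^ i : Rˣ) : R) := by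
  cases i with
  | ofNat n =>
    change ∑ j ∈ Finset.range (n + 1), ((T ^ (j : ℤ) : Rˣ) : R) =
      ∑ j ∈ Finset.range n, ((T ^ (j : ℤ) : Rˣ) : R) + ((T ^ (n : ℤ) : Rˣ) : R)
    rw [Finset.sum_range_succ]
  | negSucc n =>
    have e2 : ((T ^ (Int.negSucc n) : Rˣ) : R) = ((T ^ (-(n : ℤ) - 1) : Rˣ) : R) := by
      congr 2
      rw [Int.negSucc_eq]; ring
    rw [e2]
    change _ = - ∑ j ∈ Finset.range (n + 1), ((T ^ (-(j : ℤ) - 1) : Rˣ) : R) + _
    rw [Finset.sum_range_succ]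
    have e3 : geoC T (Int.negSucc n + 1) =
        - ∑ j ∈ Finset.range n, ((T ^ (-(j : ℤ) - 1) : Rˣ) : R) := by
      cases n with
      | zero =>
        have : (Int.negSucc 0 + 1 : ℤ) = 0 := by decide
        rw [this, geoC_zero]; simp
      | succ m =>
        have : (Int.negSucc (m + 1) + 1 : ℤ) = Int.negSucc m := by
          rw [Int.negSucc_eq, Int.negSucc_eq]; push_cast; ring
        rw [this]
        rfl
    rw [e3]
    abel

theorem exists_geo {R : Type} [Ring R] (T : Rˣ) :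
    ∃ c : ℤ → R, c 1 = 1 ∧ (∀ i j : ℤ, c (i + j) = c i + ((T ^ i : Rˣ) : R) * c j) ∧
      ∀ i : ℤ, c i * ((T : R) - 1) = ((T ^ i : Rˣ) : R) - 1 := by
  have hp : ∀ i : ℤ, geoC T (i - 1) = geoC T i - ((T ^ (i - 1) : Rˣ) : R) := by
    intro i
    have := geoC_succ T (i - 1)
    rw [sub_add_cancel] at this
    rw [this]; abel
  refine ⟨geoC T, ?_, ?_, ?_⟩
  · have := geoC_succ T 0
    rw [geoC_zero, zero_add, zero_add, zpow_zero] at this
    rw [this]; rfl
  · intro i j
    induction j using Int.induction_on with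
    | zero => rw [add_zero, geoC_zero, mul_zero, add_zero]
    | succ j ih =>
      rw [← add_assoc, geoC_succ, geoC_succ, ih, mul_add, zpow_add, Units.val_mul, add_assoc]
    | pred j ih =>
      have e : i + (-(j : ℤ) - 1) = (i + -(j : ℤ)) - 1 := by ring
      rw [e, hp, hp, ih, mul_sub, ← e, zpow_add T i, Units.val_mul]
      abel
  · intro i
    induction i using Int.induction_on with
    | zero => rw [geoC_zero, zero_mul, zpow_zero, Units.val_one, sub_self]
    | succ i ih =>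
      rw [geoC_succ, add_mul, ih, mul_sub, mul_one, zpow_add_one, Units.val_mul]
      abel
    | pred i ih =>
      rw [hp, sub_mul, ih, mul_sub, mul_one, ← Units.val_mul, ← zpow_add_one, sub_add_cancel]
      abel

theorem lift_crs (p : ℕ) [Fact p.Prime] {G Γ : Type} [Group G] [Group Γ] (hfg : Group.FG G)
    {D : Type} [DivisionRing D] (θ : MonoidAlgebra (ZMod p) Γ →+* D) (hθ : OreEmb θ)
    (q : G →* Γ) (hq : Function.Surjective q) (t : G) (ht : q t ≠ 1) (hE : EK (ZMod p) q t)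
    (χ : Γ →* Multiplicative ℤ) (τ : Γ) (hτ : χ τ = Multiplicative.ofAdd 1)
    (f : G → MonoidAlgebra (ZMod p) Γ) (hf : Crs (go (ZMod p) q) f) :
    ∃ F : G → MonoidAlgebra ℤ Γ, Crs (go ℤ q) F ∧ ∀ g, rd p (F g) = f g := by
  by_cases hker : ∃ h ∈ χ.ker, h ≠ 1
  · obtain ⟨h, hh, hh1⟩ := hker
    obtain ⟨l, hl⟩ := prin_gr hfg θ hθ q hq t ht hE χ τ hτ h hh hh1 f hf
    obtain ⟨l', hl'⟩ := rd_surjective p l
    refine ⟨fun g => (MonoidAlgebra.single (q g) 1 - 1) * l', ?_, ?_⟩
    · intro g g'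
      have e : (MonoidAlgebra.single (q (g * g')) 1 : MonoidAlgebra ℤ Γ) =
          MonoidAlgebra.single (q g) 1 * MonoidAlgebra.single (q g') 1 := by
        rw [MonoidAlgebra.single_mul_single, map_mul, mul_one]
      simp only [go_apply, e]
      noncomm_ring
    · intro g
      rw [hl g, map_mul, map_sub, map_one, rd_single, hl']
      simp
  · have hker' : ∀ h ∈ χ.ker, h = 1 := by
      intro h hh
      by_contra hne
      exact hker ⟨h, hh, hne⟩
    have hγ : ∀ γ : Γ, γ = τ ^ (Multiplicative.toAdd (χ γ)) := by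
      intro γ
      have h1 : γ * (τ ^ (Multiplicative.toAdd (χ γ)))⁻¹ ∈ χ.ker := by
        rw [MonoidHom.mem_ker, map_mul, map_inv, map_zpow, hτ]
        apply Multiplicative.toAdd.injective
        rw [toAdd_mul, toAdd_inv, toAdd_zpow, toAdd_ofAdd, toAdd_one]
        simp
      exact mul_inv_eq_one.1 (hker' _ h1)
    obtain ⟨g', hg'⟩ := hq τ
    obtain ⟨a, ha⟩ := rd_surjective p (f g')
    set lam : D := (θ (MonoidAlgebra.single (q t) 1) - 1)⁻¹ * θ (f t) with hlam
    have hpr : ∀ g, θ (f g) = (θ (MonoidAlgebra.single (q g) 1) - 1) * lam := by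
      apply prin hfg θ hθ q t ht hE (fun g => θ (f g))
      · intro g
        exact mem_DB_of_KB θ (mem_KB.2 fun _ _ => Subgroup.mem_top _)
      · intro g h
        rw [hf g h, map_add, map_mul, go_apply]
    set u : (MonoidAlgebra ℤ Γ)ˣ := Units.map (MonoidAlgebra.of ℤ Γ : Γ →* MonoidAlgebra ℤ Γ)
      (toUnits τ) with hu
    have hui : ∀ i : ℤ, ((u ^ i : (MonoidAlgebra ℤ Γ)ˣ) : MonoidAlgebra ℤ Γ) =
        MonoidAlgebra.single (τ ^ i) 1 := by
      intro i
      rw [hu, ← map_zpow, ← map_zpow, Units.coe_map]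
      rfl
    obtain ⟨c, hc1, hc2, hc3⟩ := exists_geo u
    have hu1 : (u : MonoidAlgebra ℤ Γ) = MonoidAlgebra.single τ 1 := by
      have := hui 1
      rwa [zpow_one, zpow_one] at this
    refine ⟨fun g => c (Multiplicative.toAdd (χ (q g))) * a, ?_, ?_⟩
    · intro g h
      change c (Multiplicative.toAdd (χ (q (g * h)))) * a = _
      rw [map_mul, map_mul, toAdd_mul, hc2, hui, ← hγ, go_apply, add_mul, mul_assoc]
    · intro g
      apply hθ.inj
      rw [map_mul, ha, map_mul, hpr g', hg', ← mul_assoc]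
      have e1 : θ (rd p (c (Multiplicative.toAdd (χ (q g))))) *
          (θ (MonoidAlgebra.single τ 1) - 1) = θ (MonoidAlgebra.single (q g) 1) - 1 := by
        have e2 := congrArg (fun x => θ (rd p x)) (hc3 (Multiplicative.toAdd (χ (q g))))
        simp only [map_mul, map_sub, map_one] at e2
        rw [hui, ← hγ, hu1, rd_single, rd_single] at e2
        simpa using e2
      rw [e1, hpr g]

end Pool.Agent.PDH
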