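import Pool.Agent.PDH.NakF

/-!
# Blueprint PDH, module Nak (helper41): crossed homomorphisms and torsion free abelian extensions

THEOREM.  `G` finitely generated, `ψ : Γ' → Γ` surjective with torsion free commutative kernel `V`.  If a crossed
homomorphism `G → k[Γ]` which vanishes at `t` is zero, then the same holds for `k[Γ']`.

PROOF.  For `x ∈ k[Γ']` and `γ ∈ Γ'` let `c γ x ∈ k[V]` have the coefficients `(c γ x)(v) = x(γ v)`
(`MonoidAlgebra.ofCoeff (x.coeff.comapDomain (fun v : V => γ * v) _)`).  It is `k`-linear in `x`;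
`c γ (single δ 1 * x) = c (δ⁻¹ γ) x`; `c (γ v) x = single v⁻¹ 1 * c γ x` for `v ∈ V`; and `x = 0` iff all
`c γ x = 0` (`(c γ x)(1) = x(γ)`).
Let `f` be a crossed homomorphism with `f t = 0`, `g_1, ..., g_r` generators of `G` (a finite set), and suppose that `f` is
not zero.  Let `F` be the finite set of all `c γ (f (g_j))` with `γ` in the support of `f (g_j)`, and `I` the ideal of
`k[V]` generated by `F`.  If `c γ (f (g_j)) ≠ 0` for some `γ` then `γ v` is in the support for some `v ∈ V`, and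
`c γ (f (g_j)) = single v 1 * c (γ v) (f (g_j)) ∈ I`.  So all `c γ (f (g_j)) ∈ I`.  The set
`M = {x | ∀ γ, c γ x ∈ I}` is closed under sums, negatives and left multiplication by group elements, so
`{g | f g ∈ M}` is a subgroup (`f 1 = 0`, `f (g⁻¹) = - g⁻¹ f g`), hence all of `G`.
`F` contains a nonzero element: otherwise `f (g_j) = 0` for all `j`, and `{g | f g = 0}` is a subgroup, so `f = 0`.
Take `ℓ` by `nakF` and a section `σ` of `ψ`.  For `x ∈ k[Γ']` let `L x ∈ k[Γ]` have the coefficients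
`(L x)(γ) = ℓ (c (σ γ) x)`; this is zero unless `γ ∈ ψ (support of x)` (finite support, `Finsupp.onFinset`); `L` is
additive.  For `x ∈ M`, `γ' ∈ Γ'`: `ℓ (c γ' x) = (L x)(ψ γ')` (since `γ' = σ(ψ γ') v` and `ℓ (v⁻¹ a) = ℓ a` for `a ∈ I`).
So for `x ∈ M`: `L (single δ 1 * x) = single (ψ δ) 1 * L x`.  Hence `L ∘ f` is a crossed homomorphism for `ψ.comp q`, it
vanishes at `t`, so `L (f g) = 0` for all `g` by `hE`, and `ℓ (c γ (f g)) = 0` for all `g`, `γ`: `ℓ` vanishes on `F`, a
contradiction.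
-/

set_option autoImplicit false

namespace Pool.Agent.PDH

theorem crs_one {G : Type} [Group G] {R : Type} [Ring R] {a : G →* R} {f : G → R}
    (hf : Crs a f) : f 1 = 0 := by
  have h := hf 1 1
  rw [mul_one, map_one, one_mul] at h
  exact left_eq_add.mp h

theorem crs_inv {G : Type} [Group G] {R : Type} [Ring R] {a : G →* R} {f : G → R}
    (hf : Crs a f) (g : G) : f g⁻¹ = -(a g⁻¹ * f g) := by
  have h := hf g⁻¹ g
  rw [inv_mul_cancel, crs_one hf] at h
  exact eq_neg_of_add_eq_zero_left h.symm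

theorem crs_closure {G : Type} [Group G] {R : Type} [Ring R] {a : G →* R} {f : G → R}
    (hf : Crs a f) (S : Set G) (hS : Subgroup.closure S = ⊤) (M : R → Prop) (h0 : M 0)
    (hadd : ∀ x y, M x → M y → M (x + y)) (hneg : ∀ x, M x → M (-x))
    (hmul : ∀ g x, M x → M (a g * x)) (hMS : ∀ g ∈ S, M (f g)) (g : G) : M (f g) := by
  have hg : g ∈ Subgroup.closure S := by
    rw [hS]
    exact Subgroup.mem_top g
  induction hg using Subgroup.closure_induction with
  | mem x hx => exact hMS x hx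
  | one =>
    rw [crs_one hf]
    exact h0
  | mul x y _ _ hx hy =>
    rw [hf x y]
    exact hadd _ _ hx (hmul _ _ hy)
  | inv x _ hx =>
    rw [crs_inv hf]
    exact hneg _ (hmul _ _ hx)

/-- the component at the coset `γ V` -/
noncomputable def cst {k : Type} [Field k] {Γ' : Type} [Group Γ'] (V : Subgroup Γ') (γ : Γ')
    (x : MonoidAlgebra k Γ') : MonoidAlgebra k V :=
  MonoidAlgebra.ofCoeff (Finsupp.comapDomain (fun v : V => γ * (v : Γ')) x.coeff
    (fun _ _ _ _ h => Subtype.ext (mul_left_cancel h)))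

theorem cst_coeff {k : Type} [Field k] {Γ' : Type} [Group Γ'] (V : Subgroup Γ') (γ : Γ')
    (x : MonoidAlgebra k Γ') (v : V) : (cst V γ x).coeff v = x.coeff (γ * v) := rfl

theorem cst_add {k : Type} [Field k] {Γ' : Type} [Group Γ'] (V : Subgroup Γ') (γ : Γ')
    (x y : MonoidAlgebra k Γ') : cst V γ (x + y) = cst V γ x + cst V γ y := by
  apply MonoidAlgebra.ext
  ext v
  rw [MonoidAlgebra.coeff_add, Finsupp.add_apply, cst_coeff, cst_coeff, cst_coeff,
    MonoidAlgebra.coeff_add, Finsupp.add_apply]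

theorem cst_neg {k : Type} [Field k] {Γ' : Type} [Group Γ'] (V : Subgroup Γ') (γ : Γ')
    (x : MonoidAlgebra k Γ') : cst V γ (-x) = -cst V γ x := by
  apply MonoidAlgebra.ext
  ext v
  rw [MonoidAlgebra.coeff_neg, Finsupp.neg_apply, cst_coeff, cst_coeff,
    MonoidAlgebra.coeff_neg, Finsupp.neg_apply]

theorem cst_zero {k : Type} [Field k] {Γ' : Type} [Group Γ'] (V : Subgroup Γ') (γ : Γ') :
    cst V γ (0 : MonoidAlgebra k Γ') = 0 := by
  apply MonoidAlgebra.ext
  ext v
  rw [cst_coeff]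
  simp

theorem cst_mul {k : Type} [Field k] {Γ' : Type} [Group Γ'] (V : Subgroup Γ') (γ δ : Γ')
    (x : MonoidAlgebra k Γ') :
    cst V γ (MonoidAlgebra.single δ 1 * x) = cst V (δ⁻¹ * γ) x := by
  apply MonoidAlgebra.ext
  ext v
  rw [cst_coeff, cst_coeff, MonoidAlgebra.coeff_single_mul_apply, one_mul, mul_assoc]

theorem cst_shift {k : Type} [Field k] {Γ' : Type} [Group Γ'] (V : Subgroup Γ') (γ : Γ') (v : V)
    (x : MonoidAlgebra k Γ') :
    cst V (γ * v) x = MonoidAlgebra.single v⁻¹ 1 * cst V γ x := by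
  apply MonoidAlgebra.ext
  ext w
  rw [cst_coeff, MonoidAlgebra.coeff_single_mul_apply, one_mul, cst_coeff, inv_inv,
    Subgroup.coe_mul, mul_assoc]

theorem cst_shift' {k : Type} [Field k] {Γ' : Type} [Group Γ'] (V : Subgroup Γ') (γ : Γ') (v : V)
    (x : MonoidAlgebra k Γ') :
    cst V γ x = MonoidAlgebra.single v 1 * cst V (γ * v) x := by
  rw [cst_shift, ← mul_assoc, MonoidAlgebra.single_mul_single, mul_inv_cancel, one_mul,
    ← MonoidAlgebra.one_def, one_mul]

theorem nak {k : Type} [Field k] {G Γ' Γ : Type} [Group G] [Group Γ'] [Group Γ]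
    (hfg : Group.FG G) (q : G →* Γ') (ψ : Γ' →* Γ) (hψ : Function.Surjective ψ)
    (hc : ∀ u ∈ ψ.ker, ∀ v ∈ ψ.ker, u * v = v * u)
    (ht : ∀ v ∈ ψ.ker, ∀ n : ℕ, n ≠ 0 → v ^ n = 1 → v = 1) (t : G)
    (hE : EK k (ψ.comp q) t) : EK k q t := by
  classical
  intro f hf hft
  by_contra hcon
  push Not at hcon
  obtain ⟨g0, hg0⟩ := hcon
  obtain ⟨S, hS⟩ := hfg.out
  set V := ψ.ker with hV
  set F : Finset (MonoidAlgebra k V) := S.biUnion (fun g =>
    (f g).coeff.support.image (fun γ => cst V γ (f g))) with hF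
  set I := Submodule.span (MonoidAlgebra k V) (F : Set (MonoidAlgebra k V)) with hI
  have hFmem : ∀ g ∈ S, ∀ γ, (f g).coeff γ ≠ 0 → cst V γ (f g) ∈ F := by
    intro g hg γ hγ
    rw [hF, Finset.mem_biUnion]
    exact ⟨g, hg, Finset.mem_image.mpr ⟨γ, Finsupp.mem_support_iff.mpr hγ, rfl⟩⟩
  have hnz : ∀ (x : MonoidAlgebra k Γ') (γ : Γ'), cst V γ x ≠ 0 →
      ∃ v : V, x.coeff (γ * v) ≠ 0 := by
    intro x γ h
    by_contra h2
    push Not at h2
    apply h
    apply MonoidAlgebra.ext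
    ext v
    rw [cst_coeff, h2 v]
    rfl
  have hA : ∀ g ∈ S, ∀ γ, cst V γ (f g) ∈ I := by
    intro g hg γ
    by_cases h : cst V γ (f g) = 0
    · rw [h]
      exact I.zero_mem
    · obtain ⟨v, hv⟩ := hnz _ _ h
      rw [cst_shift' V γ v]
      exact I.smul_mem _ (Submodule.subset_span (hFmem g hg _ hv))
  have hB : ∀ g, ∀ γ, cst V γ (f g) ∈ I := by
    intro g
    refine crs_closure hf (S : Set G) hS (fun x => ∀ γ, cst V γ x ∈ I) ?_ ?_ ?_ ?_ hA g
    · intro γ
      rw [cst_zero]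
      exact I.zero_mem
    · intro x y hx hy γ
      rw [cst_add]
      exact I.add_mem (hx γ) (hy γ)
    · intro x hx γ
      rw [cst_neg]
      exact I.neg_mem (hx γ)
    · intro g x hx γ
      rw [go_apply, cst_mul]
      exact hx _
  have hC : ∃ a ∈ F, a ≠ 0 := by
    by_contra hall
    push Not at hall
    apply hg0
    refine crs_closure hf (S : Set G) hS (fun x => x = 0) rfl ?_ ?_ ?_ ?_ g0
    · intro x y hx hy
      rw [hx, hy, add_zero]
    · intro x hx
      rw [hx, neg_zero]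
    · intro g x hx
      rw [hx, mul_zero]
    · intro g hg
      by_contra hfg0
      have : ∃ γ, (f g).coeff γ ≠ 0 := by
        by_contra h2
        push Not at h2
        apply hfg0
        apply MonoidAlgebra.ext
        ext γ
        rw [h2 γ]
        rfl
      obtain ⟨γ, hγ⟩ := this
      have h3 := hall _ (hFmem g hg γ hγ)
      apply hγ
      have h4 : (cst V γ (f g)).coeff 1 = 0 := by
        rw [h3]
        rfl
      rw [cst_coeff, Subgroup.coe_one, mul_one] at h4
      exact h4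
  obtain ⟨l, hl1, a, haF, hla⟩ := nakF (k := k) (V := V)
    (fun a b => Subtype.ext (hc a.1 a.2 b.1 b.2))
    (fun a n hn h => Subtype.ext (ht a.1 a.2 n hn (by
      have := congrArg Subtype.val h
      simpa using this))) F hC
  set σ := Function.surjInv hψ with hσ
  have hσψ : ∀ γ, ψ (σ γ) = γ := Function.surjInv_eq hψ
  set L : MonoidAlgebra k Γ' → MonoidAlgebra k Γ := fun x =>
    MonoidAlgebra.ofCoeff (Finsupp.onFinset (x.coeff.support.image ψ)
      (fun γ => l (cst V (σ γ) x)) (by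
        intro γ h
        have h1 : cst V (σ γ) x ≠ 0 := by
          intro h2
          apply h
          rw [h2, map_zero]
        obtain ⟨v, hv⟩ := hnz _ _ h1
        rw [Finset.mem_image]
        refine ⟨σ γ * v, Finsupp.mem_support_iff.mpr hv, ?_⟩
        rw [map_mul, hσψ, (show ψ (v : Γ') = 1 from v.2), mul_one])) with hL
  have hLc : ∀ x γ, (L x).coeff γ = l (cst V (σ γ) x) := fun x γ => rfl
  have hLadd : ∀ x y, L (x + y) = L x + L y := by
    intro x y
    apply MonoidAlgebra.ext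
    ext γ
    rw [MonoidAlgebra.coeff_add, Finsupp.add_apply, hLc, hLc, hLc, cst_add, map_add]
  have hD : ∀ x, (∀ γ, cst V γ x ∈ I) → ∀ γ', l (cst V γ' x) = (L x).coeff (ψ γ') := by
    intro x hx γ'
    have hv : (σ (ψ γ'))⁻¹ * γ' ∈ V := by
      rw [hV, MonoidHom.mem_ker, map_mul, map_inv, hσψ, inv_mul_cancel]
    have h1 : γ' = σ (ψ γ') * ((⟨(σ (ψ γ'))⁻¹ * γ', hv⟩ : V) : Γ') := by
      rw [mul_inv_cancel_left]
    rw [hLc]
    conv_lhs => rw [h1]
    rw [cst_shift]
    exact hl1 _ _ (hx _)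
  have hEq : ∀ x, (∀ γ, cst V γ x ∈ I) → ∀ δ,
      L (MonoidAlgebra.single δ 1 * x) = MonoidAlgebra.single (ψ δ) 1 * L x := by
    intro x hx δ
    apply MonoidAlgebra.ext
    ext γ
    rw [hLc, cst_mul, hD x hx, MonoidAlgebra.coeff_single_mul_apply, one_mul, map_mul, map_inv,
      hσψ]
  have hLf : Crs (go k (ψ.comp q)) (fun g => L (f g)) := by
    intro g h
    dsimp only
    rw [hf g h, hLadd, go_apply, hEq _ (hB h), go_apply]
    rfl
  have hLt : L (f t) = 0 := by
    rw [hft]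
    apply MonoidAlgebra.ext
    ext γ
    rw [hLc, cst_zero, map_zero]
    rfl
  have hL0 := hE _ hLf hLt
  apply hla
  rw [hF, Finset.mem_biUnion] at haF
  obtain ⟨g, hg, haF⟩ := haF
  rw [Finset.mem_image] at haF
  obtain ⟨γ, _, rfl⟩ := haF
  rw [hD _ (hB g)]
  have := hL0 g
  rw [this]
  rfl

end Pool.Agent.PDH
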