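import Pool.Agent.PDH.Defs
import Pool.Agent.PDG.Uniq

/-!
# Blueprint PDH, module NakF (helper41): an invariant functional on a finitely generated ideal

THEOREM.  `V` torsion free commutative, `k` a field, `F` a finite subset of `k[V]` containing a nonzero element.
There is a `k`-linear functional `ℓ` on `k[V]` with `ℓ (v a) = ℓ a` for `v ∈ V` and `a` in the ideal `I` generated by
`F`, and `ℓ a ≠ 0` for some `a ∈ F`.

PROOF.  Make `V` a `CommGroup` (`let _ : CommGroup V := { (inferInstance : Group V) with mul_comm := hc }`), so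
`R = MonoidAlgebra k V` is a commutative ring; it is a domain by `PDG.uniq_tf` (`NoZeroDivisors` instance of
`MonoidAlgebra` for `UniqueProds`).  Let `𝔪` be the kernel of the augmentation `R → k` (`single v 1 ↦ 1`, e.g.
`MonoidAlgebra.lift` or `mapDomainRingHom` to the trivial group); `𝔪 ≠ R`, and `single v 1 - 1 ∈ 𝔪`.
`I` is finitely generated and nonzero.  If `I ≤ 𝔪 • I` then by Nakayama's lemma
(`Submodule.exists_sub_one_mem_and_smul_eq_zero_of_fg_of_le_smul`) there is `r` with `r - 1 ∈ 𝔪` and `r a = 0` for all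
`a ∈ I`; `r ≠ 0` since `1 ∉ 𝔪`, so `I = 0`, a contradiction.  So there is `a₀ ∈ I` with `a₀ ∉ 𝔪 • I`; as `𝔪 • I` is a
`k`-subspace there is a `k`-linear functional `ℓ` that vanishes on `𝔪 • I` with `ℓ a₀ ≠ 0`
(`Submodule.exists_le_ker_of_notMem` or `Submodule.exists_dual_map_eq_bot_of_notMem`, with `restrictScalars k`).
For `a ∈ I`: `ℓ (v a) - ℓ a = ℓ ((v - 1) a) = 0`.  If `ℓ a = 0` for all `a ∈ F`, then for `r ∈ R`, `a ∈ F`:
`r a = ∑ v, r_v (v a)`, so `ℓ (r a) = (∑ r_v) ℓ a = 0` and `ℓ` vanishes on `I` (`Submodule.span_induction`), a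
contradiction to `ℓ a₀ ≠ 0`.
-/

set_option autoImplicit false

namespace Pool.Agent.PDH


private theorem nakF_comm {k : Type} [Field k] {V : Type} [CommGroup V]
    (hnz : NoZeroDivisors (MonoidAlgebra k V)) (F : Finset (MonoidAlgebra k V))
    (hF : ∃ a ∈ F, a ≠ 0) :
    ∃ l : MonoidAlgebra k V →ₗ[k] k,
      (∀ v : V, ∀ a ∈ Submodule.span (MonoidAlgebra k V) (F : Set (MonoidAlgebra k V)),
        l (MonoidAlgebra.single v 1 * a) = l a) ∧ ∃ a ∈ F, l a ≠ 0 := by
  obtain ⟨ε, hε⟩ : ∃ ε : MonoidAlgebra k V →ₐ[k] k, ∀ v : V, ε (MonoidAlgebra.single v 1) = 1 := by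
    refine ⟨MonoidAlgebra.lift k k V (1 : V →* k), fun v => ?_⟩
    simp
  obtain ⟨I, hI⟩ : ∃ I : Submodule (MonoidAlgebra k V) (MonoidAlgebra k V),
      I = Submodule.span (MonoidAlgebra k V) (F : Set (MonoidAlgebra k V)) := ⟨_, rfl⟩
  obtain ⟨𝔪, h𝔪⟩ : ∃ 𝔪 : Ideal (MonoidAlgebra k V), 𝔪 = RingHom.ker ε.toRingHom := ⟨_, rfl⟩
  have hmem : ∀ x, x ∈ 𝔪 ↔ ε x = 0 := by
    intro x
    rw [h𝔪, RingHom.mem_ker]
    rfl
  rw [← hI]
  have hFI : ∀ a ∈ F, a ∈ I := by
    intro a ha
    rw [hI]
    exact Submodule.subset_span ha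
  by_cases hle : I ≤ 𝔪 • I
  · exfalso
    have hfg : I.FG := by
      rw [hI]
      exact ⟨F, rfl⟩
    obtain ⟨r, hr1, hr⟩ :=
      Submodule.exists_sub_one_mem_and_smul_eq_zero_of_fg_of_le_smul 𝔪 I hfg hle
    obtain ⟨a, ha, ha0⟩ := hF
    have h1 : r * a = 0 := hr a (hFI a ha)
    rcases hnz.eq_zero_or_eq_zero_of_mul_eq_zero h1 with h2 | h2
    · rw [h2, zero_sub, hmem, map_neg, map_one] at hr1
      exact one_ne_zero (neg_eq_zero.1 hr1)
    · exact ha0 h2
  · obtain ⟨a₀, ha₀, ha₀'⟩ := SetLike.not_le_iff_exists.1 hle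
    have hnot : a₀ ∉ (𝔪 • I).restrictScalars k := by
      rw [Submodule.restrictScalars_mem]
      exact ha₀'
    obtain ⟨l, hl0, hl⟩ := Submodule.exists_le_ker_of_notMem hnot
    have hker : ∀ x ∈ 𝔪 • I, l x = 0 := by
      intro x hx
      have : x ∈ (𝔪 • I).restrictScalars k := by
        rw [Submodule.restrictScalars_mem]
        exact hx
      exact LinearMap.mem_ker.1 (hl this)
    have hinv : ∀ v : V, ∀ a ∈ I, l (MonoidAlgebra.single v 1 * a) = l a := by
      intro v a ha
      have h1 : (MonoidAlgebra.single v (1 : k) - 1) • a ∈ 𝔪 • I := by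
        apply Submodule.smul_mem_smul _ ha
        rw [hmem, map_sub, hε, map_one, sub_self]
      have h2 := hker _ h1
      rw [smul_eq_mul, sub_mul, one_mul, map_sub] at h2
      exact sub_eq_zero.1 h2
    refine ⟨l, hinv, ?_⟩
    by_contra hcon
    have hall : ∀ a ∈ F, l a = 0 := by
      intro a ha
      by_contra h
      exact hcon ⟨a, ha, h⟩
    apply hl0
    have hsp : ∀ x, x ∈ Submodule.span (MonoidAlgebra k V) (F : Set (MonoidAlgebra k V)) →
        l x = 0 := by
      intro x hx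
      induction hx using Submodule.span_induction with
      | mem x hx => exact hall x hx
      | zero => exact map_zero l
      | add x y _ _ h1 h2 => rw [map_add, h1, h2, add_zero]
      | smul r x hx h1 =>
        rw [smul_eq_mul]
        have hxI : x ∈ I := by rw [hI]; exact hx
        induction r using MonoidAlgebra.induction_linear with
        | zero => rw [zero_mul, map_zero]
        | add r s h2 h3 => rw [add_mul, map_add, h2, h3, add_zero]
        | single v c =>
          have h4 : (MonoidAlgebra.single v c : MonoidAlgebra k V) * x =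
              c • (MonoidAlgebra.single v (1 : k) * x) := by
            rw [← smul_mul_assoc]
            congr 1
            simp
          rw [h4, map_smul, hinv v x hxI, h1, smul_zero]
    exact hsp a₀ (by rw [← hI]; exact ha₀)

theorem nakF {k : Type} [Field k] {V : Type} [Group V] (hc : ∀ a b : V, a * b = b * a)
    (ht : ∀ (a : V) (n : ℕ), n ≠ 0 → a ^ n = 1 → a = 1) (F : Finset (MonoidAlgebra k V))
    (hF : ∃ a ∈ F, a ≠ 0) :
    ∃ l : MonoidAlgebra k V →ₗ[k] k,
      (∀ v : V, ∀ a ∈ Submodule.span (MonoidAlgebra k V) (F : Set (MonoidAlgebra k V)),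
        l (MonoidAlgebra.single v 1 * a) = l a) ∧ ∃ a ∈ F, l a ≠ 0 := by
  haveI := PDG.uniq_tf hc ht
  have hnz : NoZeroDivisors (MonoidAlgebra k V) := inferInstance
  letI : CommGroup V := { (inferInstance : Group V) with mul_comm := hc }
  exact nakF_comm hnz F hF

end Pool.Agent.PDH
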