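import Pool.Agent.PDH.LAU

/-!
# Blueprint PDH, module PL (helper41): principal lemma

THEOREM.  Let `l` be an element of the ultraproduct such that `(h - 1) l` and `(τ - 1) l` are congruent to elements of
`K = GU Y ⊤` modulo the internal integral elements, where `h ∈ ker χ`, `h ≠ 1`, `χ τ = 1`.  Then `l` is
congruent to an element of `K`.

PROOF.  Let `T = Y.A τ`, `Δ = Gb Y χ.ker`, `B = χ.ker`.  `Y.A h - 1 ≠ 0` (`PDG.Z_injective`: it is
`Y.Z (single h 1 - 1)`).  Put `λ = (Y.A h - 1)⁻¹ * fh ∈ K`, `v = l - λ`, `f = ft - (T - 1) * λ ∈ K`.  Then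
`(Y.A h - 1) * v = (Y.A h - 1) * l - fh` and `(T - 1) * v - f = (T - 1) * l - ft` are internal (`Int`).
Write `v = mkU v'`, `f = mkU f'` (`mkU_surjective`), and let `(Y.A h - 1) * v = mkU (fun n => Y.z n (i n))`,
`(T - 1) * v - f = mkU (fun n => Y.z n (j n))`.
(1) For almost all `n` (`n ≥ n₀`, `Y.a n h - 1 ≠ 0`) `v' n = (Y.a n h - 1)⁻¹ * Y.z n (i n) ∈ LP (Db Y n B) (Y.a n τ)`:
`lp_group` for `ζ = Y.z n` and the subgroup `B.map mk'` (`Y.z n (single (mk' τ) 1) = Y.a n τ`; every `γ = mk' g` satisfies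
`((mk' τ) ^ i)⁻¹ * γ ∈ B.map mk'` for `i = (χ g).toAdd`), `RB (Y.z n) C ≤ RB (Y.θ n) C ≤ Db` (`rb_le`; `zq` maps integral
elements with support in `C` to such rational elements), and `lp_mull` with `(Y.a n h - 1)⁻¹ ∈ Db Y n B`.
(2) Also `f' n = (Y.a n τ - 1) * v' n - Y.z n (j n) ∈ LP (Db Y n B) (Y.a n τ)` for almost all `n` (`lp_mul` or `lp_pow`,
`lp_sub`).  By `lau` `f ∈ LP Δ T`.  By `lp_div` `f = (T - 1) * μ + c` with `μ ∈ LP Δ T`, `c ∈ Δ`.  `μ ∈ K`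
(`Gb Y χ.ker ≤ K`, `T ∈ K`).  Put `l' = λ + μ ∈ K`.
(3) `w := l - l' = v - μ` satisfies `(T - 1) * w = ((T - 1) * v - f) + c`.  By `lp_rep` `μ = mkU μ'` and by `PDG.rep`
`c = mkU c'`, with `μ' n ∈ LP (Db Y n B) (Y.a n τ)`, `c' n ∈ Db Y n B`.  For almost all `n`, `w' n = v' n - μ' n ∈ LP ..`
and `(Y.a n τ - 1) * w' n = Y.z n (j n) + c' n`.  By `lp_group` and `lp_div` for `RB (Y.z n) (B.map mk')`
`Y.z n (j n) = (Y.a n τ - 1) * ν + d` with `ν ∈ LP (RB ..)`, `d ∈ RB .. ≤ Db`.  So `(Y.a n τ - 1) * (w' n - ν) = d + c' n ∈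
Db Y n B`, and `lp_van` (`ind_D`, `N n ≤ N n₀ ≤ χ.ker`) gives `w' n = ν`, which is in the range of `Y.z n` (`lp_range`).
So `w` is internal (choose the integral element for almost all `n`, anything for the others).
-/

set_option autoImplicit false

namespace Pool.Agent.PDH

open Pool.Agent.HFT Pool.Agent.PDG

variable {S : Type} [Group S] {N : ℕ → Subgroup S} [∀ n, (N n).Normal]

private theorem gu_mono_pl (Y : PDG.Sys N) {B B' : Subgroup S} (h : B ≤ B') :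
    PDG.GU Y B ≤ PDG.GU Y B' := by
  refine Subfield.closure_le.2 ?_
  rintro x (⟨r, rfl⟩ | ⟨b, hb, rfl⟩)
  · exact R_mem Y B' r
  · exact A_mem Y (h hb)

/-- integral elements with support in a subgroup are in the division subring -/
private theorem rbz_le (Y : PDG.Sys N) (n : ℕ) (B : Subgroup S) :
    RB (Y.z n) (B.map (QuotientGroup.mk' (N n))) ≤ Db Y n B := by
  rintro _ ⟨_, ⟨x, rfl⟩, rfl⟩
  change Y.z n (MonoidAlgebra.mapDomainRingHom ℤ _ x) ∈
    PDG.DB (Y.θ n) (B.map (QuotientGroup.mk' (N n)))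
  induction x using MonoidAlgebra.induction_linear with
  | zero =>
    rw [map_zero, map_zero]
    exact zero_mem _
  | add a b ha hb =>
    rw [map_add, map_add]
    exact add_mem ha hb
  | single c r =>
    have h1 : Y.z n (MonoidAlgebra.mapDomainRingHom ℤ
        (B.map (QuotientGroup.mk' (N n))).subtype (MonoidAlgebra.single c r)) =
        Y.θ n (MonoidAlgebra.single (c : S ⧸ N n) (r : ℚ)) := by
      change Y.θ n (PDG.zq _) = _
      rw [MonoidAlgebra.mapDomainRingHom_apply, MonoidAlgebra.mapDomain_single, PDG.zq_single]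
      rfl
    rw [h1]
    exact PDG.mem_DB_of_KB (Y.θ n) (PDG.single_mem_KB c.2 _)

/-- integral elements are Laurent polynomials -/
private theorem z_lp (Y : PDG.Sys N) (χ : S →* Multiplicative ℤ) (τ : S)
    (hτ : χ τ = Multiplicative.ofAdd 1) (n : ℕ) (x : MonoidAlgebra ℤ (S ⧸ N n)) :
    Y.z n x ∈ LP (RB (Y.z n) (χ.ker.map (QuotientGroup.mk' (N n)))) (Y.a n τ) := by
  have h1 : Y.z n (MonoidAlgebra.single (QuotientGroup.mk' (N n) τ) 1) = Y.a n τ := by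
    change Y.θ n (PDG.zq _) = Y.θ n (MonoidAlgebra.single (QuotientGroup.mk' (N n) τ) 1)
    rw [PDG.zq_single, Int.cast_one]
  have h2 := lp_group (Y.z n) (χ.ker.map (QuotientGroup.mk' (N n))) (QuotientGroup.mk' (N n) τ)
    (by
      intro γ
      obtain ⟨g, rfl⟩ := QuotientGroup.mk'_surjective (N n) γ
      refine ⟨(χ g).toAdd, τ ^ (-(χ g).toAdd) * g, ?_, ?_⟩
      · change τ ^ (-(χ g).toAdd) * g ∈ χ.ker
        rw [MonoidHom.mem_ker, map_mul, map_zpow, hτ, ← ofAdd_zsmul, smul_eq_mul, mul_one,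
          ofAdd_neg, ofAdd_toAdd, inv_mul_cancel]
      · rw [map_mul, map_zpow, zpow_neg]) x
  rw [h1] at h2
  exact h2

private theorem z_range (Y : PDG.Sys N) (χ : S →* Multiplicative ℤ) (τ : S) (n : ℕ) (x : Y.D n)
    (hx : x ∈ LP (RB (Y.z n) (χ.ker.map (QuotientGroup.mk' (N n)))) (Y.a n τ)) :
    ∃ y, x = Y.z n y := by
  have h1 : Y.z n (MonoidAlgebra.single (QuotientGroup.mk' (N n) τ) 1) = Y.a n τ := by
    change Y.θ n (PDG.zq _) = Y.θ n (MonoidAlgebra.single (QuotientGroup.mk' (N n) τ) 1)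
    rw [PDG.zq_single, Int.cast_one]
  rw [← h1] at hx
  exact lp_range (Y.z n) _ _ x hx

theorem pl (hN : PDG.Ser N) (Y : PDG.Sys N) (χ : S →* Multiplicative ℤ) (τ : S)
    (hτ : χ τ = Multiplicative.ofAdd 1) (n₀ : ℕ) (hn₀ : N n₀ ≤ χ.ker) (h : S) (hh : h ∈ χ.ker)
    (hh1 : h ≠ 1) (l fh ft : Y.U) (hfh : fh ∈ PDG.GU Y ⊤) (hft : ft ∈ PDG.GU Y ⊤)
    (i1 : Y.Int ((Y.A h - 1) * l - fh)) (i2 : Y.Int ((Y.A τ - 1) * l - ft)) :
    ∃ l' ∈ PDG.GU Y ⊤, Y.Int (l - l') := by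
  classical
  have hT0 : Y.A τ ≠ 0 := (nrm_U Y χ τ).ne
  have hanti : Antitone N := antitone_nat_of_succ_le hN.anti
  have hA1 : Y.A h - 1 ≠ 0 := by
    intro h0
    have h1 : Y.Z (MonoidAlgebra.single h 1 - 1) = Y.Z 0 := by
      rw [map_sub, map_one, Z_single, map_zero]
      simpa using h0
    have h2 := Z_injective Y hN h1
    have h3 := congrArg (fun x : MonoidAlgebra ℤ S => x.coeff h) (sub_eq_zero.1 h2)
    simp only [MonoidAlgebra.one_def, MonoidAlgebra.coeff_single, Finsupp.single_apply] at h3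
    rw [if_pos trivial, if_neg fun h => hh1 h.symm] at h3
    exact one_ne_zero h3
  obtain ⟨i, hi⟩ := i1
  obtain ⟨j, hj⟩ := i2
  set K := PDG.GU Y ⊤ with hK
  have hKA : ∀ g, Y.A g ∈ K := fun g => A_mem Y (Subgroup.mem_top g)
  set lam : Y.U := (Y.A h - 1)⁻¹ * fh with hlam
  have hlamK : lam ∈ K := mul_mem (inv_mem (sub_mem (hKA h) (one_mem _))) hfh
  set v : Y.U := l - lam with hv
  set f : Y.U := ft - (Y.A τ - 1) * lam with hf
  have hfK : f ∈ K := sub_mem hft (mul_mem (sub_mem (hKA τ) (one_mem _)) hlamK)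
  have e1 : (Y.A h - 1) * v = mkU uf Y.D fun n => Y.z n (i n) := by
    rw [← hi, hv, mul_sub, hlam, ← mul_assoc, mul_inv_cancel₀ hA1, one_mul]
  have e2 : (Y.A τ - 1) * v - f = mkU uf Y.D fun n => Y.z n (j n) := by
    rw [← hj, hv, hf, mul_sub]
    abel
  obtain ⟨v', hv'⟩ := mkU_surjective v
  obtain ⟨f', hf'⟩ := mkU_surjective f
  have e1' : ∀ᶠ n in (uf : Filter ℕ), (Y.a n h - 1) * v' n = Y.z n (i n) := by
    rw [← hv', Y.A_apply, ← map_one (mkU uf Y.D), ← map_sub, ← map_mul, mkU_eq_iff] at e1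
    exact e1
  have e2' : ∀ᶠ n in (uf : Filter ℕ), (Y.a n τ - 1) * v' n - f' n = Y.z n (j n) := by
    rw [← hv', ← hf', Y.A_apply, ← map_one (mkU uf Y.D), ← map_sub, ← map_mul, ← map_sub,
      mkU_eq_iff] at e2
    exact e2
  have e3' : ∀ᶠ n in (uf : Filter ℕ), ¬ (Y.a n h - 1 = 0) := by
    rw [Ultrafilter.eventually_not]
    intro h1
    apply hA1
    rw [Y.A_apply, ← map_one (mkU uf Y.D), ← map_sub, ← map_zero (mkU uf Y.D), mkU_eq_iff]
    exact h1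
  -- the components are Laurent polynomials
  have hzL : ∀ n x, Y.z n x ∈ LP (Db Y n χ.ker) (Y.a n τ) := fun n x =>
    lp_mono (rbz_le Y n χ.ker) (z_lp Y χ τ hτ n x)
  have haD : ∀ n, Y.a n h ∈ Db Y n χ.ker := fun n =>
    PDG.mem_DB_of_KB (Y.θ n) (PDG.single_mem_KB (Subgroup.mem_map_of_mem _ hh) 1)
  have hvL : ∀ᶠ n in (uf : Filter ℕ), v' n ∈ LP (Db Y n χ.ker) (Y.a n τ) := by
    filter_upwards [e1', e3'] with n h1 h3
    have h4 : v' n = (Y.a n h - 1)⁻¹ * Y.z n (i n) := by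
      rw [← h1, ← mul_assoc, inv_mul_cancel₀ h3, one_mul]
    rw [h4]
    refine lp_mull (nrm_D Y χ τ n) ?_ (hzL n _)
    exact (PDG.DB (Y.θ n) (χ.ker.map (QuotientGroup.mk' (N n)))).inv_mem
      ((PDG.DB (Y.θ n) (χ.ker.map (QuotientGroup.mk' (N n)))).sub_mem (haD n) (one_mem _))
  have hfL : ∀ᶠ n in (uf : Filter ℕ), f' n ∈ LP (Db Y n χ.ker) (Y.a n τ) := by
    filter_upwards [e2', hvL] with n h1 h3
    have h4 : f' n = (Y.a n τ ^ (1 : ℤ) * v' n - v' n) - Y.z n (j n) := by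
      rw [← h1, zpow_one, sub_mul, one_mul]
      abel
    rw [h4]
    exact lp_sub (lp_sub (lp_pow (nrm_D Y χ τ n).ne 1 h3) h3) (hzL n _)
  have hfLP : f ∈ LP (Gb Y χ.ker) (Y.A τ) := by
    rw [← hf']
    exact lau hN Y χ τ hτ n₀ hn₀ f' (by rw [hf']; exact hfK) hfL
  obtain ⟨μ, hμ, c, hc, hfμ⟩ := lp_div hT0 hfLP
  have hμK : μ ∈ K := by
    refine lp_induction (P := fun x => x ∈ K) (zero_mem _) ?_ (fun x y hx hy => add_mem hx hy) hμ
    intro k b hb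
    exact mul_mem (zpow_mem (hKA τ) k) (gu_mono_pl Y le_top hb)
  refine ⟨lam + μ, add_mem hlamK hμK, ?_⟩
  obtain ⟨μ', hμ', hμD⟩ := lp_rep Y χ τ μ hμ
  obtain ⟨c', hc', hcD⟩ := PDG.rep Y χ.ker c hc
  have hfe : ∀ᶠ n in (uf : Filter ℕ), f' n = (Y.a n τ - 1) * μ' n + c' n := by
    rw [← hf', hμ', hc', Y.A_apply, ← map_one (mkU uf Y.D), ← map_sub, ← map_mul, ← map_add,
      mkU_eq_iff] at hfμ
    exact hfμ
  have key : ∀ᶠ n in (uf : Filter ℕ), ∃ y, v' n - μ' n = Y.z n y := by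
    filter_upwards [e2', hvL, hfe, PDG.ev_ge n₀] with n h2 hvn hfn hn
    have hNn : N n ≤ χ.ker := (hanti hn).trans hn₀
    have hne := (nrm_D Y χ τ n).ne
    obtain ⟨ν, hν, d, hd, hz⟩ := lp_div hne (z_lp Y χ τ hτ n (j n))
    have h5 : (Y.a n τ - 1) * (v' n - μ' n - ν) = d + c' n := by
      have h6 : (Y.a n τ - 1) * (v' n - μ' n - ν) =
          ((Y.a n τ - 1) * v' n - f' n) + (f' n - (Y.a n τ - 1) * μ' n) -
            (Y.a n τ - 1) * ν := by
        rw [mul_sub, mul_sub]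
        abel
      rw [h6, h2, hz, hfn]
      abel
    have h7 : v' n - μ' n - ν = 0 := by
      refine lp_van (Δ := Db Y n χ.ker) hne (ind_D Y χ τ hτ n hNn)
        (lp_sub (lp_sub hvn (hμD n)) (lp_mono (rbz_le Y n χ.ker) hν)) ?_
      rw [h5]
      exact (Db Y n χ.ker).add_mem (rbz_le Y n χ.ker hd) (hcD n)
    obtain ⟨y, hy⟩ := z_range Y χ τ n ν hν
    exact ⟨y, by rw [← hy]; exact sub_eq_zero.1 h7⟩
  refine ⟨fun n => if h : ∃ y, v' n - μ' n = Y.z n y then h.choose else 0, ?_⟩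
  have h8 : l - (lam + μ) = mkU uf Y.D (v' - μ') := by
    rw [map_sub, hv', ← hμ', hv]
    abel
  rw [h8, mkU_eq_iff]
  filter_upwards [key] with n hn
  rw [dif_pos hn]
  exact hn.choose_spec

end Pool.Agent.PDH
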