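import Pool.Agent.PDH.RB

/-!
# Blueprint PDH, module Prin (helper41): crossed homomorphisms to the division ring are principal

Write `[g] = θ (single (q g) 1)`.
PROOF of `crs_sub`: a crossed homomorphism minus a principal one (`g ↦ (a g - 1) * l`) is crossed:
`(a (g h) - 1) l = (a g - 1) l + a g (a h - 1) l`.  `crs_gen`: if a crossed homomorphism vanishes on a set of generators it
is zero (`{g | f g = 0}` is a subgroup).
PROOF of `prin`.  `[t] - 1 ≠ 0` (`hθ.inj`, `q t ≠ 1`).  Put `l = ([t] - 1)⁻¹ * f t` and `f' g = f g - ([g] - 1) * l`, a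
crossed homomorphism with `f' t = 0` and values in `DB θ ⊤`.  Let `g_1, ..., g_n` be generators of `G`.  By
`OreEmb.common` (`B = ⊤`) there is `s` with `θ s ≠ 0` and `f' (g_j) * θ s ∈ θ(k[Γ])` for all `j`.  The set of the `g` with
`f' g * θ s ∈ range θ` is a subgroup (`f' (g h) θ s = f' g θ s + [g] f' h θ s`, `f' (g⁻¹) = -[g⁻¹] f' g`), so it is all of
`G`; choose `F g` with `f' g * θ s = θ (F g)`.  `F` is a crossed homomorphism with values in `k[Γ]` (`hθ.inj`), `F t = 0`,
so `F = 0` by `hE`, `f' = 0`.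
-/

set_option autoImplicit false

namespace Pool.Agent.PDH

theorem crs_sub {G : Type} [Group G] {R : Type} [Ring R] {a : G →* R} {f : G → R} (hf : Crs a f)
    (l : R) : Crs a (fun g => f g - (a g - 1) * l) := by
  intro g h
  change f (g * h) - (a (g * h) - 1) * l = f g - (a g - 1) * l + a g * (f h - (a h - 1) * l)
  rw [hf g h, map_mul]
  noncomm_ring

theorem crs_gen {G : Type} [Group G] {R : Type} [Ring R] {a : G →* R} {f : G → R} (hf : Crs a f)
    (E : Set G) (hE : Subgroup.closure E = ⊤) (h : ∀ g ∈ E, f g = 0) : ∀ g, f g = 0 := by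
  have h1 : f 1 = 0 := by
    have := hf 1 1
    rw [mul_one, map_one, one_mul] at this
    exact left_eq_add.1 this
  intro g
  have hg : g ∈ Subgroup.closure E := by
    rw [hE]
    exact Subgroup.mem_top g
  induction hg using Subgroup.closure_induction with
  | mem x hx => exact h x hx
  | one => exact h1
  | mul x y _ _ hx hy => rw [hf, hx, hy, mul_zero, add_zero]
  | inv x _ hx =>
    have := hf x⁻¹ x
    rw [inv_mul_cancel, h1, hx, mul_zero, add_zero] at this
    exact this.symm

theorem prin {k : Type} [Field k] {G Γ : Type} [Group G] [Group Γ] (hfg : Group.FG G) {D : Type}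
    [DivisionRing D] (θ : MonoidAlgebra k Γ →+* D) (hθ : OreEmb θ) (q : G →* Γ) (t : G)
    (ht : q t ≠ 1) (hE : EK k q t) (f : G → D) (hfD : ∀ g, f g ∈ DB θ ⊤)
    (hf : ∀ g h, f (g * h) = f g + θ (MonoidAlgebra.single (q g) 1) * f h) :
    ∀ g, f g = (θ (MonoidAlgebra.single (q g) 1) - 1) *
      ((θ (MonoidAlgebra.single (q t) 1) - 1)⁻¹ * f t) := by
  classical
  let a : G →* D := (θ : MonoidAlgebra k Γ →* D).comp (go k q)
  have ha : ∀ g, a g = θ (MonoidAlgebra.single (q g) 1) := fun g => rfl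
  have hT : θ (MonoidAlgebra.single (q t) 1) - 1 ≠ 0 := by
    intro h0
    have h1 : θ (MonoidAlgebra.single (q t) 1) = θ 1 := by
      rw [map_one]
      exact sub_eq_zero.1 h0
    have h2 := hθ.inj h1
    have h3 := congrArg (fun x : MonoidAlgebra k Γ => x.coeff (q t)) h2
    simp only [MonoidAlgebra.one_def, MonoidAlgebra.coeff_single, Finsupp.single_apply] at h3
    rw [if_pos trivial, if_neg fun h => ht h.symm] at h3
    exact one_ne_zero h3
  set l : D := (θ (MonoidAlgebra.single (q t) 1) - 1)⁻¹ * f t with hl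
  have hfc : Crs a f := fun g h => hf g h
  have hfc' := crs_sub hfc l
  set f' : G → D := fun g => f g - (a g - 1) * l with hf'
  have haD : ∀ g, a g ∈ DB θ (⊤ : Subgroup Γ) := fun g =>
    mem_DB_of_KB θ (single_mem_KB (Subgroup.mem_top _) 1)
  have hlD : l ∈ DB θ (⊤ : Subgroup Γ) :=
    mul_mem (inv_mem (sub_mem (haD t) (one_mem _))) (hfD t)
  have hf'D : ∀ g, f' g ∈ DB θ (⊤ : Subgroup Γ) := fun g =>
    sub_mem (hfD g) (mul_mem (sub_mem (haD g) (one_mem _)) hlD)
  have hf't : f' t = 0 := by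
    change f t - (a t - 1) * l = 0
    rw [ha, hl, ← mul_assoc, mul_inv_cancel₀ hT, one_mul, sub_self]
  obtain ⟨S, hS⟩ := hfg.out
  let e := S.equivFin.symm
  obtain ⟨s, -, hs0, hs⟩ := hθ.common ⊤ S.card (fun i => f' (e i).1) fun i => hf'D _
  have hex : ∀ g, ∃ y, f' g * θ s = θ y := by
    have h1 : f' 1 = 0 := by
      have := hfc' 1 1
      rw [mul_one, map_one, one_mul] at this
      exact left_eq_add.1 this
    intro g
    have hg : g ∈ Subgroup.closure (S : Set G) := by
      rw [hS]
      exact Subgroup.mem_top g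
    induction hg using Subgroup.closure_induction with
    | mem x hx =>
      obtain ⟨y, -, hy⟩ := hs (e.symm ⟨x, hx⟩)
      rw [Equiv.apply_symm_apply] at hy
      exact ⟨y, hy⟩
    | one => exact ⟨0, by rw [h1, zero_mul, map_zero]⟩
    | mul x y _ _ hx hy =>
      obtain ⟨u, hu⟩ := hx
      obtain ⟨v, hv⟩ := hy
      refine ⟨u + MonoidAlgebra.single (q x) 1 * v, ?_⟩
      rw [hfc' x y, add_mul, hu, mul_assoc, hv, map_add, map_mul, ha]
    | inv x _ hx =>
      obtain ⟨u, hu⟩ := hx
      have h2 := hfc' x⁻¹ x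
      rw [inv_mul_cancel, h1] at h2
      have h3 : f' x⁻¹ = -(a x⁻¹ * f' x) := eq_neg_of_add_eq_zero_left h2.symm
      refine ⟨-(MonoidAlgebra.single (q x⁻¹) 1 * u), ?_⟩
      rw [h3, neg_mul, mul_assoc, hu, map_neg, map_mul, ha]
  choose F hF using hex
  have hFc : Crs (go k q) F := by
    intro g h
    apply hθ.inj
    rw [← hF, hfc' g h, add_mul, hF, mul_assoc, hF, map_add, map_mul, ha, go_apply]
  have hFt : F t = 0 := by
    apply hθ.inj
    rw [← hF, hf't, zero_mul, map_zero]
  have hF0 := hE F hFc hFt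
  intro g
  have h4 : f' g = 0 := by
    have h5 := hF g
    rw [hF0 g, map_zero] at h5
    exact (mul_eq_zero.1 h5).resolve_right hs0
  have h6 : f g - (a g - 1) * l = 0 := h4
  exact sub_eq_zero.1 h6

end Pool.Agent.PDH
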