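import Pool.Agent.PDH.Prin

/-!
# Blueprint PDH, module PrinG (helper41): crossed homomorphisms to the group ring are principal

PROOF.  Apply `prin` to `θ ∘ f` (`mem_DB_of_KB`): there is `λ ∈ D` with `θ (f g) = ([g] - 1) λ` for all `g ∈ G`, where
`[g] = θ (single (q g) 1)`.  Let `B = χ.ker`, `T = θ (single τ 1)`, `Δ = (DB θ B).toSubring`.  `Nrm Δ T` (`nrm_db`, `B` is
normal) and `Ind Δ T` (`ind_db`: `χ (τ ^ i) = ofAdd i`).  For every `γ ∈ Γ` with `χ γ = ofAdd i` we have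
`(τ ^ i)⁻¹ * γ ∈ B`, so `lp_group` applies.
Choose `g, g' ∈ G` with `q g = h`, `q g' = τ`.  `u = θ (single h 1) - 1 ∈ Δ`, `u ≠ 0`, and `λ = u⁻¹ * θ (f g) ∈ LP Δ T` by
`lp_group`, `rb_le`, `lp_mono` and `lp_mull` (`u⁻¹ ∈ Δ`).  `(T - 1) λ = θ (f g') ∈ LP (RB θ B) T`, so by `lp_div` (for
`RB θ B`) `θ (f g') = (T - 1) μ + c` with `μ ∈ LP (RB θ B) T`, `c ∈ RB θ B`.  Hence `(T - 1) (λ - μ) = c ∈ Δ` and
`λ = μ` by `lp_van`.  By `lp_range` `λ = θ l`, and `f g = (single (q g) 1 - 1) * l` by injectivity of `θ`.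
-/

set_option autoImplicit false

namespace Pool.Agent.PDH

theorem prin_gr {k : Type} [Field k] {G Γ : Type} [Group G] [Group Γ] (hfg : Group.FG G)
    {D : Type} [DivisionRing D] (θ : MonoidAlgebra k Γ →+* D) (hθ : OreEmb θ) (q : G →* Γ)
    (hq : Function.Surjective q) (t : G) (ht : q t ≠ 1) (hE : EK k q t)
    (χ : Γ →* Multiplicative ℤ) (τ : Γ) (hτ : χ τ = Multiplicative.ofAdd 1) (h : Γ)
    (hh : h ∈ χ.ker) (hh1 : h ≠ 1) (f : G → MonoidAlgebra k Γ) (hf : Crs (go k q) f) :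
    ∃ l : MonoidAlgebra k Γ, ∀ g, f g = (MonoidAlgebra.single (q g) 1 - 1) * l := by
  obtain ⟨g₁, hg₁⟩ := hq h
  obtain ⟨g₂, hg₂⟩ := hq τ
  have hf' : ∀ g g', θ (f (g * g')) = θ (f g) + θ (MonoidAlgebra.single (q g) 1) * θ (f g') := by
    intro g g'
    rw [hf g g', map_add, map_mul, go_apply]
  obtain ⟨lam, hlam⟩ : ∃ lam : D, ∀ g, θ (f g) = (θ (MonoidAlgebra.single (q g) 1) - 1) * lam :=
    ⟨_, prin hfg θ hθ q t ht hE (fun g => θ (f g))
      (fun g => mem_DB_of_KB θ (mem_KB.2 fun _ _ => Subgroup.mem_top _)) hf'⟩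
  have hpow : ∀ i : ℤ, χ (τ ^ i) = Multiplicative.ofAdd i := by
    intro i
    rw [map_zpow, hτ, ← ofAdd_zsmul, smul_eq_mul, mul_one]
  have hN : Nrm (DB θ χ.ker).toSubring (θ (MonoidAlgebra.single τ 1)) := by
    apply nrm_db
    intro b
    rw [MonoidHom.mem_ker, MonoidHom.mem_ker, map_mul, map_mul, map_inv, mul_comm (χ τ),
      mul_inv_cancel_right]
  have hI : Ind (DB θ χ.ker).toSubring (θ (MonoidAlgebra.single τ 1)) := by
    apply ind_db hθ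
    intro i hi
    rw [MonoidHom.mem_ker, hpow] at hi
    exact ofAdd_eq_one.1 hi
  have hcov : ∀ γ : Γ, ∃ i : ℤ, (τ ^ i)⁻¹ * γ ∈ χ.ker := by
    intro γ
    refine ⟨Multiplicative.toAdd (χ γ), ?_⟩
    rw [MonoidHom.mem_ker, map_mul, map_inv, hpow, ofAdd_toAdd, inv_mul_cancel]
  have hu : θ (MonoidAlgebra.single h 1) - 1 ∈ (DB θ χ.ker).toSubring :=
    Subring.sub_mem _ (mem_DB_of_KB θ (single_mem_KB hh 1)) (Subring.one_mem _)
  have hu0 : θ (MonoidAlgebra.single h 1) - 1 ≠ 0 := by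
    intro h0
    rw [sub_eq_zero, ← map_one θ] at h0
    have h1 := hθ.inj h0
    rw [MonoidAlgebra.one_def] at h1
    have h2 := congrArg (fun x : MonoidAlgebra k Γ => x.coeff h) h1
    simp only [MonoidAlgebra.coeff_single] at h2
    rw [Finsupp.single_eq_same, Finsupp.single_eq_of_ne hh1] at h2
    exact one_ne_zero h2
  have hl1 : lam = (θ (MonoidAlgebra.single h 1) - 1)⁻¹ * θ (f g₁) := by
    rw [hlam g₁, hg₁, inv_mul_cancel_left₀ hu0]
  have hlLP : lam ∈ LP (DB θ χ.ker).toSubring (θ (MonoidAlgebra.single τ 1)) := by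
    rw [hl1]
    apply lp_mull hN
    · exact (DB θ χ.ker).inv_mem hu
    · exact lp_mono (rb_le θ χ.ker) (lp_group θ χ.ker τ hcov (f g₁))
  obtain ⟨μ, hμ, c, hc, hdiv⟩ := lp_div hN.ne (lp_group θ χ.ker τ hcov (f g₂))
  have hmu : lam - μ = 0 := by
    apply lp_van hN.ne hI (lp_sub hlLP (lp_mono (rb_le θ χ.ker) hμ))
    have h1 : (θ (MonoidAlgebra.single τ 1) - 1) * (lam - μ) = c := by
      have h2 := hlam g₂
      rw [hg₂, hdiv] at h2
      rw [mul_sub, ← h2, add_sub_cancel_left]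
    rw [h1]
    exact rb_le θ χ.ker hc
  have hmu' : lam = μ := sub_eq_zero.1 hmu
  obtain ⟨l, hl⟩ := lp_range θ χ.ker τ lam (by rw [hmu']; exact hμ)
  refine ⟨l, fun g => hθ.inj ?_⟩
  rw [hlam g, map_mul, map_sub, map_one, hl]

end Pool.Agent.PDH
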