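import Pool.Agent.PDH.LPa
import Pool.Agent.PDH.Lin

/-!
# Blueprint PDH, module RB (helper41): elements of group rings as skew Laurent polynomials

`RB ζ B` is the image under `ζ : A[Γ] → D` of the elements with support in `B`.
PROOF of `lp_group`.  `MonoidAlgebra.induction_linear`; for `single γ r` take `i` with `b := (τ ^ i)⁻¹ * γ ∈ B`; then
`ζ (single γ r) = ζ (single τ 1) ^ i * ζ (single b r)` (`ζ (single τ 1) ^ i = ζ (single (τ ^ i) 1)` for integers `i`, because
`γ ↦ ζ (single γ 1)` is a homomorphism to `D`; `map_zpow` for the monoid homomorphism to `D`, a group with zero, see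
`map_zpow'`, or by cases on `i`).
`lp_range`: `lp_induction`; the range of `ζ` contains all `ζ (single τ 1) ^ i` and `RB ζ B`, and it is a subring.
`rb_le`: `RB θ B` is the image of `KB B`; `mem_DB_of_KB`.
`nrm_db`: for the generators `θ (single b r)` of `DB θ B` (`DB_single`) conjugation by `θ (single τ 1)` gives
`θ (single (τ b τ⁻¹) r)`; conjugation is a ring automorphism of `D` (see `grU` in `PDG/TS.lean`).
`ind_db`: enumerate `F` by `Fin n`, `OreEmb.indep` with `g l = τ ^ i_l`: `(τ ^ i)⁻¹ * τ ^ j = τ ^ (j - i) ∈ B` gives `j = i`.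
-/

set_option autoImplicit false

namespace Pool.Agent.PDH

/-- the image of the elements with support in a subgroup -/
noncomputable def RB {A : Type} [CommRing A] {Γ : Type} [Group Γ] {D : Type} [DivisionRing D]
    (ζ : MonoidAlgebra A Γ →+* D) (B : Subgroup Γ) : Subring D :=
  ((MonoidAlgebra.mapDomainRingHom A B.subtype).range).map ζ

private theorem rb_zpow {A : Type} [CommRing A] {Γ : Type} [Group Γ] {D : Type} [DivisionRing D]
    (ζ : MonoidAlgebra A Γ →+* D) (τ : Γ) (i : ℤ) :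
    ζ (MonoidAlgebra.single (τ ^ i) 1) = ζ (MonoidAlgebra.single τ 1) ^ i := by
  set φ : Γ →* D := (ζ : MonoidAlgebra A Γ →* D).comp (MonoidAlgebra.of A Γ) with hφ
  have h1 : ∀ γ, ζ (MonoidAlgebra.single γ 1) = ((φ.toHomUnits γ : Dˣ) : D) := fun γ => rfl
  rw [h1, h1, map_zpow, Units.val_zpow_eq_zpow_val]

private theorem rb_mem {A : Type} [CommRing A] {Γ : Type} [Group Γ] {D : Type} [DivisionRing D]
    (ζ : MonoidAlgebra A Γ →+* D) {B : Subgroup Γ} {b : Γ} (hb : b ∈ B) (r : A) :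
    ζ (MonoidAlgebra.single b r) ∈ RB ζ B :=
  ⟨MonoidAlgebra.single b r, ⟨MonoidAlgebra.single ⟨b, hb⟩ r, by simp⟩, rfl⟩

theorem lp_group {A : Type} [CommRing A] {Γ : Type} [Group Γ] {D : Type} [DivisionRing D]
    (ζ : MonoidAlgebra A Γ →+* D) (B : Subgroup Γ) (τ : Γ)
    (hB : ∀ γ : Γ, ∃ i : ℤ, (τ ^ i)⁻¹ * γ ∈ B) (x : MonoidAlgebra A Γ) :
    ζ x ∈ LP (RB ζ B) (ζ (MonoidAlgebra.single τ 1)) := by
  induction x using MonoidAlgebra.induction_linear with
  | zero => rw [map_zero]; exact lp_zero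
  | add f g hf hg => rw [map_add]; exact lp_add hf hg
  | single γ r =>
    obtain ⟨i, hi⟩ := hB γ
    have e : ζ (MonoidAlgebra.single γ r) =
        ζ (MonoidAlgebra.single τ 1) ^ i * ζ (MonoidAlgebra.single ((τ ^ i)⁻¹ * γ) r) := by
      rw [← rb_zpow, ← map_mul, MonoidAlgebra.single_mul_single, one_mul, mul_inv_cancel_left]
    rw [e]
    exact lp_term i (rb_mem ζ hi r)

theorem lp_range {A : Type} [CommRing A] {Γ : Type} [Group Γ] {D : Type} [DivisionRing D]
    (ζ : MonoidAlgebra A Γ →+* D) (B : Subgroup Γ) (τ : Γ) (x : D)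
    (hx : x ∈ LP (RB ζ B) (ζ (MonoidAlgebra.single τ 1))) : ∃ y, x = ζ y := by
  refine lp_induction (P := fun x => ∃ y, x = ζ y) ?_ ?_ ?_ hx
  · exact ⟨0, (map_zero ζ).symm⟩
  · rintro i c ⟨y, _, rfl⟩
    refine ⟨MonoidAlgebra.single (τ ^ i) 1 * y, ?_⟩
    rw [map_mul, rb_zpow]
  · rintro x y ⟨a, rfl⟩ ⟨b, rfl⟩
    exact ⟨a + b, (map_add ζ a b).symm⟩

variable {k : Type} [Field k] {Γ : Type} [Group Γ] {D : Type} [DivisionRing D]
  {θ : MonoidAlgebra k Γ →+* D}

theorem rb_le (θ : MonoidAlgebra k Γ →+* D) (B : Subgroup Γ) : RB θ B ≤ (DB θ B).toSubring := by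
  rintro _ ⟨y, hy, rfl⟩
  exact mem_DB_of_KB θ hy

/-- conjugation by a nonzero element -/
private def rbCj (T : D) (hT : T ≠ 0) : D →+* D where
  toFun x := T * x * T⁻¹
  map_one' := by rw [mul_one, mul_inv_cancel₀ hT]
  map_mul' x y := by
    rw [mul_assoc (T * x), ← mul_assoc T⁻¹, ← mul_assoc T⁻¹ T, inv_mul_cancel₀ hT, one_mul]
    simp only [mul_assoc]
  map_zero' := by rw [mul_zero, zero_mul]
  map_add' x y := by rw [mul_add, add_mul]

private theorem rb_closed (θ : MonoidAlgebra k Γ →+* D) (B : Subgroup Γ) (T : D) (hT : T ≠ 0)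
    (h : ∀ b ∈ B, ∀ r : k, T * θ (MonoidAlgebra.single b r) * T⁻¹ ∈ DB θ B) :
    ∀ c ∈ DB θ B, T * c * T⁻¹ ∈ DB θ B := by
  have h1 : DB θ B ≤ (DB θ B).comap (rbCj T hT) := by
    conv_lhs => rw [DB_single]
    apply Subfield.closure_le.2
    rintro _ ⟨b, hb, r, rfl⟩
    exact h b hb r
  exact fun c hc => h1 hc

theorem nrm_db (θ : MonoidAlgebra k Γ →+* D) (B : Subgroup Γ) (τ : Γ)
    (hτ : ∀ b, b ∈ B ↔ τ * b * τ⁻¹ ∈ B) :
    Nrm (DB θ B).toSubring (θ (MonoidAlgebra.single τ 1)) := by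
  have h1 : θ (MonoidAlgebra.single τ 1) * θ (MonoidAlgebra.single τ⁻¹ 1) = 1 := by
    rw [← map_mul, MonoidAlgebra.single_mul_single, mul_inv_cancel, mul_one,
      ← MonoidAlgebra.one_def, map_one]
  have hT : θ (MonoidAlgebra.single τ 1) ≠ 0 := left_ne_zero_of_mul_eq_one h1
  have hi : (θ (MonoidAlgebra.single τ 1))⁻¹ = θ (MonoidAlgebra.single τ⁻¹ 1) :=
    inv_eq_of_mul_eq_one_right h1
  refine ⟨hT, ?_, ?_⟩
  · apply rb_closed θ B _ hT
    intro b hb r
    rw [hi, ← map_mul, ← map_mul, MonoidAlgebra.single_mul_single,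
      MonoidAlgebra.single_mul_single, one_mul, mul_one]
    exact mem_DB_of_KB θ (single_mem_KB ((hτ b).1 hb) r)
  · have := rb_closed θ B (θ (MonoidAlgebra.single τ 1))⁻¹ (inv_ne_zero hT) ?_
    · intro c hc
      have h2 := this c hc
      rwa [inv_inv] at h2
    · intro b hb r
      rw [inv_inv, hi, ← map_mul, ← map_mul, MonoidAlgebra.single_mul_single,
        MonoidAlgebra.single_mul_single, one_mul, mul_one]
      refine mem_DB_of_KB θ (single_mem_KB ((hτ _).2 ?_) r)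
      have e : τ * (τ⁻¹ * b * τ) * τ⁻¹ = b := by group
      rwa [e]

theorem ind_db (h : OreEmb θ) (B : Subgroup Γ) (τ : Γ) (hτ : ∀ i : ℤ, τ ^ i ∈ B → i = 0) :
    Ind (DB θ B).toSubring (θ (MonoidAlgebra.single τ 1)) := by
  intro F c hc hs
  let e := F.equivFin.symm
  have hind := h.indep B F.card (fun i => τ ^ (e i).1) (fun i j hij => by
      rw [← zpow_neg, ← zpow_add] at hij
      have h1 := hτ _ hij
      apply e.injective
      apply Subtype.ext
      omega) (fun i => c (e i).1) (fun i => hc _) (by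
      rw [Equiv.sum_comp e (fun q : F => θ (MonoidAlgebra.single (τ ^ q.1) 1) * c q.1),
        Finset.sum_coe_sort F (fun q => θ (MonoidAlgebra.single (τ ^ q) 1) * c q)]
      simp only [rb_zpow]
      exact hs)
  intro i hi
  have := hind (e.symm ⟨i, hi⟩)
  rwa [Equiv.apply_symm_apply] at this

end Pool.Agent.PDH
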