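import Pool.Agent.PDH.BetaE
import Pool.Agent.PDH.LiftP
import Pool.Agent.PDF.Extract

/-!
# Blueprint PDH, module TF (helper41): a derived factor without `p`-torsion

THEOREM.  `G` a `PD_3`-group, `M` a normal subgroup contained in the commutator subgroup, `Γ = G / M`.  If every crossed
homomorphism `G → (ℤ/p)[Γ]` is the reduction of a crossed homomorphism `G → ℤ[Γ]` then `M / ⁅M, M⁆` has no
`p`-torsion.

PROOF.  `extract G hG` gives `e0, ..., d3`, `m`, `m'`, `s` with `h : Half e0 e1 d1 d2 m` and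
`h' : Half (dag s e3) (dag s e2) (dag s d3) (dag s d2) m'`.  `M ≤ commutator G ≤ s.ker`, so `s = s'.comp π` for
`π = mk' M` and a character `s'` of `Γ` (as in `PDG.core`, file `PDG/Main.lean`); `subst`.  From `h'`: `e2 * d2 = d2`,
`d3 * d2 = 0` (as `h23`, `h32` there).  Write bars for `.map (mp π)`; `dag_mp`.
Take `hd : ChD e0 e1 d1 m u x p` and `hd' : ChD (dag s e3) (dag s e2) (dag s d3) m' u' x' p'` (`exists_chd`).
Let `z j = mp π (x g j)`.  By `zk_pow` `(p : ℤ) • z = y ᵥ* d̄2` for some `y`, and we may replace `y` by `y ᵥ* ē2`: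
then `y ᵥ* ē2 = y` (`e2 * e2 = e2` from `h'.e1e1`).
Reduce modulo `p`: `rd p` of `y ᵥ* d̄2` vanishes.  Let `ζ j = rd p (iota s' (y j))`, a column over `(ℤ/p)[Γ]`, and
`ρ = (rd p).comp (mp π)`.  Then `∑ j, ρ (dag s e2 i j) * ζ j = ζ i` and `∑ j, ρ (dag s d2 l j) * ζ j = 0`:
`mp π (dag s d2 l j) = iota s' (mp π (d2 j l))`, and `∑ j, iota s' (d̄2 j l) * iota s' (y j) = iota s' ((y ᵥ* d̄2) l)`
is divisible by `p`.
Let `f g' = ∑ j, ρ (x' g' j) * ζ j`; it is a crossed homomorphism by `ch_crs` (for `h'`), so by hypothesis there is a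
crossed homomorphism `F` with values in `ℤ[Γ]` and `rd p (F g') = f g'`.  Choose lifts `μ j ∈ ℤ[Γ]` of
`∑ l, ρ (p' j l) * ζ l` (`rd_surjective`).  Let
`Z i = gext F (∑ j, m' j • dag s d3 i j) + ∑ j, mp π (dag s d3 i j) * μ j`.  By `ch_ext` (for `h'` and `mp π`) `Z` satisfies
the same two equations over `ℤ[Γ]`, and by `ch_formula` `rd p (Z i) = ζ i` (`rd p (gext F a) = gext f a`).
Let `y' j = iota s' (Z j)`.  Then `y' ᵥ* ē2 = y'`, `y' ᵥ* d̄2 = 0` (apply `iota s'` to the two equations), and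
`rd p (iota s' (y j) - Z j) = 0`, so `iota s' (y j) - Z j = (p : ℤ) • w j` (`rd_eq_zero`), `y j - y' j = (p : ℤ) • iota s' (w j)`.
Hence `(p : ℤ) • z = (y - y') ᵥ* d̄2 = (p : ℤ) • (y'' ᵥ* d̄2)` with `y'' j = iota s' (w j)`, and `z = y'' ᵥ* d̄2` (`ℤ[Γ]` is
torsion free).  By `beta_elem` `g ∈ ⁅π.ker, π.ker⁆ = ⁅M, M⁆` (`QuotientGroup.ker_mk'`).
-/

set_option autoImplicit false

namespace Pool.Agent.PDH

open Pool.Agent.PDF Matrix

private theorem dag_col {G H : Type} [Group G] [Group H] (π : G →* H) (s' : H →* ℤˣ)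
    {a b : Type} [Fintype a] (A : Matrix a b (MonoidAlgebra ℤ G)) (y : a → MonoidAlgebra ℤ H)
    (i : b) : ∑ j, mp π (dag (s'.comp π) A i j) * iota s' (y j) =
      iota s' ((y ᵥ* A.map (mp π)) i) := by
  simp only [dag_apply, mp_iota, Matrix.vecMul, dotProduct, map_sum, iota_mul, Matrix.map_apply]

private theorem rd_gext {G Γ : Type} [Group G] [Group Γ] (p : ℕ)
    (F : G → MonoidAlgebra ℤ Γ) (a : MonoidAlgebra ℤ G) :
    rd p (gext F a) = gext (fun g => rd p (F g)) a := by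
  induction a using MonoidAlgebra.induction_linear with
  | zero => rw [map_zero, map_zero, map_zero]
  | add a b ha hb => rw [map_add, map_add, map_add, ha, hb]
  | single g n => rw [gext_single, gext_single, map_zsmul]

private theorem smul_p_zero {Γ : Type} [Group Γ] (p : ℕ) (x : MonoidAlgebra (ZMod p) Γ) :
    (p : ℤ) • x = 0 := by
  induction x using MonoidAlgebra.induction_linear with
  | zero => exact smul_zero _
  | add a b ha hb => rw [smul_add, ha, hb, add_zero]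
  | single g n =>
    rw [MonoidAlgebra.smul_single]
    have : (p : ℤ) • n = 0 := by
      rw [zsmul_eq_mul]
      simp
    rw [this, MonoidAlgebra.single_zero]

theorem tf_step {G : Type} [Group G] (hG : IsPD3 G) (M : Subgroup G) [M.Normal]
    (hM : M ≤ commutator G) (p : ℕ) [Fact p.Prime]
    (hlift : ∀ f : G → MonoidAlgebra (ZMod p) (G ⧸ M),
      Crs (go (ZMod p) (QuotientGroup.mk' M)) f →
      ∃ F : G → MonoidAlgebra ℤ (G ⧸ M), Crs (go ℤ (QuotientGroup.mk' M)) F ∧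
        ∀ g, rd p (F g) = f g)
    (g : G) (hg : g ∈ M) (hp : g ^ p ∈ ⁅M, M⁆) : g ∈ ⁅M, M⁆ := by
  classical
  obtain ⟨n0, n1, n2, n3, e0, e1, e2, e3, d1, d2, d3, m, m', s, h, h'⟩ := extract G hG
  set π := QuotientGroup.mk' M with hπdef
  have hπ : Function.Surjective π := QuotientGroup.mk'_surjective M
  have hker : π.ker = M := QuotientGroup.ker_mk' M
  have hs : π.ker ≤ s.ker := by
    rw [hker]
    exact hM.trans (Abelianization.commutator_subset_ker s)
  obtain ⟨s', hs'⟩ : ∃ s' : (G ⧸ M) →* ℤˣ, s'.comp π = s :=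
    ⟨π.liftOfSurjective hπ ⟨s, hs⟩, MonoidHom.liftOfRightInverse_comp _ _ _ ⟨s, hs⟩⟩
  subst hs'
  have h22 : e2 * e2 = e2 := by
    have := congrArg (dag (s'.comp π)) h'.e1e1
    rwa [dag_mul, dag_dag] at this
  have h23 : e2 * d2 = d2 := by
    have := congrArg (dag (s'.comp π)) h'.d2e1
    rwa [dag_mul, dag_dag, dag_dag] at this
  have h22' : e2.map (mp π) * e2.map (mp π) = e2.map (mp π) := by
    rw [← Matrix.map_mul, h22]
  have h23' : e2.map (mp π) * d2.map (mp π) = d2.map (mp π) := by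
    rw [← Matrix.map_mul, h23]
  obtain ⟨u, x, pp, hd⟩ := exists_chd h.toBase
  obtain ⟨u', x', p', hd'⟩ := exists_chd h'.toBase
  have hgk : g ∈ π.ker := by
    rw [hker]
    exact hg
  obtain ⟨y₀, hy₀⟩ := zk_pow π h hd g hgk p (by rw [hker]; exact hp)
  set z : Fin n1 → MonoidAlgebra ℤ (G ⧸ M) := fun j => mp π (x g j) with hz
  set y : Fin n2 → MonoidAlgebra ℤ (G ⧸ M) := y₀ ᵥ* e2.map (mp π) with hy
  have hye : y ᵥ* e2.map (mp π) = y := by
    rw [hy, Matrix.vecMul_vecMul, h22']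
  have hyd : y ᵥ* d2.map (mp π) = (p : ℤ) • z := by
    rw [hy, Matrix.vecMul_vecMul, h23', hy₀]
  let ρ : MonoidAlgebra ℤ G →+* MonoidAlgebra (ZMod p) (G ⧸ M) := (rd p).comp (mp π)
  have hρ : ∀ a, ρ a = rd p (mp π a) := fun a => rfl
  have hρ1 : ∀ a : G, ρ (MonoidAlgebra.single a 1) = MonoidAlgebra.single (π a) 1 := by
    intro a
    rw [hρ, mp_single, rd_single, Int.cast_one]
  set ζ : Fin n2 → MonoidAlgebra (ZMod p) (G ⧸ M) := fun j => rd p (iota s' (y j)) with hζ
  have h1 : ∀ i, ∑ j, ρ (dag (s'.comp π) e2 i j) * ζ j = ζ i := by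
    intro i
    simp only [hρ, hζ, ← map_mul, ← map_sum]
    rw [dag_col, hye]
  have h2 : ∀ l, ∑ j, ρ (dag (s'.comp π) d2 l j) * ζ j = 0 := by
    intro l
    simp only [hρ, hζ, ← map_mul, ← map_sum]
    rw [dag_col, hyd, Pi.smul_apply, map_zsmul, map_zsmul, smul_p_zero]
  set f : G → MonoidAlgebra (ZMod p) (G ⧸ M) := fun a => ∑ j, ρ (x' a j) * ζ j with hf
  have hfc : Crs (go (ZMod p) π) f := by
    intro a b
    have h3 := ch_crs h' hd' ρ ζ h2 a b
    rw [hρ1] at h3
    exact h3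
  obtain ⟨F, hF, hFf⟩ := hlift f hfc
  have hF' : ∀ a b, F (a * b) = F a + mp π (MonoidAlgebra.single a 1) * F b := by
    intro a b
    rw [mp_single]
    exact hF a b
  choose μ hμ using fun j => rd_surjective p (∑ l, ρ (p' j l) * ζ l)
  obtain ⟨k1, k2⟩ := ch_ext h' (mp π) F hF' μ
  set Z : Fin n2 → MonoidAlgebra ℤ (G ⧸ M) := fun j =>
    gext F (∑ j', m' j' • dag (s'.comp π) d3 j j') +
      ∑ j', mp π (dag (s'.comp π) d3 j j') * μ j' with hZ
  have hZζ : ∀ i, rd p (Z i) = ζ i := by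
    intro i
    have e1 : ∀ a, rd p (gext F a) = gext (fun g => ∑ j, ρ (x' g j) * ζ j) a := by
      intro a
      rw [rd_gext]
      have e2 : (fun g => rd p (F g)) = fun g => ∑ j, ρ (x' g j) * ζ j := by
        funext b
        exact hFf b
      rw [e2]
    rw [ch_formula h' hd' ρ ζ h1 h2 i]
    simp only [hZ]
    rw [map_add, e1]
    congr 1
    rw [map_sum]
    refine Finset.sum_congr rfl fun j _ => ?_
    rw [map_mul, hμ]
    rfl
  set y' : Fin n2 → MonoidAlgebra ℤ (G ⧸ M) := fun j => iota s' (Z j) with hy'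
  have hy'd : y' ᵥ* d2.map (mp π) = 0 := by
    funext i
    have h3 := dag_col π s' d2 y' i
    have h4 : ∑ j, mp π (dag (s'.comp π) d2 i j) * iota s' (y' j) = 0 := by
      simp only [hy', iota_iota]
      exact k2 i
    rw [h4] at h3
    have h5 := congrArg (iota s') h3
    rw [map_zero, iota_iota] at h5
    exact h5.symm
  choose w hw using fun j => rd_eq_zero p (iota s' (y j) - Z j) (by
    rw [map_sub, hZζ, sub_self])
  set y'' : Fin n2 → MonoidAlgebra ℤ (G ⧸ M) := fun j => iota s' (w j) with hy''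
  have hyy : y - y' = (p : ℤ) • y'' := by
    funext j
    have h3 := congrArg (iota s') (hw j)
    rw [map_sub, iota_iota, map_zsmul] at h3
    exact h3
  have hfin : (p : ℤ) • z = (p : ℤ) • (y'' ᵥ* d2.map (mp π)) := by
    rw [← hyd, ← Matrix.smul_vecMul, ← hyy, Matrix.sub_vecMul, hy'd, sub_zero]
  have hp0 : (p : ℤ) ≠ 0 := by
    exact_mod_cast (Fact.out : p.Prime).ne_zero
  have hzz : y'' ᵥ* d2.map (mp π) = z := by
    funext j
    have h3 := congrFun hfin j
    rw [Pi.smul_apply, Pi.smul_apply] at h3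
    ext γ
    have h4 := congrArg (fun t : MonoidAlgebra ℤ (G ⧸ M) => t.coeff γ) h3
    simp only [MonoidAlgebra.coeff_smul, Finsupp.smul_apply, smul_eq_mul] at h4
    exact (mul_left_cancel₀ hp0 h4).symm
  have h9 := beta_elem π hπ h hd g hgk ⟨y'', hzz⟩
  rwa [hker] at h9

end Pool.Agent.PDH
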